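import Mathlib
import Pool.Agent.ZFM.Lib

/-! # Well-founded models of `ZF`: terms, definability, pairs -/

namespace Pool.Agent.CVH

open ZFM (Fm Sat push Dfn DT IsZF IsPair IsSub Rel IsFun)

universe u v

/-- a well-founded model of `ZF` -/
class WZ (M : Type u) extends Membership M M where
  /-- it is a model of `ZF` -/
  zf : IsZF M
  /-- it is well-founded -/
  wf : WellFounded fun x y : M => x ∈ y

variable {M : Type u} [WZ M]

/-- definable with parameters -/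
abbrev Df (P : (ℕ → M) → Prop) : Prop := Dfn Set.univ P

/-- definable terms -/
def Tm (t : (ℕ → M) → M) : Prop := Df (fun v => v 0 = t (fun n => v (n+1)))

@[is_poly] theorem Df.all {Q : (ℕ → M) → M → Prop} (h : Df (fun v => Q (fun n => v (n+1)) (v 0))) :
    Df (fun v => ∀ x, Q v x) := Dfn.all h
@[is_poly] theorem Df.ex {Q : (ℕ → M) → M → Prop} (h : Df (fun v => Q (fun n => v (n+1)) (v 0))) :
    Df (fun v => ∃ x, Q v x) := Dfn.ex h
@[is_poly] theorem Df.exu {Q : (ℕ → M) → M → Prop} (h : Df (fun v => Q (fun n => v (n+1)) (v 0))) :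
    Df (fun v => ∃! x, Q v x) := Dfn.exu h
@[is_poly] theorem Df.not {P : (ℕ → M) → Prop} (hP : Df P) : Df (fun v => ¬ P v) := Dfn.not hP
@[is_poly] theorem Df.and {P Q : (ℕ → M) → Prop} (hP : Df P) (hQ : Df Q) :
    Df (fun v => P v ∧ Q v) := Dfn.and hP hQ
@[is_poly] theorem Df.or {P Q : (ℕ → M) → Prop} (hP : Df P) (hQ : Df Q) :
    Df (fun v => P v ∨ Q v) := Dfn.or hP hQ
@[is_poly] theorem Df.imp {P Q : (ℕ → M) → Prop} (hP : Df P) (hQ : Df Q) :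
    Df (fun v => P v → Q v) := Dfn.imp hP hQ
@[is_poly] theorem Df.iff {P Q : (ℕ → M) → Prop} (hP : Df P) (hQ : Df Q) :
    Df (fun v => P v ↔ Q v) := Dfn.iff hP hQ
theorem Df.congr {P Q : (ℕ → M) → Prop} (hP : Df P) (h : ∀ v, P v ↔ Q v) : Df Q := Dfn.congr hP h
@[is_poly] theorem Df.prop (p : Prop) : Df (fun _ : ℕ → M => p) := Dfn.prop p

theorem Df.tail {P : (ℕ → M) → Prop} (hP : Df P) : Df (fun v => P (fun n => v (n+1))) :=
  Dfn.subst (t := fun i v => v (i+1)) hP (fun i => DT.var (i+1))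

@[is_poly] theorem Tm.var (i : ℕ) : Tm (fun v : ℕ → M => v i) := Dfn.eq (DT.var 0) (DT.var (i+1))

@[is_poly] theorem Tm.const (c : M) : Tm (fun _ : ℕ → M => c) :=
  Dfn.eq (DT.var 0) (DT.const (Set.mem_univ c))

theorem Tm.tail {t : (ℕ → M) → M} (ht : Tm t) : Tm (fun v => t (fun n => v (n+1))) := by
  have := Dfn.subst (t := fun i (v : ℕ → M) => match i with
    | 0 => v 0
    | i+1 => v (i+2)) ht (fun i => by
      match i with
      | 0 => exact DT.var 0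
      | i+1 => exact DT.var (i+2))
  exact this

/-- substitution of one term -/
theorem Df.sub1 {R : M → Prop} (hR : Df (fun v => R (v 0))) {s : (ℕ → M) → M} (hs : Tm s) :
    Df (fun v => R (s v)) := by
  refine Df.congr (P := fun v => ∃ x, x = s v ∧ R x) (Df.ex (Df.and hs hR)) fun v => ?_
  exact ⟨fun ⟨x, h1, h2⟩ => h1 ▸ h2, fun h => ⟨_, rfl, h⟩⟩

theorem Df.perm {P : (ℕ → M) → Prop} (hP : Df P) (f : ℕ → ℕ) : Df (fun v => P (fun i => v (f i))) :=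
  Dfn.subst (t := fun i v => v (f i)) hP (fun i => DT.var (f i))

/-- substitution of two terms -/
theorem Df.sub2 {R : M → M → Prop} (hR : Df (fun v => R (v 0) (v 1)))
    {s t : (ℕ → M) → M} (hs : Tm s) (ht : Tm t) : Df (fun v => R (s v) (t v)) := by
  refine Df.congr (P := fun v => ∃ x, x = s v ∧ ∃ y, y = t v ∧ R x y) ?_ fun v => ?_
  · refine Df.ex (Df.and hs (Df.ex (Df.and ht.tail ?_)))
    exact Df.perm hR fun i => match i with
      | 0 => 1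
      | _ => 0
  · exact ⟨fun ⟨x, h1, y, h2, h3⟩ => h1 ▸ h2 ▸ h3, fun h => ⟨_, rfl, _, rfl, h⟩⟩

/-- substitution of three terms -/
theorem Df.sub3 {R : M → M → M → Prop} (hR : Df (fun v => R (v 0) (v 1) (v 2)))
    {s t u : (ℕ → M) → M} (hs : Tm s) (ht : Tm t) (hu : Tm u) :
    Df (fun v => R (s v) (t v) (u v)) := by
  refine Df.congr (P := fun v => ∃ x, x = s v ∧ ∃ y, y = t v ∧ ∃ z, z = u v ∧ R x y z) ?_ fun v => ?_
  · refine Df.ex (Df.and hs (Df.ex (Df.and ht.tail (Df.ex (Df.and hu.tail.tail ?_)))))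
    exact Df.perm hR fun i => match i with
      | 0 => 2
      | 1 => 1
      | _ => 0
  · exact ⟨fun ⟨x, h1, y, h2, z, h3, h4⟩ => h1 ▸ h2 ▸ h3 ▸ h4, fun h => ⟨_, rfl, _, rfl, _, rfl, h⟩⟩

/-- substitution of four terms -/
theorem Df.sub4 {R : M → M → M → M → Prop} (hR : Df (fun v => R (v 0) (v 1) (v 2) (v 3)))
    {s t u w : (ℕ → M) → M} (hs : Tm s) (ht : Tm t) (hu : Tm u) (hw : Tm w) :
    Df (fun v => R (s v) (t v) (u v) (w v)) := by
  refine Df.congr (P := fun v => ∃ x, x = s v ∧ ∃ y, y = t v ∧ ∃ z, z = u v ∧ ∃ a, a = w v ∧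
    R x y z a) ?_ fun v => ?_
  · refine Df.ex (Df.and hs (Df.ex (Df.and ht.tail (Df.ex (Df.and hu.tail.tail
      (Df.ex (Df.and hw.tail.tail.tail ?_)))))))
    exact Df.perm hR fun i => match i with
      | 0 => 3
      | 1 => 2
      | 2 => 1
      | _ => 0
  · exact ⟨fun ⟨x, h1, y, h2, z, h3, a, h4, h5⟩ => h1 ▸ h2 ▸ h3 ▸ h4 ▸ h5,
      fun h => ⟨_, rfl, _, rfl, _, rfl, _, rfl, h⟩⟩

/-- substitution of five terms -/
theorem Df.sub5 {R : M → M → M → M → M → Prop}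
    (hR : Df (fun v => R (v 0) (v 1) (v 2) (v 3) (v 4)))
    {s t u w x : (ℕ → M) → M} (hs : Tm s) (ht : Tm t) (hu : Tm u) (hw : Tm w) (hx : Tm x) :
    Df (fun v => R (s v) (t v) (u v) (w v) (x v)) := by
  refine Df.congr (P := fun v => ∃ a, a = s v ∧ ∃ b, b = t v ∧ ∃ c, c = u v ∧ ∃ d, d = w v ∧
    ∃ e, e = x v ∧ R a b c d e) ?_ fun v => ?_
  · refine Df.ex (Df.and hs (Df.ex (Df.and ht.tail (Df.ex (Df.and hu.tail.tail
      (Df.ex (Df.and hw.tail.tail.tail (Df.ex (Df.and hx.tail.tail.tail.tail ?_)))))))))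
    exact Df.perm hR fun i => match i with
      | 0 => 4
      | 1 => 3
      | 2 => 2
      | 3 => 1
      | _ => 0
  · exact ⟨fun ⟨x, h1, y, h2, z, h3, a, h4, b, h5, h6⟩ => h1 ▸ h2 ▸ h3 ▸ h4 ▸ h5 ▸ h6,
      fun h => ⟨_, rfl, _, rfl, _, rfl, _, rfl, _, rfl, h⟩⟩

@[is_poly] theorem Df.mem {s t : (ℕ → M) → M} (hs : Tm s) (ht : Tm t) : Df (fun v => s v ∈ t v) :=
  Df.sub2 (R := fun x y => x ∈ y) (Dfn.mem (DT.var 0) (DT.var 1)) hs ht

@[is_poly] theorem Df.eq {s t : (ℕ → M) → M} (hs : Tm s) (ht : Tm t) : Df (fun v => s v = t v) :=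
  Df.sub2 (R := fun x y => x = y) (Dfn.eq (DT.var 0) (DT.var 1)) hs ht


/-! ### Terms -/

theorem WZ.ext {x y : M} (h : ∀ z, z ∈ x ↔ z ∈ y) : x = y := WZ.zf.extensionality x y h

/-- the ordered pair (Kuratowski) -/
noncomputable def pr (x y : M) : M := IsZF.pr WZ.zf x y

theorem isPair_iff {p x y : M} : IsPair p x y ↔ p = pr x y := IsZF.isPair_iff WZ.zf

theorem pr_inj {x y x' y' : M} : pr x y = pr x' y' ↔ x = x' ∧ y = y' := IsZF.pr_inj WZ.zf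

theorem Tm.of {F : (ℕ → M) → M} {R : (ℕ → M) → Prop} (hR : Df R)
    (h : ∀ v, R v ↔ v 0 = F (fun n => v (n+1))) : Tm F := Df.congr hR h

theorem Df.isPair {p x y : (ℕ → M) → M} (hp : Tm p) (hx : Tm x) (hy : Tm y) :
    Df (fun v => IsPair (p v) (x v) (y v)) :=
  Df.sub3 (R := fun p x y => IsPair p x y) (Dfn.isPair (DT.var 0) (DT.var 1) (DT.var 2)) hp hx hy

@[is_poly] theorem Tm.pr {s t : (ℕ → M) → M} (hs : Tm s) (ht : Tm t) :
    Tm (fun v => CVH.pr (s v) (t v)) :=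
  Tm.of (Df.isPair (Tm.var 0) hs.tail ht.tail) fun _ => isPair_iff

/-- unordered pair -/
theorem exists_up (x y : M) : ∃ p : M, ∀ z, z ∈ p ↔ z = x ∨ z = y := WZ.zf.pairing x y

/-- `{x, y}` -/
noncomputable def up (x y : M) : M := (exists_up x y).choose

@[simp] theorem mem_up {x y z : M} : z ∈ up x y ↔ z = x ∨ z = y := (exists_up x y).choose_spec z

theorem eq_up {x y p : M} : p = up x y ↔ ∀ z, z ∈ p ↔ z = x ∨ z = y :=
  ⟨fun h => h ▸ fun _ => mem_up, fun h => WZ.ext fun z => by rw [h, mem_up]⟩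

@[is_poly] theorem Tm.up {s t : (ℕ → M) → M} (hs : Tm s) (ht : Tm t) :
    Tm (fun v => CVH.up (s v) (t v)) := by
  refine Tm.of (R := fun v => ∀ z, z ∈ v 0 ↔ z = s (fun n => v (n+1)) ∨ z = t (fun n => v (n+1))) ?_
    fun v => eq_up.symm
  have h1 := hs.tail
  have h2 := ht.tail
  exact Df.all (Df.iff (Df.mem (Tm.var 0) (Tm.var 1))
    (Df.or (Df.eq (Tm.var 0) h1.tail) (Df.eq (Tm.var 0) h2.tail)))

/-- union of the members -/
theorem exists_un (x : M) : ∃ s : M, ∀ z, z ∈ s ↔ ∃ y, y ∈ x ∧ z ∈ y := WZ.zf.union x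

/-- `⋃ x` -/
noncomputable def un (x : M) : M := (exists_un x).choose

@[simp] theorem mem_un {x z : M} : z ∈ un x ↔ ∃ y, y ∈ x ∧ z ∈ y := (exists_un x).choose_spec z

theorem eq_un {x p : M} : p = un x ↔ ∀ z, z ∈ p ↔ ∃ y, y ∈ x ∧ z ∈ y :=
  ⟨fun h => h ▸ fun _ => mem_un, fun h => WZ.ext fun z => by rw [h, mem_un]⟩

@[is_poly] theorem Tm.un {s : (ℕ → M) → M} (hs : Tm s) : Tm (fun v => CVH.un (s v)) :=
  Tm.of (R := fun v => ∀ z, z ∈ v 0 ↔ ∃ y, y ∈ s (fun n => v (n+1)) ∧ z ∈ y)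
    (Df.all (Df.iff (Df.mem (Tm.var 0) (Tm.var 1)) (Df.ex (Df.and (Df.mem (Tm.var 0) hs.tail.tail.tail)
      (Df.mem (Tm.var 1) (Tm.var 0)))))) fun v => eq_un.symm

/-- the power set -/
noncomputable def pw (x : M) : M := (WZ.zf.powerset x).choose

@[simp] theorem mem_pw {x y : M} : y ∈ pw x ↔ IsSub y x := (WZ.zf.powerset x).choose_spec y

theorem eq_pw {x p : M} : p = pw x ↔ ∀ y, y ∈ p ↔ IsSub y x :=
  ⟨fun h => h ▸ fun _ => mem_pw, fun h => WZ.ext fun z => by rw [h, mem_pw]⟩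

@[is_poly] theorem Df.isSub {x y : (ℕ → M) → M} (hx : Tm x) (hy : Tm y) :
    Df (fun v => IsSub (x v) (y v)) :=
  Df.sub2 (R := fun x y => IsSub x y) (Dfn.isSub (DT.var 0) (DT.var 1)) hx hy

@[is_poly] theorem Tm.pw {s : (ℕ → M) → M} (hs : Tm s) : Tm (fun v => CVH.pw (s v)) :=
  Tm.of (R := fun v => ∀ y, y ∈ v 0 ↔ IsSub y (s fun n => v (n+1)))
    (Df.all (Df.iff (Df.mem (Tm.var 0) (Tm.var 1)) (Df.isSub (Tm.var 0) hs.tail.tail)))
    fun v => eq_pw.symm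

theorem exists_emp : ∃ e : M, ∀ z, z ∉ e := IsZF.exists_empty WZ.zf

/-- the empty set -/
noncomputable def emp : M := exists_emp.choose

@[simp] theorem notMem_emp (z : M) : z ∉ (emp : M) := exists_emp.choose_spec z

theorem eq_emp {x : M} : x = emp ↔ ∀ z, z ∉ x :=
  ⟨fun h => h ▸ notMem_emp, fun h => WZ.ext fun z => iff_of_false (h z) (notMem_emp z)⟩

/-- `x ∪ {y}` -/
noncomputable def ins (y x : M) : M := un (up x (up y y))

@[simp] theorem mem_ins {x y z : M} : z ∈ ins y x ↔ z = y ∨ z ∈ x := by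
  unfold ins
  rw [mem_un]
  constructor
  · rintro ⟨w, hw, hz⟩
    rcases mem_up.1 hw with rfl | rfl
    · exact Or.inr hz
    · rcases mem_up.1 hz with h | h <;> exact Or.inl h
  · rintro (rfl | h)
    · exact ⟨_, mem_up.2 (Or.inr rfl), mem_up.2 (Or.inl rfl)⟩
    · exact ⟨_, mem_up.2 (Or.inl rfl), h⟩

@[is_poly] theorem Tm.ins {s t : (ℕ → M) → M} (hs : Tm s) (ht : Tm t) :
    Tm (fun v => CVH.ins (s v) (t v)) := by
  unfold CVH.ins
  exact Tm.un (Tm.up ht (Tm.up hs hs))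

/-- the successor `x ∪ {x}` -/
noncomputable def sc (x : M) : M := ins x x

@[simp] theorem mem_sc {x z : M} : z ∈ sc x ↔ z = x ∨ z ∈ x := mem_ins

@[is_poly] theorem Tm.sc {s : (ℕ → M) → M} (hs : Tm s) : Tm (fun v => CVH.sc (s v)) := Tm.ins hs hs

/-- separation -/
theorem exists_sep (x : M) {P : M → Prop} (hP : Df (fun v => P (v 0))) :
    ∃ y : M, ∀ z, z ∈ y ↔ z ∈ x ∧ P z := IsZF.sep WZ.zf hP x

/-- replacement -/
theorem exists_repl (x : M) {R : M → M → Prop} (hR : Df (fun v => R (v 0) (v 1)))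
    (hx : ∀ z ∈ x, ∃! w, R z w) : ∃ y : M, ∀ w, w ∈ y ↔ ∃ z ∈ x, R z w := IsZF.repl WZ.zf hR x hx

/-- the product -/
theorem exists_pd (X Y : M) : ∃ P : M, ∀ p, p ∈ P ↔ ∃ x ∈ X, ∃ y ∈ Y, p = pr x y := by
  obtain ⟨P, hP⟩ := IsZF.exists_prod WZ.zf X Y
  exact ⟨P, fun p => by simp only [hP, isPair_iff]⟩

/-- `X × Y` -/
noncomputable def pd (X Y : M) : M := (exists_pd X Y).choose

theorem mem_pd {X Y p : M} : p ∈ pd X Y ↔ ∃ x ∈ X, ∃ y ∈ Y, p = pr x y := (exists_pd X Y).choose_spec p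

@[simp] theorem pr_mem_pd {X Y x y : M} : pr x y ∈ pd X Y ↔ x ∈ X ∧ y ∈ Y := by
  rw [mem_pd]
  constructor
  · rintro ⟨x', hx, y', hy, h⟩
    obtain ⟨rfl, rfl⟩ := pr_inj.1 h
    exact ⟨hx, hy⟩
  · rintro ⟨hx, hy⟩
    exact ⟨x, hx, y, hy, rfl⟩

theorem eq_pd {X Y p : M} : p = pd X Y ↔ ∀ z, z ∈ p ↔ ∃ x, x ∈ X ∧ ∃ y, y ∈ Y ∧ z = pr x y :=
  ⟨fun h => h ▸ fun _ => mem_pd, fun h => WZ.ext fun z => by rw [h, mem_pd]⟩

@[is_poly] theorem Tm.pd {s t : (ℕ → M) → M} (hs : Tm s) (ht : Tm t) :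
    Tm (fun v => CVH.pd (s v) (t v)) := by
  refine Tm.of (R := fun v => ∀ z, z ∈ v 0 ↔ ∃ x, x ∈ s (fun n => v (n+1)) ∧ ∃ y,
    y ∈ t (fun n => v (n+1)) ∧ z = CVH.pr x y) ?_ fun v => eq_pd.symm
  exact Df.all (Df.iff (Df.mem (Tm.var 0) (Tm.var 1)) (Df.ex (Df.and (Df.mem (Tm.var 0) hs.tail.tail.tail)
    (Df.ex (Df.and (Df.mem (Tm.var 0) ht.tail.tail.tail.tail)
      (Df.eq (Tm.var 2) (Tm.pr (Tm.var 1) (Tm.var 0))))))))

/-- relations by separation from a product -/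
theorem exists_rel2 (X Y : M) {R : M → M → Prop} (hR : Df (fun v => R (v 0) (v 1))) :
    ∃ r : M, (∀ p ∈ r, ∃ x ∈ X, ∃ y ∈ Y, p = pr x y) ∧
      ∀ x y, pr x y ∈ r ↔ x ∈ X ∧ y ∈ Y ∧ R x y := by
  obtain ⟨r, hr⟩ := exists_sep (pd X Y) (P := fun p => ∃ x y, p = pr x y ∧ R x y) (by
    refine Df.ex (Df.ex (Df.and (Df.eq (Tm.var 2) (Tm.pr (Tm.var 1) (Tm.var 0))) ?_))
    exact Df.sub2 hR (Tm.var 1) (Tm.var 0))
  refine ⟨r, fun p hp => mem_pd.1 ((hr p).1 hp).1, fun x y => ?_⟩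
  rw [hr, pr_mem_pd]
  constructor
  · rintro ⟨⟨hx, hy⟩, x', y', e, h⟩
    obtain ⟨rfl, rfl⟩ := pr_inj.1 e
    exact ⟨hx, hy, h⟩
  · rintro ⟨hx, hy, h⟩
    exact ⟨⟨hx, hy⟩, x, y, rfl, h⟩

end Pool.Agent.CVH
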