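import Pool.Agent.CVH.ChainA

/-! # The contradiction given by an involution of the coordinates -/

namespace Pool.Agent.CVH

open ZFM (Fm Sat push Dfn DT IsZF IsPair IsSub Rel IsFun)

universe u

variable {V : Type u} [WZ V] {P L κ : V}

/-- `τ` is the image of the finite function `σ` under the map `π` of the coordinates -/
def Hat (π : V → V) (σ τ : V) : Prop := ∀ x, x ∈ τ ↔ ∃ s c, pr s c ∈ σ ∧ x = pr (π s) c

theorem exists_hat {S C : V} {π : V → V} (h1 : ∀ s ∈ S, π s ∈ S ∧ π (π s) = s) {σ : V}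
    (hσ : IsFn S C σ) : ∃ τ, Hat π σ τ ∧ IsFn S C τ := by
  have hfin : {x | ∃ s c, pr s c ∈ σ ∧ x = pr (π s) c}.Finite := by
    have : {x | ∃ s c, pr s c ∈ σ ∧ x = pr (π s) c} ⊆
        (fun y : V × V => pr (π y.1) y.2) '' {y : V × V | pr y.1 y.2 ∈ σ} := by
      rintro _ ⟨s, c, h, rfl⟩
      exact ⟨(s, c), h, rfl⟩
    exact ((fin_gr hσ.1).image _).subset this
  obtain ⟨τ, hτ⟩ := exists_fin hfin
  have hin : ∀ s c, pr s c ∈ σ → s ∈ S ∧ c ∈ C := by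
    intro s c h
    obtain ⟨s', hs', c', hc', e⟩ := hσ.2.1 _ h
    obtain ⟨rfl, rfl⟩ := pr_inj.1 e
    exact ⟨hs', hc'⟩
  refine ⟨τ, hτ, ?_, ?_, ?_⟩
  · have : {y | y ∈ τ} = {x | ∃ s c, pr s c ∈ σ ∧ x = pr (π s) c} := Set.ext hτ
    rw [Fi, this]; exact hfin
  · intro x hx
    obtain ⟨s, c, h, rfl⟩ := (hτ x).1 hx
    exact ⟨π s, (h1 s (hin s c h).1).1, c, (hin s c h).2, rfl⟩
  · intro a c c' h h'
    obtain ⟨s, d, hs, e⟩ := (hτ _).1 h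
    obtain ⟨s', d', hs', e'⟩ := (hτ _).1 h'
    obtain ⟨e1, rfl⟩ := pr_inj.1 e
    obtain ⟨e2, rfl⟩ := pr_inj.1 e'
    have hss : s = s' := by
      rw [← (h1 s (hin _ _ hs).1).2, ← e1, e2, (h1 s' (hin _ _ hs').1).2]
    subst hss
    exact hσ.2.2 s c c' hs hs'

theorem Hat.symm {S C : V} {π : V → V} (h1 : ∀ s ∈ S, π s ∈ S ∧ π (π s) = s) {σ τ : V}
    (hσ : IsFn S C σ) (h : Hat π σ τ) : Hat π τ σ := by
  intro x
  constructor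
  · intro hx
    obtain ⟨s, hs, c, _, rfl⟩ := hσ.2.1 x hx
    exact ⟨π s, c, (h _).2 ⟨s, c, hx, rfl⟩, by rw [(h1 s hs).2]⟩
  · rintro ⟨a, c, ha, rfl⟩
    obtain ⟨s, c', hs, e⟩ := (h _).1 ha
    obtain ⟨rfl, rfl⟩ := pr_inj.1 e
    obtain ⟨s', hs', c'', _, e'⟩ := hσ.2.1 _ hs
    obtain ⟨rfl, rfl⟩ := pr_inj.1 e'
    rw [(h1 s hs').2]; exact hs

theorem Hat.mono {π : V → V} {σ τ σ' τ' : V} (h : Hat π σ τ) (h' : Hat π σ' τ')
    (hs : IsSub σ σ') : IsSub τ τ' := by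
  intro x hx
  obtain ⟨s, c, hc, rfl⟩ := (h x).1 hx
  exact (h' _).2 ⟨s, c, hs _ hc, rfl⟩

/-- an involution of the coordinates which exchanges two functions of the chain gives a
contradiction -/
theorem swap_false (hC : IsCohen κ P L) {r p h i i' : V} (D : ChainData P L r p h) (hi : i ∈ h)
    (hi' : i' ∈ h) (hii : i ∈ i') (π : V → V) (h1 : ∀ s ∈ pd κ om, π s ∈ pd κ om ∧ π (π s) = s)
    (h2 : ∀ s c, pr s c ∈ p → π s = s)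
    (h3 : ∀ n m : ℕ, ∀ σ τ, Mn (pd κ om) (num 2) (RR P L r p i (num n) (num m)) σ →
      (∀ x, x ∈ τ ↔ ∃ s c, pr s c ∈ σ ∧ x = pr (π s) c) → RR P L r p i' (num n) (num m) τ)
    (h4 : ∀ n m : ℕ, ∀ σ τ, Mn (pd κ om) (num 2) (RR P L r p i' (num n) (num m)) σ →
      (∀ x, x ∈ τ ↔ ∃ s c, pr s c ∈ σ ∧ x = pr (π s) c) → RR P L r p i (num n) (num m) τ) :
    False := by
  have ho := cohen_po hC
  have hP : ∀ {q : V}, q ∈ P ↔ IsFn (pd κ om) (num 2) q := fun {q} => cohen_mem hC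
  have hL : ∀ {q q' : V}, pr q q' ∈ L ↔ q ∈ P ∧ q' ∈ P ∧ IsSub q' q := fun {q q'} => hC.2 q q'
  have hpf : IsFn (pd κ om) (num 2) p := hP.1 D.mem
  have hpp : Hat π p p := by
    intro x
    constructor
    · intro hx
      obtain ⟨s, _, c, _, rfl⟩ := hpf.2.1 x hx
      exact ⟨s, c, hx, by rw [h2 s c hx]⟩
    · rintro ⟨s, c, hc, rfl⟩
      rw [h2 s c hc]; exact hc
  -- (1)
  have key : ∀ a b : V, (∀ n m : ℕ, ∀ σ τ, Mn (pd κ om) (num 2) (RR P L r p a (num n) (num m)) σ →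
      Hat π σ τ → RR P L r p b (num n) (num m) τ) → ∀ n m : ℕ, ∀ σ τ,
      RR P L r p a (num n) (num m) σ → Hat π σ τ → IsFn (pd κ om) (num 2) τ →
      RR P L r p b (num n) (num m) τ := by
    intro a b hab n m σ τ hσ hστ hτ
    obtain ⟨σ0, hσ0, hs⟩ := exists_min (hP.1 hσ.1) hσ
    obtain ⟨τ0, hτ0, hf⟩ := exists_hat h1 hσ0.1
    have h5 := hab n m σ0 τ0 hσ0 hτ0
    have h6 : IsSub τ0 τ := hτ0.mono hστ hs
    exact ⟨hP.2 hτ, fun x hx => h6 x (h5.2.1 x hx), h5.2.2.mono ho (hL.2 ⟨hP.2 hτ, h5.1, h6⟩)⟩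
  have k3 := key i i' h3
  have k4 := key i' i h4
  -- (2)
  obtain ⟨q', hq', N, hN⟩ := D.less p (ho.refl p D.mem) i hi i' hi' hii
  obtain ⟨hq'P, _, hpq'⟩ := hL.1 hq'
  obtain ⟨hq, hhq, hhqf⟩ := exists_hat h1 (hP.1 hq'P)
  -- (3)
  have hqp : pr hq p ∈ L := hL.2 ⟨hP.2 hhqf, D.mem, hpp.mono hhq hpq'⟩
  obtain ⟨q2, hq2, N2, hN2⟩ := D.less hq hqp i hi i' hi' hii
  obtain ⟨hq2P, _, hqq2⟩ := hL.1 hq2
  obtain ⟨t, ht, htf⟩ := exists_hat h1 (hP.1 hq2P)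
  -- (4)
  have hq't : IsSub q' t := (hhq.symm h1 (hP.1 hq'P)).mono ht hqq2
  have htq' : pr t q' ∈ L := hL.2 ⟨hP.2 htf, hq'P, hq't⟩
  obtain ⟨t1, ht1, m, hm⟩ := D.total t (ho.trans _ _ _ htq' hq') i hi (max N N2)
  obtain ⟨t2, ht2, m', hm'⟩ := D.total t1 (ho.trans _ _ _ ht1 (ho.trans _ _ _ htq' hq')) i' hi'
    (max N N2)
  have h21 : pr t2 t ∈ L := ho.trans _ _ _ ht2 ht1
  have h2q : pr t2 q' ∈ L := ho.trans _ _ _ h21 htq'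
  have h2p : pr t2 p ∈ L := ho.trans _ _ _ h2q hq'
  have hlt : m < m' := hN _ (le_max_left _ _) t2 h2q m m' (hm.mono ho ht2) hm'
  obtain ⟨ht2P, _, hpt2⟩ := hL.1 h2p
  obtain ⟨u, hu, huf⟩ := exists_hat h1 (hP.1 ht2P)
  have hq2u : IsSub q2 u := (ht.symm h1 (hP.1 hq2P)).mono hu (hL.1 h21).2.2
  have huq2 : pr u q2 ∈ L := hL.2 ⟨hP.2 huf, hq2P, hq2u⟩
  have r1 := k3 (max N N2) m t2 u ⟨ht2P, hpt2, hm.mono ho ht2⟩ hu huf
  have r2 := k4 (max N N2) m' t2 u ⟨ht2P, hpt2, hm'⟩ hu huf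
  have hlt' : m' < m := hN2 _ (le_max_right _ _) u huq2 m' m r2.2.2 r1.2.2
  omega

end Pool.Agent.CVH
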