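import Pool.Agent.CVH.ChainB
import Pool.Agent.CVH.ChainS

/-! # Cohen extensions have no long chains -/

namespace Pool.Agent.CVH

open ZFM (Fm Sat push Dfn DT IsZF IsPair IsSub Rel IsFun)

universe u

variable {V W : Type u} [WZ V] [WZ W] {j : V → W} {P L κ : V} {G : W}

/-- two functions of the chain can be exchanged -/
theorem exists_swap (hC : IsCohen κ P L) (hκ : IsOrd κ) {r p h : V} (hh : IsOrd h)
    (hp : Pigeon h (pd (pw (TX V)) (pw (TX V)))) (D : ChainData P L r p h) :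
    ∃ i ∈ h, ∃ i' ∈ h, i ∈ i' ∧ ∃ π : V → V, (∀ s ∈ pd κ om, π s ∈ pd κ om ∧ π (π s) = s) ∧
      (∀ s c, pr s c ∈ p → π s = s) ∧
      (∀ n m : ℕ, ∀ σ τ, Mn (pd κ om) (num 2) (RR P L r p i (num n) (num m)) σ →
        (∀ x, x ∈ τ ↔ ∃ s c, pr s c ∈ σ ∧ x = pr (π s) c) → RR P L r p i' (num n) (num m) τ) ∧
      ∀ n m : ℕ, ∀ σ τ, Mn (pd κ om) (num 2) (RR P L r p i' (num n) (num m)) σ →
        (∀ x, x ∈ τ ↔ ∃ s c, pr s c ∈ σ ∧ x = pr (π s) c) → RR P L r p i (num n) (num m) τ := by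
  obtain ⟨Cl, hF⟩ := exists_filt_two (V := V)
  have hdf : Df (fun v : ℕ → V => RR P L r p (v 0) (v 1) (v 2) (v 3)) :=
    Df.rr (Tm.const P) (Tm.const L) (Tm.const r) (Tm.const p) (Tm.var 0) (Tm.var 1) (Tm.var 2)
      (Tm.var 3)
  obtain ⟨i, i', i'', hi, hi', -, hii, -, h1, h2⟩ := erdos_rado hh hp
    (R := RT κ p Cl (RR P L r p)) (Df.rt hdf)
  obtain ⟨π, h3, h4, h5, h6⟩ := swap_of_types hκ hF ((cohen_mem hC).1 D.mem)
    (fun i n m => reg_rr hC D.mem i n m) h1 h2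
  exact ⟨i, hi, i', hi', hii, π, h3, h4, h5, h6⟩

/-- there are no long chains -/
theorem cohen_not_cc (hG : GenExt j P L G) (hC : IsCohen κ P L) (hκ : IsOrd κ) {h : V} (hh : IsOrd h)
    (hp : Pigeon h (pd (pw (TX V)) (pw (TX V)))) : ¬ CC (j h) := by
  intro hc
  obtain ⟨r, p, D⟩ := exists_chainData hG hC hh hc
  obtain ⟨i, hi, i', hi', hii, π, h1, h2, h3, h4⟩ := exists_swap hC hκ hh hp D
  exact swap_false hC D hi hi' hii π h1 h2 h3 h4

end Pool.Agent.CVH
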