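import Pool.Agent.CVH.Coh

/-! # Cohen extensions have no long chains: forcing part -/

namespace Pool.Agent.CVH

open ZFM (Fm Sat push Dfn DT IsZF IsPair IsSub Rel IsFun)

universe u

variable {V W : Type u} [WZ V] [WZ W] {j : V → W} {P L κ : V} {G : W}

/-- p forces that r is a name of a chain of length h -/
structure ChainData (P L r p h : V) : Prop where
  mem : p ∈ P
  uniq : ∀ q, pr q p ∈ L → ∀ i ∈ h, ∀ n m m' : ℕ, Frc P L r q (pr (pr i (num n)) (num m)) →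
    Frc P L r q (pr (pr i (num n)) (num m')) → m = m'
  total : ∀ q, pr q p ∈ L → ∀ i ∈ h, ∀ n : ℕ, ∃ q', pr q' q ∈ L ∧ ∃ m : ℕ,
    Frc P L r q' (pr (pr i (num n)) (num m))
  less : ∀ q, pr q p ∈ L → ∀ i ∈ h, ∀ i' ∈ h, i ∈ i' → ∃ q', pr q' q ∈ L ∧ ∃ N : ℕ, ∀ n, N ≤ n →
    ∀ q'', pr q'' q' ∈ L → ∀ m m' : ℕ, Frc P L r q'' (pr (pr i (num n)) (num m)) →
      Frc P L r q'' (pr (pr i' (num n)) (num m')) → m < m'

/-- the order of the chain is forced -/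
theorem exists_less (hG : GenExt j P L G) (ho : IsPo P L) {h r : V} {x : W}
    (hr : Nm j G (pd (pd h om) om) r x)
    (hx : ∀ i ∈ j h, ∀ i' ∈ j h, i ∈ i' → ∃ N : ℕ, ∀ n, N ≤ n → ∀ m m' : ℕ,
      pr (pr i (num n)) (num m) ∈ x → pr (pr i' (num n)) (num m') ∈ x → m < m') :
    ∃ p, j p ∈ G ∧ ∀ q, pr q p ∈ L → ∀ i ∈ h, ∀ i' ∈ h, i ∈ i' → ∃ q', pr q' q ∈ L ∧ ∃ N : ℕ,
      ∀ n, N ≤ n → ∀ q'', pr q'' q' ∈ L → ∀ m m' : ℕ, Frc P L r q'' (pr (pr i (num n)) (num m)) →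
      Frc P L r q'' (pr (pr i' (num n)) (num m')) → m < m' := by
  have hle : ∀ N n : ℕ, (num N : V) ∈ sc (num n : V) ↔ N ≤ n := by
    intro N n
    exact (num_mem (n := n + 1)).trans Nat.lt_succ_iff
  have hj : ∀ (i : V) (n m : ℕ), j (pr (pr i (num n)) (num m)) = pr (pr (j i) (num n)) (num m) := by
    intro i n m
    rw [hG.j_pr, hG.j_pr, hG.j_num, hG.j_num]
  obtain ⟨p, hp, h1⟩ := hG.avoid ho (D := fun q => ∃ i, i ∈ h ∧ ∃ i', i' ∈ h ∧ i ∈ i' ∧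
      ¬ ∃ q', pr q' q ∈ L ∧ ∃ N, N ∈ (om : V) ∧ ∀ n, n ∈ (om : V) → N ∈ sc n → ∀ q'', pr q'' q' ∈ L →
        ∀ m, m ∈ (om : V) → ∀ m', m' ∈ (om : V) → Frc P L r q'' (pr (pr i n) m) →
        Frc P L r q'' (pr (pr i' n) m') → m ∈ m') (by
      refine Df.ex (Df.and (Df.mem (Tm.var 0) (Tm.const _)) (Df.ex (Df.and
        (Df.mem (Tm.var 0) (Tm.const _)) (Df.and (Df.mem (Tm.var 1) (Tm.var 0)) (Df.not
        (Df.ex (Df.and (Df.mem (Tm.pr (Tm.var 0) (Tm.var 3)) (Tm.const _)) (Df.ex (Df.and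
        (Df.mem (Tm.var 0) (Tm.const _)) (Df.all (Df.imp (Df.mem (Tm.var 0) (Tm.const _))
        (Df.imp (Df.mem (Tm.var 1) (Tm.sc (Tm.var 0))) (Df.all (Df.imp
        (Df.mem (Tm.pr (Tm.var 0) (Tm.var 3)) (Tm.const _)) (Df.all (Df.imp
        (Df.mem (Tm.var 0) (Tm.const _)) (Df.all (Df.imp (Df.mem (Tm.var 0) (Tm.const _))
        (Df.imp (Df.frc (Tm.const _) (Tm.const _) (Tm.const _) (Tm.var 2)
          (Tm.pr (Tm.pr (Tm.var 7) (Tm.var 3)) (Tm.var 1)))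
        (Df.imp (Df.frc (Tm.const _) (Tm.const _) (Tm.const _) (Tm.var 2)
          (Tm.pr (Tm.pr (Tm.var 6) (Tm.var 3)) (Tm.var 0)))
        (Df.mem (Tm.var 1) (Tm.var 0))))))))))))))))))))))) (by
      rintro q hq ⟨i, hi, i', hi', hii, hn⟩
      obtain ⟨N, hN⟩ := hx (j i) ((hG.mem _ _).2 hi) (j i') ((hG.mem _ _).2 hi') ((hG.mem _ _).2 hii)
      obtain ⟨p, hp, h1⟩ := hG.avoid ho (D := fun q => ∃ n, n ∈ (om : V) ∧ num N ∈ sc n ∧ ∃ m, m ∈ (om : V) ∧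
          ∃ m', m' ∈ (om : V) ∧ Frc P L r q (pr (pr i n) m) ∧ Frc P L r q (pr (pr i' n) m') ∧ ¬ m ∈ m') (by
          refine Df.ex (Df.and (Df.mem (Tm.var 0) (Tm.const _)) (Df.and
            (Df.mem (Tm.const _) (Tm.sc (Tm.var 0))) (Df.ex (Df.and
            (Df.mem (Tm.var 0) (Tm.const _)) (Df.ex (Df.and (Df.mem (Tm.var 0) (Tm.const _))
            (Df.and (Df.frc (Tm.const _) (Tm.const _) (Tm.const _) (Tm.var 3)
              (Tm.pr (Tm.pr (Tm.const _) (Tm.var 2)) (Tm.var 1)))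
            (Df.and (Df.frc (Tm.const _) (Tm.const _) (Tm.const _) (Tm.var 3)
              (Tm.pr (Tm.pr (Tm.const _) (Tm.var 2)) (Tm.var 0)))
            (Df.not (Df.mem (Tm.var 1) (Tm.var 0)))))))))))) (by
          rintro q hq ⟨n, hn, hNn, m, hm, m', hm', h1, h2, h3⟩
          obtain ⟨n, rfl⟩ := mem_om.1 hn
          obtain ⟨m, rfl⟩ := mem_om.1 hm
          obtain ⟨m', rfl⟩ := mem_om.1 hm'
          have e1 := hG.of_frc ho hr (pr_mem_pd.2 ⟨pr_mem_pd.2 ⟨hi, hn⟩, hm⟩) hq h1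
          have e2 := hG.of_frc ho hr (pr_mem_pd.2 ⟨pr_mem_pd.2 ⟨hi', hn⟩, hm'⟩) hq h2
          rw [hj] at e1 e2
          exact h3 (num_mem.2 (hN n ((hle _ _).1 hNn) m m' e1 e2)))
      obtain ⟨s, -, hs1, hs2⟩ := hG.dir p q hp hq
      refine hn ⟨s, hs2, num N, num_mem_om N, fun n hn hNn q'' hq'' m hm m' hm' h2 h3 => ?_⟩
      by_contra h4
      exact h1 q'' (ho.trans _ _ _ hq'' hs1) ⟨n, hn, hNn, m, hm, m', hm', h2, h3, h4⟩)
  refine ⟨p, hp, fun q hq i hi i' hi' hii => ?_⟩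
  by_contra hn
  refine h1 q hq ⟨i, hi, i', hi', hii, ?_⟩
  rintro ⟨q', hq', N, hN, h2⟩
  obtain ⟨N, rfl⟩ := mem_om.1 hN
  refine hn ⟨q', hq', N, fun n hNn q'' hq'' m m' h3 h4 => ?_⟩
  exact num_mem.1 (h2 (num n) (num_mem_om n) ((hle _ _).2 hNn) q'' hq'' (num m) (num_mem_om m)
    (num m') (num_mem_om m') h3 h4)

/-- the functions of the chain are total -/
theorem exists_total (hG : GenExt j P L G) (ho : IsPo P L) {h r : V} {x : W}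
    (hr : Nm j G (pd (pd h om) om) r x)
    (hx : ∀ i ∈ j h, ∀ n : ℕ, ∃ m : ℕ, pr (pr i (num n)) (num m) ∈ x) :
    ∃ p, j p ∈ G ∧ ∀ q, pr q p ∈ L → ∀ i ∈ h, ∀ n : ℕ, ∃ q', pr q' q ∈ L ∧ ∃ m : ℕ,
      Frc P L r q' (pr (pr i (num n)) (num m)) := by
  obtain ⟨p, hp, h1⟩ := hG.avoid ho (D := fun q => ∃ i, i ∈ h ∧ ∃ n, n ∈ (om : V) ∧
      ¬ ∃ q', pr q' q ∈ L ∧ ∃ m, m ∈ (om : V) ∧ Frc P L r q' (pr (pr i n) m)) (by
      refine Df.ex (Df.and (Df.mem (Tm.var 0) (Tm.const _)) (Df.ex (Df.and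
        (Df.mem (Tm.var 0) (Tm.const _)) (Df.not
        (Df.ex (Df.and (Df.mem (Tm.pr (Tm.var 0) (Tm.var 3)) (Tm.const _)) (Df.ex (Df.and
        (Df.mem (Tm.var 0) (Tm.const _)) (Df.frc (Tm.const _) (Tm.const _) (Tm.const _) (Tm.var 1)
          (Tm.pr (Tm.pr (Tm.var 3) (Tm.var 2)) (Tm.var 0)))))))))))) (by
      rintro q hq ⟨i, hi, n, hn, h1⟩
      obtain ⟨n, rfl⟩ := mem_om.1 hn
      obtain ⟨m, hm⟩ := hx (j i) ((hG.mem _ _).2 hi) n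
      have e : pr (pr (j i) (num n)) (num m) = j (pr (pr i (num n)) (num m)) := by
        rw [hG.j_pr, hG.j_pr, hG.j_num, hG.j_num]
      rw [e] at hm
      obtain ⟨p, hp, h2⟩ := hG.exists_frc ho hr (pr_mem_pd.2 ⟨pr_mem_pd.2 ⟨hi, hn⟩, num_mem_om m⟩) hm
      obtain ⟨s, -, hs1, hs2⟩ := hG.dir p q hp hq
      exact h1 ⟨s, hs2, num m, num_mem_om m, h2.mono ho hs1⟩)
  refine ⟨p, hp, fun q hq i hi n => ?_⟩
  by_contra hn
  refine h1 q hq ⟨i, hi, num n, num_mem_om n, ?_⟩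
  rintro ⟨q', hq', m, hm, h2⟩
  obtain ⟨m, rfl⟩ := mem_om.1 hm
  exact hn ⟨q', hq', m, h2⟩

theorem exists_chainData (hG : GenExt j P L G) (hC : IsCohen κ P L) {h : V} (hh : IsOrd h)
    (hc : CC (j h)) : ∃ r p : V, ChainData P L r p h := by
  have ho := cohen_po hC
  obtain ⟨x, hx1, hx2⟩ := hc
  obtain ⟨r, hr⟩ := hG.exists_nm (pd (pd h om) om) x
  obtain ⟨p1, hp1, h1⟩ := hG.exists_uniq ho hr (fun a ha y hy y' hy' h1 h2 => by
    obtain ⟨i, hi, n, hn, rfl⟩ := mem_pd.1 ha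
    obtain ⟨n, rfl⟩ := mem_om.1 hn
    obtain ⟨m, rfl⟩ := mem_om.1 hy
    obtain ⟨m', rfl⟩ := mem_om.1 hy'
    rw [hG.j_pr, hG.j_num, hG.j_num] at h1 h2
    rw [(hx1 (j i) ((hG.mem _ _).2 hi) n).unique h1 h2])
  obtain ⟨p2, hp2, h2⟩ := exists_total hG ho hr fun i hi n => (hx1 i hi n).exists
  obtain ⟨p3, hp3, h3⟩ := exists_less hG ho hr hx2
  obtain ⟨p4, hp4, h4, h5⟩ := hG.dir p1 p2 hp1 hp2
  obtain ⟨p, hp, h6, h7⟩ := hG.dir p4 p3 hp4 hp3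
  refine ⟨r, p, hG.mem_P hp, fun q hq i hi n m m' f1 f2 => ?_, fun q hq => ?_, fun q hq => ?_⟩
  · have hq1 : pr q p1 ∈ L := ho.trans _ _ _ hq (ho.trans _ _ _ h6 h4)
    exact num_inj.1 (h1 q hq1 (pr i (num n)) (pr_mem_pd.2 ⟨hi, num_mem_om n⟩) (num m) (num_mem_om m)
      (num m') (num_mem_om m') f1 f2)
  · exact h2 q (ho.trans _ _ _ hq (ho.trans _ _ _ h6 h5))
  · exact h3 q (ho.trans _ _ _ hq h7)

/-- the conditions below `p` which force the value `m` at `n` of the `i`-th function -/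
def RR (P L r p i n m σ : V) : Prop := σ ∈ P ∧ IsSub p σ ∧ Frc P L r σ (pr (pr i n) m)

@[is_poly] theorem Df.rr {P L r p i n m σ : (ℕ → V) → V} (h1 : Tm P) (h2 : Tm L) (h3 : Tm r) (h4 : Tm p)
    (h5 : Tm i) (h6 : Tm n) (h7 : Tm m) (h8 : Tm σ) :
    Df (fun v => RR (P v) (L v) (r v) (p v) (i v) (n v) (m v) (σ v)) :=
  Df.and (Df.mem h8 h1) (Df.and (Df.isSub h4 h8) (Df.frc h1 h2 h3 h8 (Tm.pr (Tm.pr h5 h6) h7)))

theorem reg_rr (hC : IsCohen κ P L) {r p : V} (hp : p ∈ P) (i n m : V) :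
    Reg (pd κ om) (num 2) (RR P L r p i n m) := by
  have ho := cohen_po hC
  intro s hs h
  have hpF := (cohen_mem hC).1 hp
  have hsP : s ∈ P := (cohen_mem hC).2 hs
  refine ⟨hsP, fun z hz => ?_, fun q hq hqs => ?_⟩
  · obtain ⟨t, ht, c, hc, rfl⟩ := hpF.2.1 z hz
    -- all values of extensions of `s` at `t` are `c`
    have key : ∀ q c', IsFn (pd κ om) (num 2) q → IsSub s q → pr t c' ∈ q → c' = c := by
      intro q c' hq hsq h1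
      obtain ⟨ρ, -, h2, h3⟩ := h q hq hsq
      exact h3 t c' c h1 (h2.2.1 _ hz)
    by_cases h1 : ∃ c', pr t c' ∈ s
    · obtain ⟨c', h1⟩ := h1
      rwa [← key s c' hs (fun _ h => h) h1]
    · push Not at h1
      have h2 := key _ (num 0) (hs.ins ht (num_mem.2 (by norm_num)) h1)
        (fun z hz => mem_ins.2 (Or.inr hz)) (mem_ins.2 (Or.inl rfl))
      have h3 := key _ (num 1) (hs.ins ht (num_mem.2 (by norm_num)) h1)
        (fun z hz => mem_ins.2 (Or.inr hz)) (mem_ins.2 (Or.inl rfl))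
      have h4 := num_inj.1 (h2.trans h3.symm)
      omega
  · have hqF := (cohen_mem hC).1 hq
    obtain ⟨ρ, hρ, h1, h2⟩ := h q hqF ((hC.2 _ _).1 hqs).2.2
    have hu := (cohen_mem hC).2 (hqF.ud hρ h2)
    have hq1 : pr (ud q ρ) q ∈ L := (hC.2 _ _).2 ⟨hu, hq, fun z hz => mem_ud.2 (Or.inl hz)⟩
    have hq2 : pr (ud q ρ) ρ ∈ L := (hC.2 _ _).2 ⟨hu, h1.1, fun z hz => mem_ud.2 (Or.inr hz)⟩
    obtain ⟨t, ht, ht1, w, hw, htw⟩ := h1.2.2 _ hu hq2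
    exact ⟨t, ht, ho.trans _ _ _ ht1 hq1, w, hw, htw⟩

end Pool.Agent.CVH
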