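import Pool.Agent.CVH.Pig
import Pool.Agent.CHE.Greedy

/-! # The theorem of Erdos and Rado without choice -/

namespace Pool.Agent.CVH

open ZFM (Fm Sat push Dfn DT IsZF IsPair IsSub Rel IsFun)

universe u

variable {M : Type u} [WZ M]

attribute [local irreducible] Tm

/-- the linear order of an ordinal -/
noncomputable abbrev linOrd {h : M} (hh : IsOrd h) : LinearOrder {i : M // i ∈ h} where
  le a b := a.1 ∈ b.1 ∨ a.1 = b.1
  lt a b := a.1 ∈ b.1
  le_refl a := Or.inr rfl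
  le_trans a b c := by
    rintro (h1 | h1) (h2 | h2)
    · exact Or.inl ((hh.mem c.2).tr h2 h1)
    · exact Or.inl (h2 ▸ h1)
    · exact Or.inl (h1 ▸ h2)
    · exact Or.inr (h1.trans h2)
  lt_iff_le_not_ge a b := by
    constructor
    · intro h1
      refine ⟨Or.inl h1, ?_⟩
      rintro (h2 | h2)
      · exact mem_irrefl _ ((hh.mem a.2).tr h2 h1)
      · exact mem_irrefl a.1 (by rw [h2] at h1; exact h1)
    · rintro ⟨h1 | h1, h2⟩
      · exact h1
      · exact absurd (Or.inr h1.symm) h2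
  le_antisymm a b := by
    rintro (h1 | h1) (h2 | h2)
    · exact absurd ((hh.mem a.2).tr h2 h1) (mem_irrefl _)
    · exact Subtype.ext h2.symm
    · exact Subtype.ext h1
    · exact Subtype.ext h1
  le_total a b := by
    rcases (hh.mem a.2).tri (hh.mem b.2) with h1 | h1 | h1
    · exact Or.inl (Or.inl h1)
    · exact Or.inl (Or.inr h1)
    · exact Or.inr (Or.inl h1)
  toDecidableLE := Classical.decRel _

/-- `b` is the greedy branch of `j` below `l`, for the relation of equal colours `Q` -/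
def Good (Q : M → M → M → Prop) (j l b : M) : Prop :=
  ∀ x, x ∈ b ↔ x ∈ l ∧ ∀ y ∈ b, y ∈ x → Q y x j

/-- `l` is in the greedy branch of `j` -/
def BB (Q : M → M → M → Prop) (j l : M) : Prop :=
  l ∈ j ∧ ∃ b, Good Q j l b ∧ ∀ y ∈ b, Q y l j

theorem Df.good {Q : M → M → M → Prop} (hQ : Df (fun v => Q (v 0) (v 1) (v 2)))
    {s t r : (ℕ → M) → M} (hs : Tm s) (ht : Tm t) (hr : Tm r) :
    Df (fun v => Good Q (s v) (t v) (r v)) := by
  refine Df.sub3 (R := fun a b c => Good Q a b c) ?_ hs ht hr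
  unfold Good
  refine Df.all (Df.iff (by apply_rules [Df.mem, Df.eq, Df.or, Tm.var, Tm.const, Tm.pr]) (Df.and (by apply_rules [Df.mem, Df.eq, Df.or, Tm.var, Tm.const, Tm.pr]) (Df.all (Df.imp (by apply_rules [Df.mem, Df.eq, Df.or, Tm.var, Tm.const, Tm.pr]) (Df.imp (by apply_rules [Df.mem, Df.eq, Df.or, Tm.var, Tm.const, Tm.pr]) ?_)))))
  exact Df.sub3 hQ (Tm.var 0) (Tm.var 1) (Tm.var 2)

theorem Df.bb {Q : M → M → M → Prop} (hQ : Df (fun v => Q (v 0) (v 1) (v 2)))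
    {s t : (ℕ → M) → M} (hs : Tm s) (ht : Tm t) : Df (fun v => BB Q (s v) (t v)) := by
  refine Df.sub2 (R := fun a b => BB Q a b) ?_ hs ht
  unfold BB
  refine Df.and (by apply_rules [Df.mem, Df.eq, Df.or, Tm.var, Tm.const, Tm.pr]) (Df.ex (Df.and (Df.good hQ (Tm.var 1) (Tm.var 2) (Tm.var 0))
    (Df.all (Df.imp (by apply_rules [Df.mem, Df.eq, Df.or, Tm.var, Tm.const, Tm.pr]) ?_))))
  exact Df.sub3 hQ (Tm.var 0) (Tm.var 3) (Tm.var 2)

theorem good_unique {Q : M → M → M → Prop} {j l b b' : M} (hl : IsOrd l) (hb : Good Q j l b)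
    (hb' : Good Q j l b') : b = b' := by
  have key : ∀ x, x ∈ l → (x ∈ b ↔ x ∈ b') := by
    intro x
    induction x using (WZ.wf (M := M)).induction with
    | _ x ih =>
    intro hx
    rw [hb x, hb' x]
    refine and_congr_right fun _ => ?_
    constructor
    · intro h y hy hyx
      exact h y ((ih y hyx (hl.tr hx hyx)).2 hy) hyx
    · intro h y hy hyx
      exact h y ((ih y hyx (hl.tr hx hyx)).1 hy) hyx
  refine WZ.ext fun x => ?_
  constructor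
  · intro hx; exact (key x ((hb x).1 hx).1).1 hx
  · intro hx; exact (key x ((hb' x).1 hx).1).2 hx

theorem good_iff {Q : M → M → M → Prop} (hQ : Df (fun v => Q (v 0) (v 1) (v 2))) {j l : M}
    (hj : IsOrd j) (hl : IsOrd l) (hlj : IsSub l j) {b : M} :
    Good Q j l b ↔ ∀ x, x ∈ b ↔ x ∈ l ∧ BB Q j x := by
  have main : ∀ l, IsOrd l → IsSub l j → ∀ b, (∀ x, x ∈ b ↔ x ∈ l ∧ BB Q j x) → Good Q j l b := by
    intro l
    induction l using (WZ.wf (M := M)).induction with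
    | _ l ih =>
    intro hl hlj b hb x
    rw [hb x]
    refine and_congr_right fun hx => ?_
    have hxo : IsOrd x := hl.mem hx
    have hxj : IsSub x j := fun y hy => hlj y (hl.tr hx hy)
    obtain ⟨bx, hbx⟩ := exists_sep x (P := fun y => BB Q j y)
      (Df.bb hQ (Tm.const j) (Tm.var 0))
    have hgx := ih x hx hxo hxj bx hbx
    constructor
    · rintro ⟨_, b', hb', hy'⟩ y hy hyx
      have e : b' = bx := good_unique hxo hb' hgx
      subst e
      exact hy' y ((hbx y).2 ⟨hyx, ((hb y).1 hy).2⟩)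
    · intro h
      refine ⟨hlj x hx, bx, hgx, fun y hy => ?_⟩
      obtain ⟨h1, h2⟩ := (hbx y).1 hy
      exact h y ((hb y).2 ⟨hl.tr hx h1, h2⟩) h1
  constructor
  · intro hb
    obtain ⟨b', hb'⟩ := exists_sep l (P := fun y => BB Q j y)
      (Df.bb hQ (Tm.const j) (Tm.var 0))
    rw [good_unique hl hb (main l hl hlj b' hb')]
    exact hb'
  · exact main l hl hlj b

theorem bb_iff {Q : M → M → M → Prop} (hQ : Df (fun v => Q (v 0) (v 1) (v 2))) {j l : M}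
    (hj : IsOrd j) : BB Q j l ↔ l ∈ j ∧ ∀ y, BB Q j y → y ∈ l → Q y l j := by
  unfold BB
  refine and_congr_right fun hl => ?_
  have hlo : IsOrd l := hj.mem hl
  have hlj : IsSub l j := fun y hy => hj.tr hl hy
  constructor
  · rintro ⟨b, hb, hy⟩ y hyB hyl
    exact hy y (((good_iff hQ hj hlo hlj).1 hb y).2 ⟨hyl, hyB⟩)
  · intro h
    obtain ⟨b, hb⟩ := exists_sep l (P := fun y => BB Q j y)
      (Df.bb hQ (Tm.const j) (Tm.var 0))
    exact ⟨b, (good_iff hQ hj hlo hlj).2 hb, fun y hy => h y ((hb y).1 hy).2 ((hb y).1 hy).1⟩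

/-- colourings of pairs have homogeneous triples -/
theorem erdos_rado {h X : M} (hh : IsOrd h) (hp : Pigeon h (pd (pw X) (pw X))) {R : M → M → M → Prop}
    (hR : Df (fun v => R (v 0) (v 1) (v 2))) : ∃ i j k, i ∈ h ∧ j ∈ h ∧ k ∈ h ∧ i ∈ j ∧ j ∈ k ∧
      (∀ x ∈ X, (R i j x ↔ R j k x)) ∧ ∀ x ∈ X, (R i j x ↔ R i k x) := by
  by_contra hno
  push Not at hno
  -- colours as sets
  have hc : ∀ i j, ∃ c, ∀ x, x ∈ c ↔ x ∈ X ∧ R i j x := fun i j =>
    exists_sep X (P := fun x => R i j x) (Df.sub3 hR (Tm.const i) (Tm.const j) (Tm.var 0))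
  choose t ht using hc
  have hteq : ∀ i j i' j', t i j = t i' j' ↔ ∀ x ∈ X, (R i j x ↔ R i' j' x) := by
    intro i j i' j'
    constructor
    · intro e x hx
      have := ht i j x
      rw [e, ht i' j' x] at this
      exact ⟨fun h' => (this.2 ⟨hx, h'⟩).2, fun h' => (this.1 ⟨hx, h'⟩).2⟩
    · intro h'
      refine WZ.ext fun x => ?_
      rw [ht, ht]
      exact ⟨fun ⟨h1, h2⟩ => ⟨h1, (h' x h1).1 h2⟩, fun ⟨h1, h2⟩ => ⟨h1, (h' x h1).2 h2⟩⟩
  -- the relation of equal colours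
  let Q : M → M → M → Prop := fun y l j => ∀ x ∈ X, (R y l x ↔ R y j x)
  have hQ : Df (fun v : ℕ → M => Q (v 0) (v 1) (v 2)) := by
    refine Df.all (Df.imp (by apply_rules [Df.mem, Df.eq, Df.or, Tm.var, Tm.const, Tm.pr]) (Df.iff ?_ ?_))
    · exact Df.sub3 hR (Tm.var 1) (Tm.var 2) (Tm.var 0)
    · exact Df.sub3 hR (Tm.var 1) (Tm.var 3) (Tm.var 0)
  -- the code of `j`
  let W : M → M → Prop := fun j p => ∃ l l', BB Q j l ∧ BB Q j l' ∧ (l ∈ l' ∨ l = l') ∧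
    ∃ c c', p = pr c c' ∧ (∀ x, x ∈ c ↔ x ∈ X ∧ R l j x) ∧ ∀ x, x ∈ c' ↔ x ∈ X ∧ R l' j x
  have hW : Df (fun v : ℕ → M => W (v 0) (v 1)) := by
    refine Df.ex (Df.ex (Df.and (Df.bb hQ (Tm.var 2) (Tm.var 1))
      (Df.and (Df.bb hQ (Tm.var 2) (Tm.var 0)) (Df.and (by apply_rules [Df.mem, Df.eq, Df.or, Tm.var, Tm.const, Tm.pr]) (Df.ex (Df.ex (Df.and (by apply_rules [Df.mem, Df.eq, Df.or, Tm.var, Tm.const, Tm.pr])
      (Df.and (Df.all (Df.iff (by apply_rules [Df.mem, Df.eq, Df.or, Tm.var, Tm.const, Tm.pr]) (Df.and (by apply_rules [Df.mem, Df.eq, Df.or, Tm.var, Tm.const, Tm.pr]) ?_)))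
        (Df.all (Df.iff (by apply_rules [Df.mem, Df.eq, Df.or, Tm.var, Tm.const, Tm.pr]) (Df.and (by apply_rules [Df.mem, Df.eq, Df.or, Tm.var, Tm.const, Tm.pr]) ?_)))))))))))
    · exact Df.sub3 hR (Tm.var 4) (Tm.var 5) (Tm.var 0)
    · exact Df.sub3 hR (Tm.var 3) (Tm.var 5) (Tm.var 0)
  obtain ⟨α, hα, β, hβ, hne, hαβ⟩ := hp.df hW
  let _ := linOrd hh
  have : WellFoundedLT {i : M // i ∈ h} := ⟨InvImage.wf (fun i : {i : M // i ∈ h} => i.1) WZ.wf⟩
  have hWt : ∀ (j : {i : M // i ∈ h}) (x y : M),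
      (∃ l ∈ {l : {i : M // i ∈ h} | BB Q j.1 l.1}, ∃ l' ∈ {l : {i : M // i ∈ h} | BB Q j.1 l.1},
        l ≤ l' ∧ x = t l.1 j.1 ∧ y = t l'.1 j.1) ↔ W j.1 (pr x y) := by
    intro j x y
    constructor
    · rintro ⟨l, hl, l', hl', hle, rfl, rfl⟩
      exact ⟨l.1, l'.1, hl, hl', hle, _, _, rfl, ht _ _, ht _ _⟩
    · rintro ⟨l, l', hl, hl', hle, c, c', e, h1, h2⟩
      obtain ⟨rfl, rfl⟩ := pr_inj.1 e
      refine ⟨⟨l, hh.tr j.2 hl.1⟩, hl, ⟨l', hh.tr j.2 hl'.1⟩, hl', hle, ?_, ?_⟩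
      · exact WZ.ext fun z => by rw [h1, ht]
      · exact WZ.ext fun z => by rw [h2, ht]
  have hWX : ∀ (j : {i : M // i ∈ h}) (x y : M), W j.1 (pr x y) → pr x y ∈ pd (pw X) (pw X) := by
    rintro j x y ⟨l, l', hl, hl', hle, c, c', e, h1, h2⟩
    obtain ⟨rfl, rfl⟩ := pr_inj.1 e
    rw [pr_mem_pd, mem_pw, mem_pw]
    exact ⟨fun z hz => ((h1 z).1 hz).1, fun z hz => ((h2 z).1 hz).1⟩
  have := ZFM.Che.greedy_inj (I := {i : M // i ∈ h}) (t := fun i j => t i.1 j.1)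
    (B := fun j => {l : {i : M // i ∈ h} | BB Q j.1 l.1}) (j := ⟨α, hα⟩) (j' := ⟨β, hβ⟩) ?_ ?_ ?_
  · exact hne (congrArg Subtype.val this)
  · intro j l
    change BB Q j.1 l.1 ↔ _
    rw [bb_iff hQ (hh.mem j.2)]
    refine and_congr Iff.rfl ?_
    constructor
    · intro h' b hb hbl
      exact (hteq _ _ _ _).2 (h' b.1 hb hbl)
    · intro h' y hy hyl
      exact (hteq _ _ _ _).1 (h' ⟨y, hh.tr j.2 hy.1⟩ hy hyl)
  · intro i j k hij hjk h1 h2
    obtain ⟨x, hx, h3⟩ := hno i.1 j.1 k.1 i.2 j.2 k.2 hij hjk ((hteq _ _ _ _).1 h1)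
    rcases h3 with ⟨h3, h4⟩ | ⟨h3, h4⟩
    · exact h4 (((hteq _ _ _ _).1 h2 x hx).1 h3)
    · exact h3 (((hteq _ _ _ _).1 h2 x hx).2 h4)
  · intro x y
    rw [hWt ⟨α, hα⟩ x y, hWt ⟨β, hβ⟩ x y]
    constructor
    · intro h'
      exact (hαβ _ (hWX ⟨α, hα⟩ x y h')).1 h'
    · intro h'
      exact (hαβ _ (hWX ⟨β, hβ⟩ x y h')).2 h'

end Pool.Agent.CVH
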