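import Pool.Agent.CVH.Fin

/-! # Labels: countable unions of finite linearly ordered sets are countable -/

namespace Pool.Agent.CVH

open ZFM (Fm Sat push Dfn DT IsZF IsPair IsSub Rel IsFun)

universe u

variable {M : Type u} [WZ M]

attribute [local irreducible] Tm

theorem exists_lb {A lt : M → M → Prop} (hfin : ∀ n : ℕ, {a | A (num n) a}.Finite) {a : M} {n : ℕ}
    (ha : A (num n) a) : ∃ x, Lb om A lt a x ∧ x ∈ pd (om : M) om := by
  classical
  have hex : ∃ k : ℕ, A (num k) a := ⟨n, ha⟩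
  have hs : {a' | A (num (Nat.find hex)) a' ∧ lt a' a}.Finite :=
    (hfin (Nat.find hex)).subset fun x hx => hx.1
  obtain ⟨z, hz⟩ := exists_fin hs
  have hz' : {y | y ∈ z} = {a' | A (num (Nat.find hex)) a' ∧ lt a' a} := Set.ext hz
  refine ⟨pr (num (Nat.find hex)) (num hs.toFinset.card), ⟨num (Nat.find hex), num hs.toFinset.card,
    rfl, num_mem_om _, num_mem_om _, Nat.find_spec hex, fun l' hl' => ?_, z, hz, ?_⟩,
    pr_mem_pd.2 ⟨num_mem_om _, num_mem_om _⟩⟩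
  · obtain ⟨m, hm, rfl⟩ := mem_num.1 hl'
    exact Nat.find_min hex hm
  · rw [ceq_iff, hz']
    exact hs.encard_eq_coe_toFinset_card

theorem lb_unique {A lt : M → M → Prop} {a x x' : M} (h : Lb om A lt a x) (h' : Lb om A lt a x') : x = x' := by
  obtain ⟨l, u, rfl, hl, hu, hA, hmin, z, hz, hc⟩ := h
  obtain ⟨l', u', rfl, hl', hu', hA', hmin', z', hz', hc'⟩ := h'
  obtain ⟨m, rfl⟩ := mem_om.1 hl
  obtain ⟨m', rfl⟩ := mem_om.1 hl'
  obtain ⟨c, rfl⟩ := mem_om.1 hu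
  obtain ⟨c', rfl⟩ := mem_om.1 hu'
  have hm : m = m' := by
    rcases lt_trichotomy m m' with h1 | h1 | h1
    · exact absurd hA (hmin' _ (num_mem.2 h1))
    · exact h1
    · exact absurd hA' (hmin _ (num_mem.2 h1))
  subst hm
  have e : z = z' := WZ.ext fun y => by rw [hz, hz']
  subst e
  rw [ceq_iff] at hc hc'
  have : (c : ℕ∞) = c' := hc.symm.trans hc'
  rw [Nat.cast_inj.1 this]

theorem lb_inj {A lt : M → M → Prop} (hfin : ∀ n : ℕ, {a | A (num n) a}.Finite)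
    (htr : ∀ a b c, lt a b → lt b c → lt a c) (hirr : ∀ a, ¬ lt a a)
    (htri : ∀ n a b, A n a → A n b → lt a b ∨ a = b ∨ lt b a) {a a' x : M}
    (h : Lb om A lt a x) (h' : Lb om A lt a' x) : a = a' := by
  obtain ⟨l, u, rfl, hl, hu, hA, -, z, hz, hc⟩ := h
  obtain ⟨l', u', e, -, -, hA', -, z', hz', hc'⟩ := h'
  obtain ⟨rfl, rfl⟩ := pr_inj.1 e
  obtain ⟨m, rfl⟩ := mem_om.1 hl
  obtain ⟨c, rfl⟩ := mem_om.1 hu
  rw [ceq_iff] at hc hc'
  have key : ∀ b b' y y' : M, A (num m) b → A (num m) b' →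
      (∀ w, w ∈ y ↔ A (num m) w ∧ lt w b) → (∀ w, w ∈ y' ↔ A (num m) w ∧ lt w b') →
      {w | w ∈ y}.encard = c → {w | w ∈ y'}.encard = c → ¬ lt b b' := by
    intro b b' y y' hb _ hy hy' hyc hyc' hlt
    have hsub : {w | w ∈ y} ⊆ {w | w ∈ y'} := fun w hw =>
      (hy' w).2 ⟨((hy w).1 hw).1, htr _ _ _ ((hy w).1 hw).2 hlt⟩
    have hf : {w | w ∈ y'}.Finite := (hfin m).subset fun w hw => ((hy' w).1 hw).1
    have he : {w | w ∈ y} = {w | w ∈ y'} :=
      (hf.subset hsub).eq_of_subset_of_encard_le hsub (by rw [hyc, hyc'])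
    have : b ∈ {w | w ∈ y} := by
      rw [he]
      exact (hy' b).2 ⟨hb, hlt⟩
    exact hirr b ((hy b).1 this).2
  rcases htri (num m) a a' hA hA' with h1 | h1 | h1
  · exact absurd h1 (key a a' z z' hA hA' hz hz' hc hc')
  · exact h1
  · exact absurd h1 (key a' a z' z hA' hA hz' hz hc' hc)

theorem Lb.mem {A lt : M → M → Prop} {a x : M} (h : Lb om A lt a x) : x ∈ pd (om : M) om ∧ ∃ n : ℕ, A (num n) a := by
  obtain ⟨l, u, rfl, hl, hu, hA, -⟩ := h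
  refine ⟨pr_mem_pd.2 ⟨hl, hu⟩, ?_⟩
  obtain ⟨m, rfl⟩ := mem_om.1 hl
  exact ⟨m, hA⟩

/-- definability, with a parameter i of the family -/
theorem Df.lb {A : M → M → M → Prop} {lt : M → M → Prop} (hA : Df (fun v => A (v 0) (v 1) (v 2)))
    (hlt : Df (fun v => lt (v 0) (v 1))) {s t r : (ℕ → M) → M} (hs : Tm s) (ht : Tm t) (hr : Tm r) :
    Df (fun v => Lb om (A (s v)) lt (t v) (r v)) := by
  refine Df.sub3 (R := fun i a x => Lb om (A i) lt a x) ?_ hs ht hr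
  unfold Lb
  refine Df.ex (Df.ex (Df.and (Df.eq (Tm.var 4) (Tm.pr (Tm.var 1) (Tm.var 0)))
    (Df.and (Df.mem (Tm.var 1) (Tm.const om)) (Df.and (Df.mem (Tm.var 0) (Tm.const om))
    (Df.and (Df.sub3 hA (Tm.var 2) (Tm.var 1) (Tm.var 3)) (Df.and
      (Df.all (Df.imp (Df.mem (Tm.var 0) (Tm.var 2)) (Df.not (Df.sub3 hA (Tm.var 3) (Tm.var 0) (Tm.var 4)))))
      (Df.ex (Df.and (Df.all (Df.iff (Df.mem (Tm.var 0) (Tm.var 1))
        (Df.and (Df.sub3 hA (Tm.var 4) (Tm.var 3) (Tm.var 0)) (Df.sub2 hlt (Tm.var 0) (Tm.var 5)))))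
        (Df.ceq (Tm.var 0) (Tm.var 1))))))))))

end Pool.Agent.CVH
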