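import Mathlib

/-! # The involution given by two labellings -/

namespace Pool.Agent.CVH

universe u

/-- two partial injections with the same range which agree where both are defined give an
involution -/
theorem exists_involution {X Y : Type*} (A B : X → Y → Prop)
    (hA : ∀ s y y', A s y → A s y' → y = y') (hB : ∀ s y y', B s y → B s y' → y = y')
    (hA' : ∀ s s' y, A s y → A s' y → s = s') (hB' : ∀ s s' y, B s y → B s' y → s = s')
    (hr : ∀ y, (∃ s, A s y) ↔ ∃ s, B s y) (hg : ∀ s y y', A s y → B s y' → y = y') :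
    ∃ π : X → X, (∀ s, π (π s) = s) ∧ (∀ s b y, A s y → B b y → π s = b) ∧
      (∀ s b y, B s y → A b y → π s = b) ∧ ∀ s, (¬ ∃ y, A s y) → (¬ ∃ y, B s y) → π s = s := by
  classical
  have key : ∀ s, ∃ t, (∀ b y, A s y → B b y → t = b) ∧ (∀ b y, B s y → A b y → t = b) ∧
      ((¬ ∃ y, A s y) → (¬ ∃ y, B s y) → t = s) ∧
      ((∃ y, A s y ∧ B t y) ∨ (∃ y, B s y ∧ A t y) ∨ ((¬ ∃ y, A s y) ∧ (¬ ∃ y, B s y) ∧ t = s)) := by
    intro s
    by_cases h : ∃ y, A s y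
    · obtain ⟨y, hy⟩ := h
      obtain ⟨t, ht⟩ := (hr y).1 ⟨s, hy⟩
      refine ⟨t, fun b y' h1 h2 => ?_, fun b y' h1 h2 => ?_, fun h1 => absurd ⟨y, hy⟩ h1,
        Or.inl ⟨y, hy, ht⟩⟩
      · obtain rfl := hA s y y' hy h1
        exact hB' t b y ht h2
      · obtain rfl := hg s y y' hy h1
        have e1 := hB' t s y ht h1
        have e2 := hA' b s y h2 hy
        rw [e1, e2]
    · by_cases h' : ∃ y, B s y
      · obtain ⟨y, hy⟩ := h'
        obtain ⟨t, ht⟩ := (hr y).2 ⟨s, hy⟩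
        refine ⟨t, fun b y' h1 _ => absurd ⟨y', h1⟩ h, fun b y' h1 h2 => ?_,
          fun _ h2 => absurd ⟨y, hy⟩ h2, Or.inr (Or.inl ⟨y, hy, ht⟩)⟩
        obtain rfl := hB s y y' hy h1
        exact hA' t b y ht h2
      · exact ⟨s, fun b y' h1 _ => absurd ⟨y', h1⟩ h, fun b y' h1 _ => absurd ⟨y', h1⟩ h',
          fun _ _ => rfl, Or.inr (Or.inr ⟨h, h', rfl⟩)⟩
  choose π h1 h2 h3 h4 using key
  refine ⟨π, fun s => ?_, h1, h2, h3⟩
  rcases h4 s with ⟨y, ha, hb⟩ | ⟨y, hb, ha⟩ | ⟨ha, hb, hc⟩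
  · exact h2 (π s) s y hb ha
  · exact h1 (π s) s y ha hb
  · rw [hc, hc]

end Pool.Agent.CVH
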