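import Pool.Agent.CVH.ChainA
import Pool.Agent.CVH.ER
import Pool.Agent.CVH.Lab
import Pool.Agent.CVH.Swap

/-! # Cohen extensions have no long chains: types of the functions of the chain -/

namespace Pool.Agent.CVH

open ZFM (Fm Sat push Dfn DT IsZF IsPair IsSub Rel IsFun)

universe u

attribute [local irreducible] Tm

variable {V : Type u} [WZ V]

/-! ### The order of the coordinates -/

/-- the lexicographic order of `κ × ω` -/
def LX (κ a b : V) : Prop := a ∈ pd κ om ∧ b ∈ pd κ om ∧ ∃ x y x' y', a = pr x y ∧ b = pr x' y' ∧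
  (x ∈ x' ∨ (x = x' ∧ y ∈ y'))

theorem Df.lx (κ : V) : Df (fun v => LX κ (v 0) (v 1)) := by
  unfold LX
  apply_rules (maxDepth := 1000) using is_poly

theorem LX.trans {κ a b c : V} (hκ : IsOrd κ) (h : LX κ a b) (h' : LX κ b c) : LX κ a c := by
  obtain ⟨h1, -, x, y, x', y', rfl, rfl, h3⟩ := h
  obtain ⟨-, h2, u, w, u', w', e, rfl, h4⟩ := h'
  obtain ⟨rfl, rfl⟩ := pr_inj.1 e
  obtain ⟨h5, h6⟩ := pr_mem_pd.1 h2
  refine ⟨h1, h2, x, y, u', w', rfl, rfl, ?_⟩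
  rcases h3 with h3 | ⟨rfl, h3⟩
  · rcases h4 with h4 | ⟨rfl, h4⟩
    · exact Or.inl ((hκ.mem h5).tr h4 h3)
    · exact Or.inl h3
  · rcases h4 with h4 | ⟨rfl, h4⟩
    · exact Or.inl h4
    · exact Or.inr ⟨rfl, (isOrd_om.mem h6).tr h4 h3⟩

theorem LX.irrefl {κ a : V} : ¬ LX κ a a := by
  rintro ⟨-, -, x, y, x', y', rfl, e, h⟩
  obtain ⟨rfl, rfl⟩ := pr_inj.1 e
  rcases h with h | ⟨-, h⟩ <;> exact mem_irrefl _ h

theorem LX.tri {κ a b : V} (hκ : IsOrd κ) (ha : a ∈ pd κ om) (hb : b ∈ pd κ om) :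
    LX κ a b ∨ a = b ∨ LX κ b a := by
  obtain ⟨x, hx, y, hy, rfl⟩ := mem_pd.1 ha
  obtain ⟨x', hx', y', hy', rfl⟩ := mem_pd.1 hb
  rcases (hκ.mem hx).tri (hκ.mem hx') with h | rfl | h
  · exact Or.inl ⟨ha, hb, x, y, x', y', rfl, rfl, Or.inl h⟩
  · rcases (isOrd_om.mem hy).tri (isOrd_om.mem hy') with h | rfl | h
    · exact Or.inl ⟨ha, hb, x, y, x, y', rfl, rfl, Or.inr ⟨rfl, h⟩⟩
    · exact Or.inr (Or.inl rfl)
    · exact Or.inr (Or.inr ⟨hb, ha, x, y', x, y, rfl, rfl, Or.inr ⟨rfl, h⟩⟩)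
  · exact Or.inr (Or.inr ⟨hb, ha, x', y', x, y, rfl, rfl, Or.inl h⟩)

theorem fin_dom {σ : V} (h : Fi σ) : {a : V | ∃ c, pr a c ∈ σ}.Finite := by
  refine (Set.Finite.biUnion (s := {y | y ∈ σ}) (t := fun y => {a | ∃ c, y = pr a c}) h
    fun y _ => ?_).subset ?_
  · refine Set.Subsingleton.finite ?_
    rintro a ⟨c, hc⟩ b ⟨d, hd⟩
    exact (pr_inj.1 (hc.symm.trans hd)).1
  · rintro a ⟨c, hc⟩
    exact Set.mem_biUnion hc ⟨c, rfl⟩

/-! ### Types -/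

variable (V) in
/-- the set of types -/
noncomputable def TX : V :=
  pd (num 3) (ud (ud (pd om om) (pd (pd om om) (Fn (pd om om) (num 2)))) (pd (pd om om) (pd om om)))

section

variable (κ p Cl : V) (R : V → V → V → V → Prop)

/-- `σ` is a minimal condition for the value `m` of the `i`-th function at `n` -/
def MM (i n m σ : V) : Prop := Mn (pd κ om) (num 2) (R i n m) σ

/-- the finite set of coordinates of level `l` -/
def AA (i l a : V) : Prop := (∃ c, pr a c ∈ p) ∨ ∃ n m σ, n ∈ sc l ∧ m ∈ sc l ∧ MM κ R i n m σ ∧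
  Lv Cl l σ ∧ ∃ c, pr a c ∈ σ

/-- `y` is the label of `a` -/
def LB (i a y : V) : Prop := Lb om (AA κ p Cl R i) (LX κ) a y

/-- `s` is the image of `σ` under the labelling -/
def SG (i σ s : V) : Prop := ∀ z, z ∈ s ↔ ∃ a c y, pr a c ∈ σ ∧ LB κ p Cl R i a y ∧ z = pr y c

/-- the type -/
def RT (i j x : V) : Prop := (∃ y, x = pr (num 0) y ∧ ∃ a, LB κ p Cl R i a y) ∨
  (∃ n m s, x = pr (num 1) (pr (pr n m) s) ∧ ∃ σ, MM κ R i n m σ ∧ SG κ p Cl R i σ s) ∨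
  ∃ y y', x = pr (num 2) (pr y y') ∧ ∃ a, LB κ p Cl R i a y ∧ LB κ p Cl R j a y'

end

variable {κ p Cl : V} {R : V → V → V → V → Prop}

theorem Df.mm (hR : Df (fun v => R (v 0) (v 1) (v 2) (v 3))) {s t u w : (ℕ → V) → V} (hs : Tm s)
    (ht : Tm t) (hu : Tm u) (hw : Tm w) : Df (fun v => MM κ R (s v) (t v) (u v) (w v)) := by
  refine Df.sub4 (R := fun s t u w => MM κ R s t u w) ?_ hs ht hu hw
  unfold MM Mn
  refine Df.and ?_ (Df.and hR (Df.all (Df.imp ?_ (Df.imp ?_ ?_))))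
  pick_goal 3
  · exact Df.sub4 hR (Tm.var 1) (Tm.var 2) (Tm.var 3) (Tm.var 0)
  all_goals apply_rules (maxDepth := 1000) using is_poly

theorem Df.aa (hR : Df (fun v => R (v 0) (v 1) (v 2) (v 3))) :
    Df (fun v => AA κ p Cl R (v 0) (v 1) (v 2)) := by
  unfold AA
  refine Df.or ?_ (Df.ex (Df.ex (Df.ex (Df.and ?_ (Df.and ?_ (Df.and ?_ ?_))))))
  pick_goal 4
  · exact Df.mm hR (Tm.var 3) (Tm.var 2) (Tm.var 1) (Tm.var 0)
  all_goals apply_rules (maxDepth := 1000) using is_poly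

theorem Df.lb' (hR : Df (fun v => R (v 0) (v 1) (v 2) (v 3))) {s t u : (ℕ → V) → V} (hs : Tm s)
    (ht : Tm t) (hu : Tm u) : Df (fun v => LB κ p Cl R (s v) (t v) (u v)) :=
  Df.lb (Df.aa hR) (Df.lx κ) hs ht hu

theorem Df.sg (hR : Df (fun v => R (v 0) (v 1) (v 2) (v 3))) {s t u : (ℕ → V) → V} (hs : Tm s)
    (ht : Tm t) (hu : Tm u) : Df (fun v => SG κ p Cl R (s v) (t v) (u v)) := by
  refine Df.sub3 (R := fun s t u => SG κ p Cl R s t u) ?_ hs ht hu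
  unfold SG
  refine Df.all (Df.iff ?_ (Df.ex (Df.ex (Df.ex (Df.and ?_ (Df.and ?_ ?_))))))
  pick_goal 3
  · exact Df.lb' hR (Tm.var 4) (Tm.var 2) (Tm.var 0)
  all_goals apply_rules (maxDepth := 1000) using is_poly

theorem Df.rt (hR : Df (fun v => R (v 0) (v 1) (v 2) (v 3))) :
    Df (fun v => RT κ p Cl R (v 0) (v 1) (v 2)) := by
  unfold RT
  refine Df.or (Df.ex (Df.and ?_ (Df.ex ?_))) (Df.or
    (Df.ex (Df.ex (Df.ex (Df.and ?_ (Df.ex (Df.and ?_ ?_))))))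
    (Df.ex (Df.ex (Df.and ?_ (Df.ex (Df.and ?_ ?_))))))
  · apply_rules (maxDepth := 1000) using is_poly
  · exact Df.lb' hR (Tm.var 2) (Tm.var 0) (Tm.var 1)
  · apply_rules (maxDepth := 1000) using is_poly
  · exact Df.mm hR (Tm.var 4) (Tm.var 3) (Tm.var 2) (Tm.var 0)
  · exact Df.sg hR (Tm.var 4) (Tm.var 0) (Tm.var 1)
  · apply_rules (maxDepth := 1000) using is_poly
  · exact Df.lb' hR (Tm.var 3) (Tm.var 0) (Tm.var 2)
  · exact Df.lb' hR (Tm.var 4) (Tm.var 0) (Tm.var 1)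

theorem rt0 {i j y : V} : RT κ p Cl R i j (pr (num 0) y) ↔ ∃ a, LB κ p Cl R i a y := by
  unfold RT
  constructor
  · rintro (⟨y', e, h⟩ | ⟨n, m, s, e, h⟩ | ⟨y1, y2, e, h⟩)
    · obtain ⟨-, rfl⟩ := pr_inj.1 e
      exact h
    · exact absurd (num_inj.1 (pr_inj.1 e).1) (by norm_num)
    · exact absurd (num_inj.1 (pr_inj.1 e).1) (by norm_num)
  · exact fun h => Or.inl ⟨y, rfl, h⟩

theorem rt1 {i j n m s : V} : RT κ p Cl R i j (pr (num 1) (pr (pr n m) s)) ↔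
    ∃ σ, MM κ R i n m σ ∧ SG κ p Cl R i σ s := by
  unfold RT
  constructor
  · rintro (⟨y', e, h⟩ | ⟨n', m', s', e, h⟩ | ⟨y1, y2, e, h⟩)
    · exact absurd (num_inj.1 (pr_inj.1 e).1) (by norm_num)
    · obtain ⟨-, e1⟩ := pr_inj.1 e
      obtain ⟨e2, rfl⟩ := pr_inj.1 e1
      obtain ⟨rfl, rfl⟩ := pr_inj.1 e2
      exact h
    · exact absurd (num_inj.1 (pr_inj.1 e).1) (by norm_num)
  · exact fun h => Or.inr (Or.inl ⟨n, m, s, rfl, h⟩)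

theorem rt2 {i j y y' : V} : RT κ p Cl R i j (pr (num 2) (pr y y')) ↔
    ∃ a, LB κ p Cl R i a y ∧ LB κ p Cl R j a y' := by
  unfold RT
  constructor
  · rintro (⟨y1, e, h⟩ | ⟨n', m', s', e, h⟩ | ⟨y1, y2, e, h⟩)
    · exact absurd (num_inj.1 (pr_inj.1 e).1) (by norm_num)
    · exact absurd (num_inj.1 (pr_inj.1 e).1) (by norm_num)
    · obtain ⟨-, e⟩ := pr_inj.1 e
      obtain ⟨rfl, rfl⟩ := pr_inj.1 e
      exact h
  · exact fun h => Or.inr (Or.inr ⟨y, y', rfl, h⟩)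

theorem fin_aa (hF : Filt (num 2) Cl) (hp : IsFn (pd κ om) (num 2) p)
    (hR : ∀ i n m, Reg (pd κ om) (num 2) (R i n m)) (i : V) (k : ℕ) :
    {a | AA κ p Cl R i (num k) a}.Finite := by
  have h1 : (⋃ n ∈ Finset.range (k+1), ⋃ m ∈ Finset.range (k+1),
      ⋃ σ ∈ {σ | Mn (pd κ om) (num 2) (R i (num n) (num m)) σ ∧ Lv Cl (num k) σ},
      {a : V | ∃ c, pr a c ∈ σ}).Finite := by
    refine Set.Finite.biUnion (Finset.finite_toSet _) fun n _ =>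
      Set.Finite.biUnion (Finset.finite_toSet _) fun m _ =>
      Set.Finite.biUnion (fin_min hF (hR i _ _) k) fun σ hσ => fin_dom hσ.1.1.1
  refine ((fin_dom hp.1).union h1).subset ?_
  rintro a (h | ⟨n, m, σ, hn, hm, h2, h3, h4⟩)
  · exact Or.inl h
  · refine Or.inr ?_
    obtain ⟨n', hn', rfl⟩ := (mem_num (n := k+1)).1 hn
    obtain ⟨m', hm', rfl⟩ := (mem_num (n := k+1)).1 hm
    simp only [Set.mem_iUnion]
    exact ⟨n', Finset.mem_range.2 hn', m', Finset.mem_range.2 hm', σ, ⟨h2, h3⟩, h4⟩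

theorem isFn_dom {S C σ a c : V} (h : IsFn S C σ) (ha : pr a c ∈ σ) : a ∈ S ∧ c ∈ C := by
  obtain ⟨s, hs, c', hc, e⟩ := h.2.1 _ ha
  obtain ⟨rfl, rfl⟩ := pr_inj.1 e
  exact ⟨hs, hc⟩

theorem AA.mem (hp : IsFn (pd κ om) (num 2) p) {i l a : V} (h : AA κ p Cl R i l a) :
    a ∈ pd κ om := by
  rcases h with ⟨c, h⟩ | ⟨n, m, σ, -, -, h2, -, c, h4⟩
  · exact (isFn_dom hp h).1
  · exact (isFn_dom h2.1 h4).1

theorem LB.inj (hκ : IsOrd κ) (hF : Filt (num 2) Cl) (hp : IsFn (pd κ om) (num 2) p)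
    (hR : ∀ i n m, Reg (pd κ om) (num 2) (R i n m)) {i a a' y : V} (h : LB κ p Cl R i a y)
    (h' : LB κ p Cl R i a' y) : a = a' :=
  lb_inj (lt := LX κ) (fin_aa hF hp hR i) (fun _ _ _ => LX.trans hκ) (fun _ => LX.irrefl)
    (fun _ _ _ h1 h2 => LX.tri hκ (h1.mem hp) (h2.mem hp)) h h'

theorem LB.dom (hp : IsFn (pd κ om) (num 2) p) {i a y : V} (h : LB κ p Cl R i a y) :
    a ∈ pd κ om := by
  obtain ⟨-, n, hn⟩ := Lb.mem h
  exact hn.mem hp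

theorem exists_lb_p (hF : Filt (num 2) Cl) (hp : IsFn (pd κ om) (num 2) p)
    (hR : ∀ i n m, Reg (pd κ om) (num 2) (R i n m)) {i a c : V} (h : pr a c ∈ p) :
    ∃ y, LB κ p Cl R i a y := by
  obtain ⟨y, hy, -⟩ := exists_lb (lt := LX κ) (fin_aa hF hp hR i) (n := 0) (Or.inl ⟨c, h⟩)
  exact ⟨y, hy⟩

theorem exists_lb_mm (hF : Filt (num 2) Cl) (hp : IsFn (pd κ om) (num 2) p)
    (hR : ∀ i n m, Reg (pd κ om) (num 2) (R i n m)) {i σ a c : V} {n m : ℕ}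
    (h : MM κ R i (num n) (num m) σ) (ha : pr a c ∈ σ) : ∃ y, LB κ p Cl R i a y := by
  obtain ⟨l, hl⟩ := exists_lv hF h.1
  obtain ⟨y, hy, -⟩ := exists_lb (lt := LX κ) (fin_aa hF hp hR i) (a := a) (n := max l (max n m))
    (Or.inr ⟨num n, num m, σ, (mem_num (n := max l (max n m) + 1)).2 ⟨n, by omega, rfl⟩,
      (mem_num (n := max l (max n m) + 1)).2 ⟨m, by omega, rfl⟩, h, hl _ (by omega), c, ha⟩)
  exact ⟨y, hy⟩

/-- the image of a minimal condition under the labelling -/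
theorem exists_sg (hκ : IsOrd κ) (hF : Filt (num 2) Cl) (hp : IsFn (pd κ om) (num 2) p)
    (hR : ∀ i n m, Reg (pd κ om) (num 2) (R i n m)) {i σ : V} (h : IsFn (pd κ om) (num 2) σ) :
    ∃ s, SG κ p Cl R i σ s ∧ s ∈ Fn (pd om om) (num 2 : V) := by
  have hfin : {z : V | ∃ a c y, pr a c ∈ σ ∧ LB κ p Cl R i a y ∧ z = pr y c}.Finite := by
    refine (Set.Finite.biUnion (s := {x | x ∈ σ})
      (t := fun x => {z | ∃ a c y, x = pr a c ∧ LB κ p Cl R i a y ∧ z = pr y c}) h.1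
      fun x _ => ?_).subset ?_
    · refine Set.Subsingleton.finite ?_
      rintro z ⟨a, c, y, e, h1, rfl⟩ z' ⟨a', c', y', e', h1', rfl⟩
      obtain ⟨rfl, rfl⟩ := pr_inj.1 (e.symm.trans e')
      rw [lb_unique h1 h1']
    · rintro z ⟨a, c, y, h1, h2, h3⟩
      exact Set.mem_biUnion h1 ⟨a, c, y, rfl, h2, h3⟩
  obtain ⟨s, hs⟩ := exists_fin hfin
  refine ⟨s, fun z => hs z, mem_Fn.2 ⟨?_, ?_, ?_⟩⟩
  · refine Set.Finite.subset hfin fun z hz => (hs z).1 hz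
  · intro x hx
    obtain ⟨a, c, y, h1, h2, h3⟩ := (hs x).1 hx
    exact ⟨y, (Lb.mem h2).1, c, (isFn_dom h h1).2, h3⟩
  · intro y c c' h1 h2
    obtain ⟨a, d, z, h3, h4, h5⟩ := (hs _).1 h1
    obtain ⟨a', d', z', h3', h4', h5'⟩ := (hs _).1 h2
    obtain ⟨rfl, rfl⟩ := pr_inj.1 h5
    obtain ⟨rfl, rfl⟩ := pr_inj.1 h5'
    obtain rfl := LB.inj hκ hF hp hR h4 h4'
    exact h.2.2 _ _ _ h3 h3'

theorem mem_TX0 {y : V} (hy : y ∈ pd (om : V) om) : pr (num 0) y ∈ TX V := by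
  unfold TX
  exact pr_mem_pd.2 ⟨num_mem.2 (by norm_num), mem_ud.2 (Or.inl (mem_ud.2 (Or.inl hy)))⟩

theorem mem_TX1 {n m : ℕ} {s : V} (hs : s ∈ Fn (pd om om) (num 2 : V)) :
    pr (num 1) (pr (pr (num n) (num m)) s) ∈ TX V := by
  unfold TX
  exact pr_mem_pd.2 ⟨num_mem.2 (by norm_num), mem_ud.2 (Or.inl (mem_ud.2 (Or.inr
    (pr_mem_pd.2 ⟨pr_mem_pd.2 ⟨num_mem_om n, num_mem_om m⟩, hs⟩))))⟩

theorem mem_TX2 {y y' : V} (hy : y ∈ pd (om : V) om) (hy' : y' ∈ pd (om : V) om) :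
    pr (num 2) (pr y y') ∈ TX V := by
  unfold TX
  exact pr_mem_pd.2 ⟨num_mem.2 (by norm_num), mem_ud.2 (Or.inr (pr_mem_pd.2 ⟨hy, hy'⟩))⟩

/-- equal types give an involution -/
theorem swap_of_types (hκ : IsOrd κ) (hF : Filt (num 2) Cl) (hp : IsFn (pd κ om) (num 2) p)
    (hR : ∀ i n m, Reg (pd κ om) (num 2) (R i n m)) {i j k : V}
    (h1 : ∀ x ∈ TX V, (RT κ p Cl R i j x ↔ RT κ p Cl R j k x))
    (h2 : ∀ x ∈ TX V, (RT κ p Cl R i j x ↔ RT κ p Cl R i k x)) :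
    ∃ π : V → V, (∀ s ∈ pd κ om, π s ∈ pd κ om ∧ π (π s) = s) ∧
      (∀ s c, pr s c ∈ p → π s = s) ∧
      (∀ n m : ℕ, ∀ σ τ, MM κ R i (num n) (num m) σ →
        (∀ x, x ∈ τ ↔ ∃ s c, pr s c ∈ σ ∧ x = pr (π s) c) → R j (num n) (num m) τ) ∧
      ∀ n m : ℕ, ∀ σ τ, MM κ R j (num n) (num m) σ →
        (∀ x, x ∈ τ ↔ ∃ s c, pr s c ∈ σ ∧ x = pr (π s) c) → R i (num n) (num m) τ := by
  have hrange : ∀ y, (∃ a, LB κ p Cl R i a y) ↔ ∃ a, LB κ p Cl R j a y := by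
    intro y
    constructor
    · rintro ⟨a, ha⟩
      exact rt0.1 ((h1 _ (mem_TX0 (Lb.mem ha).1)).1 (rt0.2 ⟨a, ha⟩))
    · rintro ⟨a, ha⟩
      exact rt0.1 ((h1 _ (mem_TX0 (Lb.mem ha).1)).2 (rt0.2 ⟨a, ha⟩))
  have hagree : ∀ a y y', LB κ p Cl R i a y → LB κ p Cl R j a y' → y = y' := by
    intro a y y' h3 h4
    obtain ⟨b, h5, h6⟩ := rt2.1 ((h2 _ (mem_TX2 (Lb.mem h3).1 (Lb.mem h4).1)).1 (rt2.2 ⟨a, h3, h4⟩))
    obtain rfl := LB.inj hκ hF hp hR h5 h3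
    obtain ⟨c, h7, h8⟩ := rt2.1 ((h1 _ (mem_TX2 (Lb.mem h4).1 (Lb.mem h4).1)).2 (rt2.2 ⟨b, h4, h6⟩))
    obtain rfl := LB.inj hκ hF hp hR h8 h4
    exact lb_unique h3 h7
  obtain ⟨π, hπ, hij, hji, hfix⟩ := exists_involution (LB κ p Cl R i) (LB κ p Cl R j)
    (fun _ _ _ => lb_unique) (fun _ _ _ => lb_unique) (fun _ _ _ => LB.inj hκ hF hp hR)
    (fun _ _ _ => LB.inj hκ hF hp hR) hrange hagree
  refine ⟨π, fun s hs => ⟨?_, hπ s⟩, fun s c hs => ?_, ?_, ?_⟩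
  · by_cases h3 : ∃ y, LB κ p Cl R i s y
    · obtain ⟨y, hy⟩ := h3
      obtain ⟨b, hb⟩ := (hrange y).1 ⟨s, hy⟩
      rw [hij s b y hy hb]
      exact hb.dom hp
    · by_cases h4 : ∃ y, LB κ p Cl R j s y
      · obtain ⟨y, hy⟩ := h4
        obtain ⟨b, hb⟩ := (hrange y).2 ⟨s, hy⟩
        rw [hji s b y hy hb]
        exact hb.dom hp
      · rw [hfix s h3 h4]
        exact hs
  · obtain ⟨y, hy⟩ := exists_lb_p (i := i) (R := R) hF hp hR hs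
    obtain ⟨y', hy'⟩ := exists_lb_p (i := j) (R := R) hF hp hR hs
    obtain rfl := hagree s y y' hy hy'
    exact hij s s y hy hy'
  · intro n m σ τ h3 h4
    obtain ⟨s, hs, hsF⟩ := exists_sg (i := i) hκ hF hp hR h3.1
    obtain ⟨σ', h5, h6⟩ := rt1.1 ((h1 _ (mem_TX1 hsF)).1 (rt1.2 ⟨σ, h3, hs⟩))
    have : τ = σ' := by
      refine WZ.ext fun x => ?_
      rw [h4]
      constructor
      · rintro ⟨a, c, ha, rfl⟩
        obtain ⟨y, hy⟩ := exists_lb_mm (p := p) hF hp hR h3 ha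
        obtain ⟨a', c', y', ha', hy', e⟩ := (h6 _).1 ((hs _).2 ⟨a, c, y, ha, hy, rfl⟩)
        obtain ⟨rfl, rfl⟩ := pr_inj.1 e
        rw [hij a a' y hy hy']
        exact ha'
      · intro hx
        obtain ⟨b, hb, c, hc, rfl⟩ := h5.1.2.1 x hx
        obtain ⟨y, hy⟩ := exists_lb_mm (p := p) hF hp hR h5 hx
        obtain ⟨a', c', y', ha', hy', e⟩ := (hs _).1 ((h6 _).2 ⟨b, c, y, hx, hy, rfl⟩)
        obtain ⟨rfl, rfl⟩ := pr_inj.1 e
        exact ⟨a', c, ha', by rw [hij a' b y hy' hy]⟩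
    rw [this]
    exact h5.2.1
  · intro n m σ τ h3 h4
    obtain ⟨s, hs, hsF⟩ := exists_sg (i := j) hκ hF hp hR h3.1
    obtain ⟨σ', h5, h6⟩ := rt1.1 ((h1 _ (mem_TX1 hsF)).2 (rt1.2 ⟨σ, h3, hs⟩))
    have : τ = σ' := by
      refine WZ.ext fun x => ?_
      rw [h4]
      constructor
      · rintro ⟨a, c, ha, rfl⟩
        obtain ⟨y, hy⟩ := exists_lb_mm (p := p) hF hp hR h3 ha
        obtain ⟨a', c', y', ha', hy', e⟩ := (h6 _).1 ((hs _).2 ⟨a, c, y, ha, hy, rfl⟩)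
        obtain ⟨rfl, rfl⟩ := pr_inj.1 e
        rw [hji a a' y hy hy']
        exact ha'
      · intro hx
        obtain ⟨b, hb, c, hc, rfl⟩ := h5.1.2.1 x hx
        obtain ⟨y, hy⟩ := exists_lb_mm (p := p) hF hp hR h5 hx
        obtain ⟨a', c', y', ha', hy', e⟩ := (hs _).1 ((h6 _).2 ⟨b, c, y, hx, hy, rfl⟩)
        obtain ⟨rfl, rfl⟩ := pr_inj.1 e
        exact ⟨a', c, ha', by rw [hji a' b y hy' hy]⟩
    rw [this]
    exact h5.2.1

end Pool.Agent.CVH
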