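import Pool.Agent.CVH.Ord

/-! # Hartogs numbers, order types, large fibres -/

namespace Pool.Agent.CVH

open ZFM (Fm Sat push Dfn DT IsZF IsPair IsSub Rel IsFun)

universe u

variable {M : Type u} [WZ M]

theorem Pigeon.mono {h h' X : M} (hp : Pigeon h X) (hs : IsSub h h') : Pigeon h' X := by
  intro r
  obtain ⟨α, hα, β, hβ, hne, hx⟩ := hp r
  exact ⟨α, hs α hα, β, hs β hβ, hne, hx⟩

theorem Pigeon.df {h X : M} (hp : Pigeon h X) {R : M → M → Prop} (hR : Df (fun v => R (v 0) (v 1))) :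
    ∃ α ∈ h, ∃ β ∈ h, α ≠ β ∧ ∀ x ∈ X, (R α x ↔ R β x) := by
  obtain ⟨r, -, hr⟩ := exists_rel2 h X hR
  obtain ⟨α, hα, β, hβ, hne, hx⟩ := hp r
  refine ⟨α, hα, β, hβ, hne, fun x hxX => ?_⟩
  have := hx x hxX
  rw [hr, hr] at this
  constructor
  · intro h1
    exact (this.1 ⟨hα, hxX, h1⟩).2.2
  · intro h1
    exact (this.2 ⟨hβ, hxX, h1⟩).2.2

/-! ### Sections -/

theorem exists_sct (r X α : M) : ∃ s : M, ∀ x, x ∈ s ↔ x ∈ X ∧ pr α x ∈ r :=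
  exists_sep X (P := fun x => pr α x ∈ r) (Df.mem (Tm.pr (Tm.const α) (Tm.var 0)) (Tm.const r))

/-- the section `{x ∈ X | (α, x) ∈ r}` -/
noncomputable def sct (r X α : M) : M := (exists_sct r X α).choose

theorem mem_sct {r X α x : M} : x ∈ sct r X α ↔ x ∈ X ∧ pr α x ∈ r := (exists_sct r X α).choose_spec x

theorem eq_sct {r X α s : M} : s = sct r X α ↔ ∀ x, x ∈ s ↔ x ∈ X ∧ pr α x ∈ r :=
  ⟨fun h => h ▸ fun _ => mem_sct, fun h => WZ.ext fun z => by rw [h, mem_sct]⟩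

@[is_poly] theorem Tm.sct {r X α : (ℕ → M) → M} (hr : Tm r) (hX : Tm X) (hα : Tm α) :
    Tm (fun v => CVH.sct (r v) (X v) (α v)) := by
  have h : Df (fun v : ℕ → M => v 0 = CVH.sct (v 1) (v 2) (v 3)) := by
    refine Df.congr (P := fun v => ∀ x, x ∈ v 0 ↔ x ∈ v 2 ∧ CVH.pr (v 3) x ∈ v 1) ?_
      fun v => eq_sct.symm
    exact Df.all (Df.iff (Df.mem (Tm.var 0) (Tm.var 1)) (Df.and (Df.mem (Tm.var 0) (Tm.var 3))
      (Df.mem (Tm.pr (Tm.var 4) (Tm.var 0)) (Tm.var 2))))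
  exact Df.sub4 (R := fun a b c d => a = CVH.sct b c d) h (Tm.var 0) hr.tail hX.tail hα.tail

theorem sct_eq_iff {r X α β : M} :
    sct r X α = sct r X β ↔ ∀ x ∈ X, (pr α x ∈ r ↔ pr β x ∈ r) := by
  rw [eq_sct]
  simp only [mem_sct]
  constructor
  · intro h x hx
    have := h x
    constructor
    · intro h1; exact (this.1 ⟨hx, h1⟩).2
    · intro h1; exact (this.2 ⟨hx, h1⟩).2
  · intro h x
    constructor
    · rintro ⟨h1, h2⟩; exact ⟨h1, (h x h1).1 h2⟩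
    · rintro ⟨h1, h2⟩; exact ⟨h1, (h x h1).2 h2⟩

attribute [local irreducible] Tm


/-! ### Hartogs -/

/-- `w` codes the order of the ordinal `a`, injected into the power set of `X` -/
def HT (X w a : M) : Prop := IsOrd a ∧ ∃ r, (∀ α ∈ a, ∀ β ∈ a, sct r X α = sct r X β → α = β) ∧
  ∀ z, z ∈ w ↔ ∃ α, α ∈ a ∧ ∃ β, β ∈ a ∧ (α ∈ β ∨ α = β) ∧ z = pr (sct r X α) (sct r X β)

theorem HT.aux {X w a b r s : M} (ha : IsOrd a) (hb : IsOrd b)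
    (hr : ∀ α ∈ a, ∀ β ∈ a, sct r X α = sct r X β → α = β)
    (hs : ∀ α ∈ b, ∀ β ∈ b, sct s X α = sct s X β → α = β)
    (hr2 : ∀ z, z ∈ w ↔ ∃ α, α ∈ a ∧ ∃ β, β ∈ a ∧ (α ∈ β ∨ α = β) ∧ z = pr (sct r X α) (sct r X β))
    (hs2 : ∀ z, z ∈ w ↔ ∃ α, α ∈ b ∧ ∃ β, β ∈ b ∧ (α ∈ β ∨ α = β) ∧ z = pr (sct s X α) (sct s X β))
    (α : M) : α ∈ a → α ∈ b ∧ sct r X α = sct s X α := by
  induction α using (WZ.wf (M := M)).induction with
  | _ α ih =>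
    intro hα
    have ih' : ∀ β ∈ α, β ∈ b ∧ sct r X β = sct s X β := fun β hβ => ih β hβ (ha.tr hα hβ)
    have h1 : pr (sct r X α) (sct r X α) ∈ w := (hr2 _).2 ⟨α, hα, α, hα, Or.inr rfl, rfl⟩
    obtain ⟨γ, hγ, δ, hδ, -, e⟩ := (hs2 _).1 h1
    obtain ⟨e1, e2⟩ := pr_inj.1 e
    have hγo := hb.mem hγ
    have hαo := ha.mem hα
    rcases hαo.tri hγo with h | h | h
    · -- α ∈ γ
      exfalso
      have hαb : α ∈ b := hb.tr hγ h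
      have h2 : pr (sct s X α) (sct s X γ) ∈ w := (hs2 _).2 ⟨α, hαb, γ, hγ, Or.inl h, rfl⟩
      obtain ⟨μ, hμ, ν, hν, hle, e'⟩ := (hr2 _).1 h2
      obtain ⟨e3, e4⟩ := pr_inj.1 e'
      have hνα : ν = α := hr ν hν α hα (by rw [← e4, e1])
      subst hνα
      rcases hle with hlt | heq
      · have := (ih' μ hlt)
        rw [this.2] at e3
        have hμα := hs _ hαb _ this.1 e3
        rw [← hμα] at hlt
        exact mem_irrefl _ hlt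
      · subst heq
        have := hs _ hαb _ hγ (by rw [e3, e1])
        rw [← this] at h
        exact mem_irrefl _ h
    · subst h
      exact ⟨hγ, e1⟩
    · exfalso
      have := ih' γ h
      have h3 : sct r X γ = sct r X α := by rw [this.2, e1]
      have := hr _ (ha.tr hα h) _ hα h3
      rw [this] at h
      exact mem_irrefl _ h

theorem HT.uniq {X w a b : M} (h1 : HT X w a) (h2 : HT X w b) : a = b := by
  obtain ⟨ha, r, hr, hr2⟩ := h1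
  obtain ⟨hb, s, hs, hs2⟩ := h2
  refine WZ.ext fun z => ⟨fun hz => ?_, fun hz => ?_⟩
  · exact (HT.aux ha hb hr hs hr2 hs2 z hz).1
  · exact (HT.aux hb ha hs hr hs2 hr2 z hz).1

theorem df_HT (X : M) : Df (fun v => HT X (v 0) (v 1)) := by
  unfold HT
  apply_rules (maxDepth := 1000) using is_poly

/-- Hartogs: some ordinal does not inject into the power set of X -/
theorem exists_pigeon (X : M) : ∃ h : M, IsOrd h ∧ Pigeon h X := by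
  by_contra hcon
  push Not at hcon
  have key : ∀ a : M, IsOrd a → ∃ w ∈ pw (pd (pw X) (pw X)), HT X w a := by
    intro a ha
    have h1 := hcon a ha
    unfold Pigeon at h1
    push Not at h1
    obtain ⟨r, hr⟩ := h1
    have hinj : ∀ α ∈ a, ∀ β ∈ a, sct r X α = sct r X β → α = β := by
      intro α hα β hβ h
      by_contra hne
      obtain ⟨x, hx, hx2⟩ := hr α hα β hβ hne
      have := (sct_eq_iff.1 h) x hx
      rcases hx2 with h3 | h3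
      · exact h3.2 (this.1 h3.1)
      · exact h3.1 (this.2 h3.2)
    obtain ⟨w, hw⟩ := exists_sep (pd (pw X) (pw X)) (P := fun z => ∃ α, α ∈ a ∧ ∃ β, β ∈ a ∧
      (α ∈ β ∨ α = β) ∧ z = pr (sct r X α) (sct r X β)) (by apply_rules (maxDepth := 1000) using is_poly)
    refine ⟨w, ?_, ha, r, hinj, fun z => ?_⟩
    · rw [mem_pw]
      intro z hz
      exact ((hw z).1 hz).1
    · rw [hw]
      constructor
      · exact fun h => h.2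
      · rintro ⟨α, hα, β, hβ, hle, rfl⟩
        refine ⟨?_, α, hα, β, hβ, hle, rfl⟩
        rw [pr_mem_pd, mem_pw, mem_pw]
        exact ⟨fun z hz => (mem_sct.1 hz).1, fun z hz => (mem_sct.1 hz).1⟩
  obtain ⟨D, hD⟩ := exists_sep (pw (pd (pw X) (pw X))) (P := fun w => ∃ a, HT X w a) (by
    refine Df.ex ?_
    exact Df.sub2 (R := fun w a => HT X w a) (df_HT X) (Tm.var 1) (Tm.var 0))
  obtain ⟨y, hy⟩ := exists_repl D (R := fun w a => HT X w a) (df_HT X) (fun w hw => by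
    obtain ⟨-, a, ha⟩ := (hD w).1 hw
    exact ⟨a, ha, fun b hb => HT.uniq hb ha⟩)
  obtain ⟨a, ha, hay⟩ := no_all_ord y
  obtain ⟨w, hw, hT⟩ := key a ha
  exact hay ((hy a).2 ⟨w, (hD w).2 ⟨hw, a, hT⟩, hT⟩)

/-! ### Collapse of sets of ordinals -/

/-- `f` is the collapse of `Y ∩ y` and `ρ` its range -/
def Cl (Y y ρ f : M) : Prop :=
  (∀ t ∈ Y, t ∈ y → ∃! i, pr t i ∈ f) ∧
  (∀ t ∈ Y, t ∈ y → ∀ i, pr t i ∈ f → ∀ u, u ∈ i ↔ ∃ t', t' ∈ Y ∧ t' ∈ t ∧ pr t' u ∈ f) ∧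
  ∀ u, u ∈ ρ ↔ ∃ t, t ∈ Y ∧ t ∈ y ∧ pr t u ∈ f

@[is_poly] theorem Df.cl {Y y ρ f : (ℕ → M) → M} (hY : Tm Y) (hy : Tm y) (hρ : Tm ρ) (hf : Tm f) :
    Df (fun v => Cl (Y v) (y v) (ρ v) (f v)) := by
  refine Df.sub4 (R := fun Y y ρ f => Cl Y y ρ f) ?_ hY hy hρ hf
  unfold Cl
  apply_rules (maxDepth := 1000) using is_poly

theorem Cl.agree {Y y ρ f y' ρ' f' : M} (hy : IsOrd y) (hy' : IsOrd y') (h : Cl Y y ρ f)
    (h' : Cl Y y' ρ' f') (t : M) :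
    t ∈ Y → t ∈ y → t ∈ y' → ∀ i, (pr t i ∈ f ↔ pr t i ∈ f') := by
  induction t using (WZ.wf (M := M)).induction with
  | _ t ih =>
    intro hY h1 h2
    obtain ⟨i, hi, hiu⟩ := h.1 t hY h1
    obtain ⟨j, hj, hju⟩ := h'.1 t hY h2
    have hij : i = j := by
      refine WZ.ext fun u => ?_
      rw [h.2.1 t hY h1 i hi, h'.2.1 t hY h2 j hj]
      constructor
      · rintro ⟨t', a, b, c⟩
        exact ⟨t', a, b, (ih t' b a (hy.tr h1 b) (hy'.tr h2 b) u).1 c⟩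
      · rintro ⟨t', a, b, c⟩
        exact ⟨t', a, b, (ih t' b a (hy.tr h1 b) (hy'.tr h2 b) u).2 c⟩
    subst hij
    intro k
    constructor
    · intro hk
      rw [hiu k hk]
      exact hj
    · intro hk
      rw [hju k hk]
      exact hi

theorem Cl.uniq {Y y ρ f ρ' f' : M} (hy : IsOrd y) (h : Cl Y y ρ f) (h' : Cl Y y ρ' f') : ρ = ρ' := by
  refine WZ.ext fun u => ?_
  rw [h.2.2, h'.2.2]
  constructor
  · rintro ⟨t, a, b, c⟩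
    exact ⟨t, a, b, (h.agree hy hy h' t a b b u).1 c⟩
  · rintro ⟨t, a, b, c⟩
    exact ⟨t, a, b, (h.agree hy hy h' t a b b u).2 c⟩

theorem Cl.restrict {Y y ρ f t u : M} (hy : IsOrd y) (h : Cl Y y ρ f) (htY : t ∈ Y) (hty : t ∈ y)
    (hu : pr t u ∈ f) : Cl Y t u f :=
  ⟨fun s hs hst => h.1 s hs (hy.tr hty hst), fun s hs hst => h.2.1 s hs (hy.tr hty hst),
    h.2.1 t htY hty u hu⟩

theorem Cl.mem_iff {Y y ρ f t u : M} (hy : IsOrd y) (h : Cl Y y ρ f) (htY : t ∈ Y) (hty : t ∈ y) :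
    pr t u ∈ f ↔ ∃ f', Cl Y t u f' := by
  constructor
  · intro hu
    exact ⟨f, h.restrict hy htY hty hu⟩
  · rintro ⟨f', hf'⟩
    obtain ⟨v, hv, -⟩ := h.1 t htY hty
    have := (h.restrict hy htY hty hv).uniq (hy.mem hty) hf'
    rw [← this]
    exact hv

theorem exists_cl (Y : M) {y : M} (hy : IsOrd y) : ∃ ρ f : M, Cl Y y ρ f := by
  refine ord_induction (P := fun y => ∃ ρ f : M, Cl Y y ρ f) ?_ hy
  intro y hy ih
  obtain ⟨A, hA⟩ := exists_sep Y (P := fun t => t ∈ y) (by apply_rules (maxDepth := 1000) using is_poly)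
  obtain ⟨F, hF⟩ := exists_repl A (R := fun t p => ∃ ρ, (∃ f, Cl Y t ρ f) ∧ p = pr t ρ) (by apply_rules (maxDepth := 1000) using is_poly)
    (fun t ht => by
      obtain ⟨-, hty⟩ := (hA t).1 ht
      obtain ⟨ρ, f, hf⟩ := ih t hty
      refine ⟨pr t ρ, ⟨ρ, ⟨f, hf⟩, rfl⟩, ?_⟩
      rintro p ⟨σ, ⟨g, hg⟩, rfl⟩
      rw [hg.uniq (hy.mem hty) hf])
  obtain ⟨ρ, hρ⟩ := exists_repl A (R := fun t i => ∃ f, Cl Y t i f) (by apply_rules (maxDepth := 1000) using is_poly)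
    (fun t ht => by
      obtain ⟨-, hty⟩ := (hA t).1 ht
      obtain ⟨ρ, f, hf⟩ := ih t hty
      exact ⟨ρ, ⟨f, hf⟩, fun σ ⟨g, hg⟩ => hg.uniq (hy.mem hty) hf⟩)
  have hF' : ∀ t i, pr t i ∈ F ↔ t ∈ Y ∧ t ∈ y ∧ ∃ f, Cl Y t i f := by
    intro t i
    rw [hF]
    constructor
    · rintro ⟨s, hs, σ, hσ, e⟩
      obtain ⟨rfl, rfl⟩ := pr_inj.1 e
      exact ⟨((hA t).1 hs).1, ((hA t).1 hs).2, hσ⟩
    · rintro ⟨h1, h2, h3⟩
      exact ⟨t, (hA t).2 ⟨h1, h2⟩, i, h3, rfl⟩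
  refine ⟨ρ, F, ?_, ?_, ?_⟩
  · intro t ht hty
    obtain ⟨σ, f, hf⟩ := ih t hty
    refine ⟨σ, (hF' t σ).2 ⟨ht, hty, f, hf⟩, ?_⟩
    intro τ hτ
    obtain ⟨-, -, g, hg⟩ := (hF' t τ).1 hτ
    exact hg.uniq (hy.mem hty) hf
  · intro t ht hty i hi u
    obtain ⟨-, -, f, hf⟩ := (hF' t i).1 hi
    rw [hf.2.2]
    constructor
    · rintro ⟨s, a, b, c⟩
      refine ⟨s, a, b, (hF' s u).2 ⟨a, hy.tr hty b, ?_⟩⟩
      exact (hf.mem_iff (hy.mem hty) a b).1 c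
    · rintro ⟨s, a, b, c⟩
      refine ⟨s, a, b, ?_⟩
      exact (hf.mem_iff (hy.mem hty) a b).2 ((hF' s u).1 c).2.2
  · intro u
    rw [hρ]
    constructor
    · rintro ⟨t, ht, h⟩
      obtain ⟨h1, h2⟩ := (hA t).1 ht
      exact ⟨t, h1, h2, (hF' t u).2 ⟨h1, h2, h⟩⟩
    · rintro ⟨t, h1, h2, h3⟩
      exact ⟨t, (hA t).2 ⟨h1, h2⟩, ((hF' t u).1 h3).2.2⟩

theorem Cl.isOrd_val {Y y ρ f : M} (hy : IsOrd y) (h : Cl Y y ρ f) (t : M) :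
    t ∈ Y → t ∈ y → ∀ i, pr t i ∈ f → IsOrd i := by
  induction t using (WZ.wf (M := M)).induction with
  | _ t ih =>
    intro hY h1 i hi
    refine isOrd_of ?_ ?_
    · intro u hu
      obtain ⟨s, a, b, c⟩ := (h.2.1 t hY h1 i hi u).1 hu
      exact ih s b a (hy.tr h1 b) u c
    · intro u hu w hw
      obtain ⟨s, a, b, c⟩ := (h.2.1 t hY h1 i hi u).1 hu
      obtain ⟨s', a', b', c'⟩ := (h.2.1 s a (hy.tr h1 b) u c w).1 hw
      exact (h.2.1 t hY h1 i hi w).2 ⟨s', a', (hy.mem h1).tr b b', c'⟩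

theorem Cl.isOrd {Y y ρ f : M} (hy : IsOrd y) (h : Cl Y y ρ f) : IsOrd ρ := by
  refine isOrd_of ?_ ?_
  · intro u hu
    obtain ⟨s, a, b, c⟩ := (h.2.2 u).1 hu
    exact h.isOrd_val hy s a b u c
  · intro u hu w hw
    obtain ⟨s, a, b, c⟩ := (h.2.2 u).1 hu
    obtain ⟨s', a', b', c'⟩ := (h.2.1 s a b u c w).1 hw
    exact (h.2.2 w).2 ⟨s', a', hy.tr b b', c'⟩

theorem Cl.lt_iff {Y y ρ f t t' i i' : M} (hy : IsOrd y) (h : Cl Y y ρ f) (ht : t ∈ Y) (hty : t ∈ y)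
    (ht' : t' ∈ Y) (hty' : t' ∈ y) (hi : pr t i ∈ f) (hi' : pr t' i' ∈ f) : t ∈ t' ↔ i ∈ i' := by
  constructor
  · intro hlt
    exact (h.2.1 t' ht' hty' i' hi' i).2 ⟨t, ht, hlt, hi⟩
  · intro hlt
    rcases (hy.mem hty).tri (hy.mem hty') with h1 | h1 | h1
    · exact h1
    · exfalso
      subst h1
      obtain ⟨k, -, hk⟩ := h.1 t ht hty
      rw [hk i hi, hk i' hi'] at hlt
      exact mem_irrefl _ hlt
    · exfalso
      have h2 : i' ∈ i := (h.2.1 t ht hty i hi i').2 ⟨t', ht', h1, hi'⟩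
      have h3 := h.isOrd_val hy t ht hty i hi
      exact mem_irrefl _ (h3.tr h2 hlt)

theorem exists_bd {Y : M} (hY : ∀ y ∈ Y, IsOrd y) : ∃ b : M, IsOrd b ∧ ∀ y ∈ Y, y ∈ b := by
  have h1 : IsOrd (un Y) := by
    refine isOrd_of ?_ ?_
    · intro z hz
      obtain ⟨y, hy, hz⟩ := mem_un.1 hz
      exact (hY y hy).mem hz
    · intro z hz w hw
      obtain ⟨y, hy, hz⟩ := mem_un.1 hz
      exact mem_un.2 ⟨y, hy, (hY y hy).tr hz hw⟩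
  refine ⟨sc (un Y), h1.sc, fun y hy => ?_⟩
  rw [mem_sc]
  have h2 : IsSub y (un Y) := fun z hz => mem_un.2 ⟨y, hy, hz⟩
  rcases ((hY y hy).sub_iff h1).1 h2 with h | h
  · exact Or.inr h
  · exact Or.inl h

/-- every set of ordinals is isomorphic to an ordinal -/
theorem exists_collapse {Y : M} (hY : ∀ y ∈ Y, IsOrd y) : ∃ ρ f : M, IsOrd ρ ∧
    (∀ y ∈ Y, ∃! i, pr y i ∈ f) ∧ (∀ y ∈ Y, ∀ i, pr y i ∈ f → i ∈ ρ) ∧ (∀ i ∈ ρ, ∃ y ∈ Y, pr y i ∈ f) ∧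
    ∀ y ∈ Y, ∀ y' ∈ Y, ∀ i i', pr y i ∈ f → pr y' i' ∈ f → (y ∈ y' ↔ i ∈ i') := by
  obtain ⟨b, hb, hYb⟩ := exists_bd hY
  obtain ⟨ρ, f, h⟩ := exists_cl Y hb
  refine ⟨ρ, f, h.isOrd hb, fun y hy => h.1 y hy (hYb y hy), ?_, ?_, ?_⟩
  · intro y hy i hi
    exact (h.2.2 i).2 ⟨y, hy, hYb y hy, hi⟩
  · intro i hi
    obtain ⟨t, a, -, c⟩ := (h.2.2 i).1 hi
    exact ⟨t, a, c⟩
  · intro y hy y' hy' i i' hi hi'
    exact h.lt_iff hb hy (hYb y hy) hy' (hYb y' hy') hi hi'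

/-- all relations on a large ordinal have large fibres -/
theorem exists_fibre {h X : M} (hh : IsOrd h) : ∃ θ : M, IsOrd θ ∧ ∀ r : M, ∃ g, Inc g h θ ∧
    ∀ i ∈ h, ∀ i' ∈ h, ∀ a a', pr i a ∈ g → pr i' a' ∈ g → ∀ x ∈ X, (pr a x ∈ r ↔ pr a' x ∈ r) := by
  obtain ⟨θ, hθ, hpig⟩ := exists_pigeon (un (up (pd X (up (num 0) (num 0))) (pd h (up (num 1) (num 1)))))
  refine ⟨θ, hθ, fun r => ?_⟩
  by_contra hcon
  have hfib : ∀ a : M, ∃ Y : M, ∀ t, t ∈ Y ↔ t ∈ θ ∧ ∀ x ∈ X, (pr a x ∈ r ↔ pr t x ∈ r) := fun a =>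
    exists_sep θ (P := fun t => ∀ x ∈ X, (pr a x ∈ r ↔ pr t x ∈ r)) (by apply_rules (maxDepth := 1000) using is_poly)
  have hpos : ∀ a ∈ θ, ∀ Y : M, (∀ t, t ∈ Y ↔ t ∈ θ ∧ ∀ x ∈ X, (pr a x ∈ r ↔ pr t x ∈ r)) →
      ∀ ξ f, Cl Y a ξ f → ξ ∈ h := by
    intro a ha Y hY ξ f hf
    have hao := hθ.mem ha
    have hξ := hf.isOrd hao
    rcases hξ.tri hh with h1 | h1 | h1
    · exact h1
    all_goals
      exfalso
      have hsub : ∀ i ∈ h, i ∈ ξ := by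
        intro i hi
        first
          | (rw [h1]; exact hi)
          | exact hξ.tr h1 hi
      apply hcon
      obtain ⟨g, -, hg⟩ := exists_rel2 h Y (R := fun i t => t ∈ a ∧ pr t i ∈ f) (by apply_rules (maxDepth := 1000) using is_poly)
      have hex : ∀ i ∈ h, ∃ t, t ∈ Y ∧ t ∈ a ∧ pr t i ∈ f := fun i hi => (hf.2.2 i).1 (hsub i hi)
      have hYo : ∀ t ∈ Y, IsOrd t := fun t ht => hθ.mem ((hY t).1 ht).1
      refine ⟨g, ⟨?_, ?_, ?_⟩, ?_⟩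
      · intro i hi
        obtain ⟨t, a1, b1, c1⟩ := hex i hi
        refine ⟨t, (hg i t).2 ⟨hi, a1, b1, c1⟩, ?_⟩
        intro t' ht'
        obtain ⟨-, a2, b2, c2⟩ := (hg i t').1 ht'
        rcases (hYo t' a2).tri (hYo t a1) with h3 | h3 | h3
        · exact absurd ((hf.lt_iff hao a2 b2 a1 b1 c2 c1).1 h3) (mem_irrefl _)
        · exact h3
        · exact absurd ((hf.lt_iff hao a1 b1 a2 b2 c1 c2).1 h3) (mem_irrefl _)
      · intro i hi t ht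
        exact ((hY t).1 ((hg i t).1 ht).2.1).1
      · intro i hi i' hi' hlt t t' ht ht'
        obtain ⟨-, a1, b1, c1⟩ := (hg i t).1 ht
        obtain ⟨-, a2, b2, c2⟩ := (hg i' t').1 ht'
        exact (hf.lt_iff hao a1 b1 a2 b2 c1 c2).2 hlt
      · intro i hi i' hi' t t' ht ht' x hx
        have h4 := ((hY t).1 ((hg i t).1 ht).2.1).2 x hx
        have h5 := ((hY t').1 ((hg i' t').1 ht').2.1).2 x hx
        exact h4.symm.trans h5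
  obtain ⟨α, hα, β, hβ, hne, hx⟩ := hpig.df (R := fun a z => (∃ x, x ∈ X ∧ z = pr x (num 0) ∧ pr a x ∈ r) ∨
    ∃ ξ, z = pr ξ (num 1) ∧ ∃ Y, (∀ t, t ∈ Y ↔ t ∈ θ ∧ ∀ x ∈ X, (pr a x ∈ r ↔ pr t x ∈ r)) ∧
      ∃ f, Cl Y a ξ f) (by apply_rules (maxDepth := 1000) using is_poly)
  have h01 : (num 0 : M) ≠ num 1 := by simp
  have hsec : ∀ x ∈ X, (pr α x ∈ r ↔ pr β x ∈ r) := by
    intro x hxX
    have h1 := hx (pr x (num 0)) (by
      rw [mem_un]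
      exact ⟨_, mem_up.2 (Or.inl rfl), pr_mem_pd.2 ⟨hxX, mem_up.2 (Or.inl rfl)⟩⟩)
    have h2 : ∀ a : M, ((∃ x', x' ∈ X ∧ pr x (num 0) = pr x' (num 0) ∧ pr a x' ∈ r) ∨
        ∃ ξ, pr x (num 0) = pr ξ (num 1) ∧ ∃ Y, (∀ t, t ∈ Y ↔ t ∈ θ ∧
          ∀ x ∈ X, (pr a x ∈ r ↔ pr t x ∈ r)) ∧ ∃ f, Cl Y a ξ f) ↔ pr a x ∈ r := by
      intro a
      constructor
      · rintro (⟨x', -, e, h⟩ | ⟨ξ, e, -⟩)
        · obtain ⟨rfl, -⟩ := pr_inj.1 e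
          exact h
        · exact absurd (pr_inj.1 e).2 h01
      · intro h
        exact Or.inl ⟨x, hxX, rfl, h⟩
    rwa [h2, h2] at h1
  obtain ⟨Y, hY⟩ := hfib α
  have hYβ : ∀ t, t ∈ Y ↔ t ∈ θ ∧ ∀ x ∈ X, (pr β x ∈ r ↔ pr t x ∈ r) := by
    intro t
    rw [hY]
    constructor
    · rintro ⟨h1, h2⟩
      exact ⟨h1, fun x hx => (hsec x hx).symm.trans (h2 x hx)⟩
    · rintro ⟨h1, h2⟩
      exact ⟨h1, fun x hx => (hsec x hx).trans (h2 x hx)⟩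
  obtain ⟨ξ, f, hf⟩ := exists_cl Y (hθ.mem hα)
  have hξ := hpos α hα Y hY ξ f hf
  have h1 := (hx (pr ξ (num 1)) (by
      rw [mem_un]
      exact ⟨_, mem_up.2 (Or.inr rfl), pr_mem_pd.2 ⟨hξ, mem_up.2 (Or.inl rfl)⟩⟩)).1
    (Or.inr ⟨ξ, rfl, Y, hY, f, hf⟩)
  have hβf : ∃ f', Cl Y β ξ f' := by
    rcases h1 with ⟨x', -, e, -⟩ | ⟨ξ', e, Y', hY', f', hf'⟩
    · exact absurd (pr_inj.1 e).2.symm h01
    · obtain ⟨rfl, -⟩ := pr_inj.1 e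
      have : Y' = Y := WZ.ext fun t => by rw [hY', hYβ]
      exact ⟨f', this ▸ hf'⟩
  obtain ⟨f', hf'⟩ := hβf
  have hαY : α ∈ Y := (hY α).2 ⟨hα, fun _ _ => Iff.rfl⟩
  have hβY : β ∈ Y := (hYβ β).2 ⟨hβ, fun _ _ => Iff.rfl⟩
  rcases (hθ.mem hα).tri (hθ.mem hβ) with h3 | h3 | h3
  · obtain ⟨u, hu, -⟩ := hf'.1 α hαY h3
    have h4 := (hf'.restrict (hθ.mem hβ) hαY h3 hu).uniq (hθ.mem hα) hf
    have h5 : u ∈ ξ := (hf'.2.2 u).2 ⟨α, hαY, h3, hu⟩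
    rw [h4] at h5
    exact mem_irrefl _ h5
  · exact hne h3
  · obtain ⟨u, hu, -⟩ := hf.1 β hβY h3
    have h4 := (hf.restrict (hθ.mem hα) hβY h3 hu).uniq (hθ.mem hβ) hf'
    have h5 : u ∈ ξ := (hf.2.2 u).2 ⟨β, hβY, h3, hu⟩
    rw [h4] at h5
    exact mem_irrefl _ h5

end Pool.Agent.CVH
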