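import Pool.Agent.CVH.Cov
import Pool.Agent.CVH.Pig

/-! # Cohen extensions: injective sequences, failure of the covering property -/

namespace Pool.Agent.CVH

open ZFM (Fm Sat push Dfn DT IsZF IsPair IsSub Rel IsFun)

universe u

variable {V W : Type u} [WZ V] [WZ W] {j : V → W} {P L κ : V} {G : W}

/-- the constant filtration of `2` -/
theorem exists_filt_two : ∃ Cl : V, Filt (num 2) Cl := by
  refine ⟨pd om (num 2), ⟨fun n => ?_, fun n c h => (pr_mem_pd.1 h).2,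
    fun c hc => ⟨0, fun m _ => pr_mem_pd.2 ⟨num_mem_om m, hc⟩⟩⟩⟩
  exact Set.Finite.subset (fi_num 2) fun c hc => (pr_mem_pd.1 hc).2

theorem cohen_mem (hC : IsCohen κ P L) {p : V} : p ∈ P ↔ IsFn (pd κ om) (num 2) p := by
  rw [hC.1]
  constructor
  · rintro ⟨w, hw, h⟩
    rwa [isOm_iff.1 hw] at h
  · exact fun h => ⟨om, isOm_iff.2 rfl, h⟩

theorem cohen_po (hC : IsCohen κ P L) : IsPo P L where
  dom p q h := ⟨((hC.2 p q).1 h).1, ((hC.2 p q).1 h).2.1⟩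
  refl p hp := (hC.2 p p).2 ⟨hp, hp, fun _ hz => hz⟩
  trans p q r h1 h2 := (hC.2 p r).2 ⟨((hC.2 p q).1 h1).1, ((hC.2 q r).1 h2).2.1,
    fun z hz => ((hC.2 p q).1 h1).2.2 z (((hC.2 q r).1 h2).2.2 z hz)⟩

theorem cohen_idx (hC : IsCohen κ P L) : Idx P L (pd κ om) (num 2) (fun p => p) where
  fn p hp := (cohen_mem hC).1 hp
  df := Df.eq (Tm.var 0) (Tm.var 1)
  cmp p hp q hq h := by
    have h1 := ((cohen_mem hC).1 hp).ud ((cohen_mem hC).1 hq) h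
    have h2 := (cohen_mem hC).2 h1
    exact ⟨_, h2, (hC.2 _ _).2 ⟨h2, hp, fun z hz => mem_ud.2 (Or.inl hz)⟩,
      (hC.2 _ _).2 ⟨h2, hq, fun z hz => mem_ud.2 (Or.inr hz)⟩⟩

/-- a finite function misses almost all pairs `(i, n)` -/
theorem exists_free {S C p : V} (hp : IsFn S C p) (i : V) :
    {n : ℕ | ∃ c, pr (pr i (num n)) c ∈ p}.Finite := by
  have h1 : {y | y ∈ p}.Finite := hp.1
  have : Nonempty V := ⟨i⟩
  choose! c hc using fun (n : ℕ) (h : ∃ c, pr (pr i (num n)) c ∈ p) => h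
  refine Set.Finite.of_finite_image (f := fun n : ℕ => pr (pr i (num n)) (c n)) (h1.subset ?_) ?_
  · rintro _ ⟨n, hn, rfl⟩
    exact hc n hn
  · intro n _ m _ e
    have e1 := (pr_inj.1 (pr_inj.1 e).1).2
    exact num_inj.1 e1

/-- `κ` Cohen reals -/
theorem cohen_ii (hG : GenExt j P L G) (hC : IsCohen κ P L) {θ : V} (hθ : IsSub θ κ) : II (j θ) := by
  have ho := cohen_po hC
  obtain ⟨x, hx⟩ := exists_sep (pd (pd (j θ) om) (num 2)) (P := fun z => ∃ p, p ∈ G ∧ z ∈ p) (by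
    exact Df.ex (Df.and (Df.mem (Tm.var 0) (Tm.const G)) (Df.mem (Tm.var 1) (Tm.var 0))))
  have key : ∀ i ∈ θ, ∀ n m : ℕ, pr (pr (j i) (num n)) (num m) ∈ x ↔
      ∃ p, j p ∈ G ∧ pr (pr i (num n)) (num m) ∈ p := by
    intro i hi n m
    have e : pr (pr (j i) (num n)) (num m) = j (pr (pr i (num n)) (num m)) := by
      rw [hG.j_pr, hG.j_pr, hG.j_num, hG.j_num]
    rw [hx, e]
    constructor
    · rintro ⟨-, p, hp, hz⟩
      obtain ⟨p', -, rfl⟩ := hG.sub p hp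
      exact ⟨p', hp, (hG.mem _ _).1 hz⟩
    · rintro ⟨p, hp, hz⟩
      refine ⟨?_, j p, hp, (hG.mem _ _).2 hz⟩
      rw [← e, pr_mem_pd, pr_mem_pd]
      refine ⟨⟨(hG.mem _ _).2 hi, num_mem_om n⟩, ?_⟩
      have h1 := (cohen_mem hC).1 (hG.mem_P hp)
      obtain ⟨s, -, c, hc, e2⟩ := h1.2.1 _ hz
      obtain ⟨rfl, rfl⟩ := pr_inj.1 e2
      obtain ⟨m', hm', e3⟩ := mem_num.1 hc
      rw [num_inj] at e3
      subst e3
      exact num_mem.2 hm'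
  -- uniqueness of the values
  have uniq : ∀ i : V, ∀ n : ℕ, ∀ c c' p p', j p ∈ G → j p' ∈ G → pr (pr i (num n)) c ∈ p →
      pr (pr i (num n)) c' ∈ p' → c = c' := by
    intro i n c c' p p' hp hp' h h'
    obtain ⟨r, hr, h1, h2⟩ := hG.dir p p' hp hp'
    have h3 := ((hC.2 _ _).1 h1).2.2 _ h
    have h4 := ((hC.2 _ _).1 h2).2.2 _ h'
    exact ((cohen_mem hC).1 (hG.mem_P hr)).2.2 _ _ _ h3 h4
  obtain ⟨p₀, hp₀⟩ := hG.nonempty
  refine ⟨x, ?_, ?_⟩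
  · intro i' hi' n
    obtain ⟨i, hi, rfl⟩ := hG.of_mem hi'
    obtain ⟨q, hq, -, c, hc⟩ := hG.meet ho (D := fun p => ∃ c, pr (pr i (num n)) c ∈ p) (by
      exact Df.ex (Df.mem (Tm.pr (Tm.const _) (Tm.var 0)) (Tm.var 1))) hp₀ (by
      intro q hq
      have hqP : q ∈ P := ((hC.2 _ _).1 hq).1
      have hqF := (cohen_mem hC).1 hqP
      by_cases h : ∃ c, pr (pr i (num n)) c ∈ q
      · exact ⟨q, ho.refl q hqP, h⟩
      · push Not at h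
        have h1 : IsFn (pd κ om) (num 2) (ins (pr (pr i (num n)) (num 0)) q) :=
          hqF.ins (pr_mem_pd.2 ⟨hθ i hi, num_mem_om n⟩) (num_mem.2 (by norm_num)) h
        refine ⟨_, (hC.2 _ _).2 ⟨(cohen_mem hC).2 h1, hqP, fun z hz => mem_ins.2 (Or.inr hz)⟩,
          num 0, mem_ins.2 (Or.inl rfl)⟩)
    have h1 := (cohen_mem hC).1 (hG.mem_P hq)
    obtain ⟨s, -, c', hc', e2⟩ := h1.2.1 _ hc
    obtain ⟨rfl, rfl⟩ := pr_inj.1 e2
    obtain ⟨m, hm, rfl⟩ := mem_num.1 hc'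
    refine ⟨m, (key i hi n m).2 ⟨q, hq, hc⟩, fun m' hm' => ?_⟩
    obtain ⟨p, hp, h3⟩ := (key i hi n m').1 hm'
    exact num_inj.1 (uniq i n _ _ p q hp hq h3 hc)
  · intro i₁ hi₁ i₂ hi₂ hne
    obtain ⟨i, hi, rfl⟩ := hG.of_mem hi₁
    obtain ⟨i', hi', rfl⟩ := hG.of_mem hi₂
    have hne' : i ≠ i' := fun e => hne (by rw [e])
    obtain ⟨q, hq, -, n, hn, h1, h2⟩ := hG.meet ho (D := fun p => ∃ n, n ∈ (om : V) ∧
        pr (pr i n) (num 1) ∈ p ∧ pr (pr i' n) (num 0) ∈ p) (by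
      exact Df.ex (Df.and (Df.mem (Tm.var 0) (Tm.const _))
        (Df.and (Df.mem (Tm.pr (Tm.pr (Tm.const _) (Tm.var 0)) (Tm.const _)) (Tm.var 1))
          (Df.mem (Tm.pr (Tm.pr (Tm.const _) (Tm.var 0)) (Tm.const _)) (Tm.var 1))))) hp₀ (by
      intro q hq
      have hqP : q ∈ P := ((hC.2 _ _).1 hq).1
      have hqF := (cohen_mem hC).1 hqP
      obtain ⟨n, hn⟩ := ((exists_free hqF i).union (exists_free hqF i')).infinite_compl.nonempty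
      simp only [Set.mem_compl_iff, Set.mem_union, Set.mem_ofPred_eq, not_or, not_exists] at hn
      have h1 : IsFn (pd κ om) (num 2) (ins (pr (pr i (num n)) (num 1)) q) :=
        hqF.ins (pr_mem_pd.2 ⟨hθ i hi, num_mem_om n⟩) (num_mem.2 (by norm_num)) hn.1
      have h2 : IsFn (pd κ om) (num 2) (ins (pr (pr i' (num n)) (num 0))
          (ins (pr (pr i (num n)) (num 1)) q)) := by
        refine h1.ins (pr_mem_pd.2 ⟨hθ i' hi', num_mem_om n⟩) (num_mem.2 (by norm_num)) fun c hc => ?_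
        rcases mem_ins.1 hc with h | h
        · exact hne' (pr_inj.1 (pr_inj.1 h).1).1.symm
        · exact hn.2 c h
      exact ⟨_, (hC.2 _ _).2 ⟨(cohen_mem hC).2 h2, hqP,
        fun z hz => mem_ins.2 (Or.inr (mem_ins.2 (Or.inr hz)))⟩,
        num n, num_mem_om n, mem_ins.2 (Or.inr (mem_ins.2 (Or.inl rfl))), mem_ins.2 (Or.inl rfl)⟩)
    obtain ⟨k, rfl⟩ := mem_om.1 hn
    refine ⟨k, 1, (key i hi k 1).2 ⟨q, hq, h1⟩, fun h3 => ?_⟩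
    obtain ⟨p, hp, h4⟩ := (key i' hi' k 1).1 h3
    have := uniq i' k _ _ p q hp hq h4 h2
    rw [num_inj] at this
    omega

/-- the covering property fails -/
theorem cohen_not_jj (hG : GenExt j P L G) (hC : IsCohen κ P L) {h θ : V} (hh : IsOrd h)
    (hf : ∀ r : V, ∃ g, Inc g h θ ∧ ∀ i ∈ h, ∀ i' ∈ h, ∀ a a', pr i a ∈ g → pr i' a' ∈ g →
      ∀ x ∈ pd (pd om om) h, (pr a x ∈ r ↔ pr a' x ∈ r)) : ¬ JJ (j h) (j θ) := by
  rintro ⟨E, hE1, hE2⟩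
  obtain ⟨Cl, hCl⟩ := exists_filt_two (V := V)
  obtain ⟨F, hF1, hF2⟩ := cover_fin hG (cohen_po hC) hCl (cohen_idx hC) (A := pd θ om) (N := h) (b := E) (by
    intro a ha
    obtain ⟨a0, ha0, n', hn', rfl⟩ := mem_pd.1 ha
    obtain ⟨n, rfl⟩ := mem_om.1 hn'
    rw [hG.j_pr, hG.j_num]
    refine Set.Finite.of_finite_image (f := j) ((hE1 (j a0) ((hG.mem _ _).2 ha0) n).subset ?_)
      hG.inj.injOn
    rintro _ ⟨ξ, ⟨hξ, h1⟩, rfl⟩
    exact ⟨(hG.mem _ _).2 hξ, h1⟩)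
  obtain ⟨r, -, hr⟩ := exists_rel2 θ (pd (pd om om) h) (R := fun a x => ∃ n k ξ,
      x = pr (pr n k) ξ ∧ pr (pr (pr a n) k) ξ ∈ F) (by
    refine Df.ex (Df.ex (Df.ex (Df.and ?_ ?_)))
    · exact Df.eq (Tm.var 4) (Tm.pr (Tm.pr (Tm.var 2) (Tm.var 1)) (Tm.var 0))
    · exact Df.mem (Tm.pr (Tm.pr (Tm.pr (Tm.var 3) (Tm.var 2)) (Tm.var 1)) (Tm.var 0)) (Tm.const F))
  obtain ⟨g, hg, hfib⟩ := hf r
  -- all values have the same sections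
  have same : ∀ i ∈ h, ∀ i' ∈ h, ∀ a a', pr i a ∈ g → pr i' a' ∈ g → ∀ n k : ℕ, ∀ ξ ∈ h,
      (pr (pr (pr a (num n)) (num k)) ξ ∈ F → pr (pr (pr a' (num n)) (num k)) ξ ∈ F) := by
    intro i hi i' hi' a a' ha ha' n k ξ hξ h1
    have hx : pr (pr (num n) (num k)) ξ ∈ pd (pd (om : V) om) h :=
      pr_mem_pd.2 ⟨pr_mem_pd.2 ⟨num_mem_om n, num_mem_om k⟩, hξ⟩
    have h2 := (hfib i hi i' hi' a a' ha ha' _ hx).1
      ((hr _ _).2 ⟨hg.2.1 i hi a ha, hx, num n, num k, ξ, rfl, h1⟩)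
    obtain ⟨-, -, n', k', ξ', e, h3⟩ := (hr _ _).1 h2
    obtain ⟨e1, rfl⟩ := pr_inj.1 e
    obtain ⟨rfl, rfl⟩ := pr_inj.1 e1
    exact h3
  obtain ⟨b, -, hb⟩ := exists_rel2 om h (R := fun l ξ => ∃ i a n k, i ∈ h ∧ pr i a ∈ g ∧
      n ∈ sc l ∧ k ∈ sc l ∧ pr (pr (pr a n) k) ξ ∈ F) (by
    refine Df.ex (Df.ex (Df.ex (Df.ex (Df.and ?_ (Df.and ?_ (Df.and ?_ (Df.and ?_ ?_)))))))
    · exact Df.mem (Tm.var 3) (Tm.const h)
    · exact Df.mem (Tm.pr (Tm.var 3) (Tm.var 2)) (Tm.const g)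
    · exact Df.mem (Tm.var 1) (Tm.sc (Tm.var 4))
    · exact Df.mem (Tm.var 0) (Tm.sc (Tm.var 4))
    · exact Df.mem (Tm.pr (Tm.pr (Tm.pr (Tm.var 2) (Tm.var 1)) (Tm.var 0)) (Tm.var 5)) (Tm.const F))
  have hsc : ∀ (l : ℕ) (n : V), n ∈ sc (num l : V) → ∃ m ≤ l, n = num m := by
    intro l n hn
    have h1 : n ∈ (num (l+1) : V) := hn
    obtain ⟨m, hm, rfl⟩ := mem_num.1 h1
    exact ⟨m, by omega, rfl⟩
  have hbfin : ∀ l : ℕ, {ξ : V | ξ ∈ h ∧ pr (num l) ξ ∈ b}.Finite := by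
    intro l
    rcases Set.eq_empty_or_nonempty {ξ : V | ξ ∈ h ∧ pr (num l) ξ ∈ b} with h0 | ⟨ξ₀, hξ₀, h0⟩
    · rw [h0]
      exact Set.finite_empty
    · obtain ⟨-, -, i₀, a₀, -, -, hi₀, hia₀, -⟩ := (hb _ _).1 h0
      have ha₀ : a₀ ∈ θ := hg.2.1 _ hi₀ _ hia₀
      refine Set.Finite.subset (s := ⋃ n ∈ Set.Iic l, ⋃ k ∈ Set.Iic l,
        {ξ : V | ξ ∈ h ∧ pr (pr (pr a₀ (num n)) (num k)) ξ ∈ F}) ?_ ?_
      · refine Set.Finite.biUnion (Set.finite_Iic l) fun n _ => ?_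
        refine Set.Finite.biUnion (Set.finite_Iic l) fun k _ => ?_
        exact hF1 _ (pr_mem_pd.2 ⟨ha₀, num_mem_om n⟩) k
      · rintro ξ ⟨hξ, h1⟩
        obtain ⟨-, -, i, a, n', k', hi, hia, hn', hk', h2⟩ := (hb _ _).1 h1
        obtain ⟨n, hn, rfl⟩ := hsc l n' hn'
        obtain ⟨k, hk, rfl⟩ := hsc l k' hk'
        simp only [Set.mem_iUnion]
        exact ⟨n, hn, k, hk, hξ, same i hi i₀ hi₀ a a₀ hia hia₀ n k ξ hξ h2⟩
  refine hE2 (j b) (fun l => ?_) ⟨j g, hG.j_inc hg, ?_⟩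
  · refine ((hbfin l).image j).subset ?_
    rintro ξ' ⟨hξ', h1⟩
    obtain ⟨ξ, hξ, rfl⟩ := hG.of_mem hξ'
    rw [← hG.j_num, ← hG.j_pr, hG.mem] at h1
    exact ⟨ξ, ⟨hξ, h1⟩, rfl⟩
  · intro i' hi' a' ha' n ξ' hξ' h1
    obtain ⟨i, hi, rfl⟩ := hG.of_mem hi'
    obtain ⟨ξ, hξ, rfl⟩ := hG.of_mem hξ'
    obtain ⟨a, ha, -⟩ := hg.1 i hi
    have e : a' = j a := by
      refine ((hG.j_inc hg).1 (j i) hi').unique ha' ?_
      rw [← hG.j_pr, hG.mem]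
      exact ha
    subst e
    have haθ : a ∈ θ := hg.2.1 i hi a ha
    obtain ⟨k, hk⟩ := hF2 (pr a (num n)) (pr_mem_pd.2 ⟨haθ, num_mem_om n⟩) ξ hξ (by
      rw [hG.j_pr, hG.j_num]
      exact h1)
    refine ⟨max n k, ?_⟩
    rw [← hG.j_num, ← hG.j_pr, hG.mem]
    refine (hb _ _).2 ⟨num_mem_om _, hξ, i, a, num n, num k, hi, ha, ?_, ?_, hk⟩
    · exact (num_mem (n := max n k + 1)).2 (by omega)
    · exact (num_mem (n := max n k + 1)).2 (by omega)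

end Pool.Agent.CVH
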