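import Pool.Agent.CVH.Fin
import Pool.Agent.CHE.Reg

/-! # Finite partial functions, regular families and their minimal elements -/

namespace Pool.Agent.CVH

open ZFM (Fm Sat push Dfn DT IsZF IsPair IsSub Rel IsFun)

universe u

variable {M : Type u} [WZ M]

@[is_poly] theorem Df.isFn {s t r : (ℕ → M) → M} (hs : Tm s) (ht : Tm t) (hr : Tm r) :
    Df (fun v => IsFn (s v) (t v) (r v)) := by
  refine Df.sub3 (R := fun x y z => IsFn x y z) ?_ hs ht hr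
  unfold IsFn
  repeat' first
    | exact Tm.var _
    | apply Df.fi
    | apply Df.and
    | apply Df.imp
    | (apply Df.ex; beta_reduce)
    | (apply Df.all; beta_reduce)
    | apply Tm.pr
    | apply Df.mem
    | apply Df.eq

@[is_poly] theorem Df.cmp {s t : (ℕ → M) → M} (hs : Tm s) (ht : Tm t) :
    Df (fun v => Cmp (s v) (t v)) := by
  refine Df.sub2 (R := fun x y => Cmp x y) ?_ hs ht
  unfold Cmp
  repeat' first
    | exact Tm.var _
    | apply Df.imp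
    | (apply Df.all; beta_reduce)
    | apply Tm.pr
    | apply Df.mem
    | apply Df.eq

@[is_poly] theorem Df.lv {s t r : (ℕ → M) → M} (hs : Tm s) (ht : Tm t) (hr : Tm r) :
    Df (fun v => Lv (s v) (t v) (r v)) := by
  refine Df.sub3 (R := fun x y z => Lv x y z) ?_ hs ht hr
  unfold Lv
  repeat' first
    | exact Tm.var _
    | apply Df.cle
    | apply Df.and
    | apply Df.imp
    | (apply Df.all; beta_reduce)
    | apply Tm.pr
    | apply Df.mem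

theorem exists_Fn (S C : M) : ∃ F : M, ∀ p, p ∈ F ↔ IsFn S C p := by
  obtain ⟨F, hF⟩ := exists_sep (pw (pd S C)) (P := fun p => IsFn S C p)
    (Df.isFn (Tm.const S) (Tm.const C) (Tm.var 0))
  refine ⟨F, fun p => ?_⟩
  rw [hF, mem_pw]
  refine ⟨fun h => h.2, fun h => ⟨fun x hx => ?_, h⟩⟩
  obtain ⟨s, hs, c, hc, rfl⟩ := h.2.1 x hx
  exact pr_mem_pd.2 ⟨hs, hc⟩

/-- the set of finite partial functions from S to C -/
noncomputable def Fn (S C : M) : M := (exists_Fn S C).choose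

theorem mem_Fn {S C p : M} : p ∈ Fn S C ↔ IsFn S C p := (exists_Fn S C).choose_spec p

variable {S C Cl : M}

theorem Cmp.symm {p q : M} (h : Cmp p q) : Cmp q p := fun s c c' h1 h2 => (h s c' c h2 h1).symm

theorem Cmp.refl {p : M} (hp : IsFn S C p) : Cmp p p := hp.2.2

theorem Cmp.mono {p p' q q' : M} (h : Cmp p q) (hp : IsSub p' p) (hq : IsSub q' q) : Cmp p' q' :=
  fun s c c' h1 h2 => h s c c' (hp _ h1) (hq _ h2)

theorem IsFn.ud {p q : M} (hp : IsFn S C p) (hq : IsFn S C q) (h : Cmp p q) :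
    IsFn S C (ud p q) := by
  refine ⟨hp.1.ud hq.1, fun x hx => ?_, fun s c c' h1 h2 => ?_⟩
  · rcases mem_ud.1 hx with hx | hx
    · exact hp.2.1 x hx
    · exact hq.2.1 x hx
  · rcases mem_ud.1 h1 with h1 | h1 <;> rcases mem_ud.1 h2 with h2 | h2
    · exact hp.2.2 s c c' h1 h2
    · exact h s c c' h1 h2
    · exact (h s c' c h2 h1).symm
    · exact hq.2.2 s c c' h1 h2

theorem IsFn.sub {p q : M} (hp : IsFn S C p) (h : IsSub q p) : IsFn S C q :=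
  ⟨hp.1.sub h, fun x hx => hp.2.1 x (h x hx), fun s c c' h1 h2 => hp.2.2 s c c' (h _ h1) (h _ h2)⟩

theorem IsFn.ins {p s c : M} (hp : IsFn S C p) (hs : s ∈ S) (hc : c ∈ C) (h : ∀ c', pr s c' ∉ p) :
    IsFn S C (ins (pr s c) p) := by
  refine ⟨hp.1.ins _, fun x hx => ?_, fun s' c' c'' h1 h2 => ?_⟩
  · rcases mem_ins.1 hx with rfl | hx
    · exact ⟨s, hs, c, hc, rfl⟩
    · exact hp.2.1 x hx
  · rcases mem_ins.1 h1 with h1 | h1 <;> rcases mem_ins.1 h2 with h2 | h2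
    · rw [(pr_inj.1 h1).2, (pr_inj.1 h2).2]
    · rw [(pr_inj.1 h1).1] at h2
      exact absurd h2 (h _)
    · rw [(pr_inj.1 h2).1] at h1
      exact absurd h1 (h _)
    · exact hp.2.2 s' c' c'' h1 h2

/-! ### Transfer to finsets of pairs -/

open ZFM.Che (Fnl Cpt)

theorem fin_gr {p : M} (hp : Fi p) : {x : M × M | pr x.1 x.2 ∈ p}.Finite := by
  refine Set.Finite.of_finite_image (f := fun x : M × M => pr x.1 x.2) (hp.subset ?_) ?_
  · rintro _ ⟨x, hx, rfl⟩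
    exact hx
  · rintro ⟨a, b⟩ _ ⟨c, d⟩ _ h
    obtain ⟨h1, h2⟩ := pr_inj.1 h
    simp only at h1 h2
    rw [h1, h2]

open Classical in
/-- the finite function `p` as a finset of pairs -/
noncomputable def gr (p : M) : Finset (M × M) :=
  if h : {x : M × M | pr x.1 x.2 ∈ p}.Finite then h.toFinset else ∅

theorem mem_gr {p : M} (hp : Fi p) {s c : M} : (s, c) ∈ gr p ↔ pr s c ∈ p := by
  unfold gr
  rw [dif_pos (fin_gr hp)]
  simp

theorem gr_sub {p q : M} (hp : IsFn S C p) (hq : Fi q) : gr p ⊆ gr q ↔ IsSub p q := by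
  constructor
  · intro h x hx
    obtain ⟨s, _, c, _, rfl⟩ := hp.2.1 x hx
    exact (mem_gr hq).1 (h ((mem_gr hp.1).2 hx))
  · rintro h ⟨s, c⟩ hx
    exact (mem_gr hq).2 (h _ ((mem_gr hp.1).1 hx))

theorem gr_inj {p q : M} (hp : IsFn S C p) (hq : IsFn S C q) (h : gr p = gr q) : p = q :=
  WZ.ext fun x => ⟨fun hx => (gr_sub hp hq.1).1 h.subset x hx,
    fun hx => (gr_sub hq hp.1).1 h.symm.subset x hx⟩

theorem fnl_gr {p : M} (hp : IsFn S C p) : Fnl (gr p) := fun s c c' h1 h2 =>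
  hp.2.2 s c c' ((mem_gr hp.1).1 h1) ((mem_gr hp.1).1 h2)

theorem cmp_iff {p q : M} (hp : Fi p) (hq : Fi q) : Cmp p q ↔ Cpt (gr p) (gr q) :=
  ⟨fun h s c c' h1 h2 => h s c c' ((mem_gr hp).1 h1) ((mem_gr hq).1 h2),
    fun h s c c' h1 h2 => h s c c' ((mem_gr hp).2 h1) ((mem_gr hq).2 h2)⟩

theorem exists_gr {p : M} (hp : IsFn S C p) {r : Finset (M × M)} (hr : r ⊆ gr p) :
    ∃ q, IsFn S C q ∧ IsSub q p ∧ gr q = r := by
  obtain ⟨q, hq⟩ := exists_fin (s := (fun x : M × M => pr x.1 x.2) '' (r : Set (M × M)))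
    (r.finite_toSet.image _)
  have hqp : IsSub q p := by
    intro y hy
    obtain ⟨⟨s, c⟩, hx, rfl⟩ := (hq y).1 hy
    exact (mem_gr hp.1).1 (hr hx)
  have hqf : IsFn S C q := hp.sub hqp
  refine ⟨q, hqf, hqp, ?_⟩
  ext ⟨s, c⟩
  rw [mem_gr hqf.1, hq]
  constructor
  · rintro ⟨⟨s', c'⟩, hx, he⟩
    obtain ⟨h1, h2⟩ := pr_inj.1 he
    simp only at h1 h2
    rw [← h1, ← h2]; exact hx
  · intro hx
    exact ⟨(s, c), hx, rfl⟩

theorem card_gr {p : M} (hp : IsFn S C p) {l : ℕ} (h : Cle p (num l)) : (gr p).card ≤ l := by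
  have h1 := cle_iff.1 h
  have h2 : ((gr p : Set (M × M))).encard ≤ {y | y ∈ p}.encard := by
    refine Set.encard_le_encard_of_injOn (f := fun x : M × M => pr x.1 x.2) ?_ ?_
    · rintro ⟨s, c⟩ hx
      exact (mem_gr hp.1).1 hx
    · rintro ⟨a, b⟩ _ ⟨c, d⟩ _ h
      obtain ⟨h1, h2⟩ := pr_inj.1 h
      simp only at h1 h2
      rw [h1, h2]
  rw [Set.encard_coe_eq_coe_finsetCard] at h2
  exact_mod_cast h2.trans h1

theorem card_gr_lt {p q : M} (hp : IsFn S C p) (hq : IsFn S C q) (h : IsSub p q) (hne : p ≠ q) :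
    (gr p).card < (gr q).card := by
  apply Finset.card_lt_card
  refine lt_of_le_of_ne ((gr_sub hp hq.1).2 h) fun e => hne (gr_inj hp hq e)

/-- each finite function has a level -/
theorem exists_lv (hF : Filt C Cl) {p : M} (hp : IsFn S C p) :
    ∃ n : ℕ, ∀ m, n ≤ m → Lv Cl (num m) p := by
  have h1 : ∀ x ∈ gr p, ∃ n : ℕ, ∀ m, n ≤ m → pr (num m) x.2 ∈ Cl := by
    rintro ⟨s, c⟩ hx
    obtain ⟨s', hs', c', hc', he⟩ := hp.2.1 _ ((mem_gr hp.1).1 hx)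
    obtain ⟨rfl, rfl⟩ := pr_inj.1 he
    exact hF.cof _ hc'
  choose! f hf using h1
  refine ⟨max (gr p).card ((gr p).sup f), fun m hm => ⟨?_, fun s c hc => ?_⟩⟩
  · rw [cle_iff]
    have h2 : {y | y ∈ p} ⊆ (fun x : M × M => pr x.1 x.2) '' (gr p : Set (M × M)) := by
      intro y hy
      obtain ⟨s, _, c, _, rfl⟩ := hp.2.1 y hy
      exact ⟨(s, c), (mem_gr hp.1).2 hy, rfl⟩
    calc {y | y ∈ p}.encard ≤ _ := Set.encard_le_encard h2
      _ ≤ (gr p : Set (M × M)).encard := Set.encard_image_le _ _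
      _ = ((gr p).card : ℕ∞) := Set.encard_coe_eq_coe_finsetCard _
      _ ≤ (m : ℕ∞) := by exact_mod_cast (le_max_left _ _).trans hm
  · have hx : (s, c) ∈ gr p := (mem_gr hp.1).2 hc
    exact hf _ hx m (((Finset.le_sup hx).trans (le_max_right _ _)).trans hm)

theorem exists_rt (hF : Filt C Cl) {l : ℕ} {A : Set M}
    (hA : ∀ p ∈ A, IsFn S C p ∧ Lv Cl (num l) p) (hinf : A.Infinite) : ∃ r : M, IsFn S C r ∧
      ∀ q, IsFn S C q → ∃ p ∈ A, p ≠ r ∧ IsSub r p ∧ (IsSub r q → Cmp q p) ∧ p ≠ q := by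
  classical
  have hinj : Set.InjOn gr A := fun p hp q hq h => gr_inj (hA p hp).1 (hA q hq).1 h
  obtain ⟨r, hr⟩ := ZFM.Che.exists_root {c : M | pr (num l) c ∈ Cl} (hF.fin l) l (gr '' A)
    (hinf.image hinj) (by
      rintro _ ⟨p, hp, rfl⟩
      exact card_gr (hA p hp).1 (hA p hp).2.1) (by
      rintro _ ⟨p, hp, rfl⟩ ⟨s, c⟩ hx
      exact (hA p hp).2.2 s c ((mem_gr (hA p hp).1.1).1 hx))
  obtain ⟨_, ⟨p0, hp0, rfl⟩, hrp0, -⟩ := (hr ∅).nonempty
  obtain ⟨ρ, hρ, -, hρr⟩ := exists_gr (hA p0 hp0).1 hrp0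
  refine ⟨ρ, hρ, fun q hq => ?_⟩
  obtain ⟨t, ⟨⟨p, hp, rfl⟩, hrp, hd⟩, ht⟩ :=
    (hr ((gr q).image Prod.fst)).exists_notMem_finset {gr q, gr ρ}
  rw [Finset.mem_insert, Finset.mem_singleton, not_or] at ht
  refine ⟨p, hp, fun e => ht.2 (by rw [e]), (gr_sub hρ (hA p hp).1.1).1 (hρr ▸ hrp), ?_,
    fun e => ht.1 (by rw [e])⟩
  intro hρq
  rw [cmp_iff hq.1 (hA p hp).1.1]
  intro a c c' hac hac'
  by_cases hmem : (a, c') ∈ r
  · rw [← hρr] at hmem
    exact fnl_gr hq a c c' hac ((gr_sub hρ hq.1).2 hρq hmem)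
  · exact absurd (Finset.mem_image.2 ⟨(a, c), hac, rfl⟩) (hd (a, c') hac' hmem)

/-- there are no infinite sets of pairwise incompatible functions of bounded level -/
theorem exists_cmp (hF : Filt C Cl) {l : ℕ} {A : Set M} (hA : ∀ p ∈ A, IsFn S C p ∧ Lv Cl (num l) p)
    (hinf : A.Infinite) : ∃ p ∈ A, ∃ q ∈ A, p ≠ q ∧ Cmp p q := by
  obtain ⟨r, hr, h⟩ := exists_rt hF hA hinf
  obtain ⟨p, hp, -, hrp, -⟩ := h r hr
  obtain ⟨q, hq, -, -, hc, hne⟩ := h p (hA p hp).1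
  exact ⟨p, hp, q, hq, fun e => hne e.symm, hc hrp⟩

/-- a regular family has only finitely many minimal elements of bounded level -/
theorem fin_min (hF : Filt C Cl) {R : M → Prop} (hR : Reg S C R) (l : ℕ) :
    {σ | Mn S C R σ ∧ Lv Cl (num l) σ}.Finite := by
  by_contra hinf
  obtain ⟨r, hr, h⟩ := exists_rt (A := {σ | Mn S C R σ ∧ Lv Cl (num l) σ}) hF
    (fun p hp => ⟨hp.1.1, hp.2⟩) hinf
  have hrR : R r := by
    refine hR r hr fun q hq hrq => ?_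
    obtain ⟨p, hp, -, -, hc, -⟩ := h q hq
    exact ⟨p, hp.1.1, hp.1.2.1, hc hrq⟩
  obtain ⟨p, hp, hne, hrp, -⟩ := h r hr
  exact hne (hp.1.2.2 r hrp hrR).symm

theorem exists_min {R : M → Prop} {s : M} (hs : IsFn S C s) (h : R s) :
    ∃ σ, Mn S C R σ ∧ IsSub σ s := by
  have key : ∀ n : ℕ, ∀ s, IsFn S C s → R s → (gr s).card = n → ∃ σ, Mn S C R σ ∧ IsSub σ s := by
    intro n
    induction n using Nat.strong_induction_on with
    | _ n ih =>
    intro s hs h hn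
    by_cases hm : ∀ τ, IsSub τ s → R τ → τ = s
    · exact ⟨s, ⟨hs, h, hm⟩, fun _ hx => hx⟩
    · push Not at hm
      obtain ⟨τ, hτ, hR, hne⟩ := hm
      have hτf : IsFn S C τ := hs.sub hτ
      obtain ⟨σ, hσ, hστ⟩ := ih _ (hn ▸ card_gr_lt hτf hs hτ hne) τ hτf hR rfl
      exact ⟨σ, hσ, fun x hx => hτ x (hστ x hx)⟩
  exact key _ s hs h rfl

theorem reg_rg (R : M → Prop) : Reg S C (Rg S C R) := by
  intro s hs h
  refine ⟨hs, fun q hq hsq => ?_⟩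
  obtain ⟨ρ, hρ, hρR, hc⟩ := h q hq hsq
  obtain ⟨ρ', hρ', hR', hc'⟩ := hρR.2 (ud q ρ) (hq.ud hρ hc) fun x hx => mem_ud.2 (Or.inr hx)
  exact ⟨ρ', hρ', hR', hc'.mono (fun x hx => mem_ud.2 (Or.inl hx)) fun _ hx => hx⟩

theorem rg_of {R : M → Prop} {s : M} (hs : IsFn S C s) (h : R s) : Rg S C R s :=
  ⟨hs, fun _ hq hsq => ⟨s, hs, h, (Cmp.refl hq).mono (fun _ hx => hx) hsq⟩⟩

theorem Rg.up {R : M → Prop} {s t : M} (h : Rg S C R s) (ht : IsFn S C t) (hst : IsSub s t) :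
    Rg S C R t := ⟨ht, fun q hq htq => h.2 q hq fun x hx => htq x (hst x hx)⟩

theorem rg_disj {R R' : M → Prop} {s : M} (h : ∀ ρ ρ', IsFn S C ρ → IsFn S C ρ' → R ρ → R' ρ' → ¬ Cmp ρ ρ')
    (h1 : Rg S C R s) (h2 : Rg S C R' s) : False := by
  obtain ⟨ρ, hρ, hρR, hc⟩ := h1.2 s h1.1 fun _ hx => hx
  obtain ⟨ρ', hρ', hR', hc'⟩ := h2.2 (ud s ρ) (h1.1.ud hρ hc) fun x hx => mem_ud.2 (Or.inl hx)
  exact h ρ ρ' hρ hρ' hρR hR' (hc'.mono (fun x hx => mem_ud.2 (Or.inr hx)) fun _ hx => hx)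

end Pool.Agent.CVH
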