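import Pool.Agent.CVH.Gen
import Pool.Agent.CVH.Fn

/-! # Covering -/

namespace Pool.Agent.CVH

open ZFM (Fm Sat push Dfn DT IsZF IsPair IsSub Rel IsFun)

universe u

variable {V W : Type u} [WZ V] [WZ W] {j : V → W} {P L S C Cl : V} {G : W} {idx : V → V}

/-- the index is a term -/
theorem Idx.tm (hi : Idx P L S C idx) {t : (ℕ → V) → V} (ht : Tm t) : Tm (fun v => idx (t v)) := by
  have h := Df.sub2 (R := fun x y => x = idx y) hi.df (Tm.var 0) ht.tail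
  exact h

attribute [local irreducible] Tm

/-- finitely many possible values at each level -/
theorem covering (hG : GenExt j P L G) (ho : IsPo P L) (hF : Filt C Cl) (hi : Idx P L S C idx)
    {A B : V} {f : W} (hf : ∀ a ∈ A, ∃ y ∈ B, pr (j a) (j y) ∈ f)
    (hu : ∀ a ∈ A, ∀ y ∈ B, ∀ y' ∈ B, pr (j a) (j y) ∈ f → pr (j a) (j y') ∈ f → y = y') :
    ∃ F : V, (∀ a ∈ A, ∀ k : ℕ, {y : V | y ∈ B ∧ pr (pr a (num k)) y ∈ F}.Finite) ∧
      ∀ a ∈ A, ∀ y ∈ B, pr (j a) (j y) ∈ f → ∃ k : ℕ, pr (pr a (num k)) y ∈ F := by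
  classical
  obtain ⟨r, hr⟩ := hG.exists_nm (pd A B) f
  obtain ⟨p₀, hp₀, hp⟩ := hG.exists_uniq ho hr hu
  obtain ⟨F, -, hFF⟩ := exists_rel2 (pd A om) B
    (R := fun u y => ∃ a k p : V, u = pr a k ∧ pr p p₀ ∈ L ∧ Lv Cl k (idx p) ∧
      Frc P L r p (pr a y)) (by
      have h := hi.tm (Tm.var (M := V) 0)
      refine Df.ex (Df.ex (Df.ex (Df.and ?_ (Df.and ?_ (Df.and ?_ ?_)))))
      · apply_rules (maxDepth := 1000) using is_poly
      · apply_rules (maxDepth := 1000) using is_poly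
      · exact Df.lv (Tm.const _) (Tm.var 1) h
      · apply_rules (maxDepth := 1000) using is_poly)
  refine ⟨F, fun a ha k => ?_, fun a ha y hy hay => ?_⟩
  · by_contra hinf
    have hex : ∀ y : {y : V | y ∈ B ∧ pr (pr a (num k)) y ∈ F}, ∃ p : V, pr p p₀ ∈ L ∧
        Lv Cl (num k) (idx p) ∧ Frc P L r p (pr a (y : V)) := by
      rintro ⟨y, hy, hyF⟩
      obtain ⟨-, -, a', k', p, e, h1, h2, h3⟩ := (hFF _ _).1 hyF
      obtain ⟨rfl, rfl⟩ := pr_inj.1 e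
      exact ⟨p, h1, h2, h3⟩
    choose q hq1 hq2 hq3 using hex
    have hqP : ∀ y, q y ∈ P := fun y => (ho.dom _ _ (hq1 y)).1
    -- compatible indices have the same value
    have key : ∀ y y', Cmp (idx (q y)) (idx (q y')) → y = y' := by
      intro y y' hc
      obtain ⟨s, -, hs1, hs2⟩ := hi.cmp _ (hqP y) _ (hqP y') hc
      apply Subtype.ext
      exact hp s (ho.trans _ _ _ hs1 (hq1 y)) a ha y y.2.1 y' y'.2.1 ((hq3 y).mono ho hs1)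
        ((hq3 y').mono ho hs2)
    have hinj : Function.Injective (fun y => idx (q y)) := by
      intro y y' h
      apply key
      have h' : idx (q y) = idx (q y') := h
      rw [h']
      exact Cmp.refl (hi.fn _ (hqP y'))
    have hinf' : (Set.range (fun y => idx (q y))).Infinite := by
      have : Infinite {y : V | y ∈ B ∧ pr (pr a (num k)) y ∈ F} := Set.infinite_coe_iff.2 hinf
      exact Set.infinite_range_of_injective hinj
    obtain ⟨s, ⟨y, rfl⟩, t, ⟨y', rfl⟩, hne, hc⟩ := exists_cmp (S := S) hF (l := k)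
      (A := Set.range (fun y => idx (q y))) (by
        rintro _ ⟨y, rfl⟩
        exact ⟨hi.fn _ (hqP y), hq2 y⟩) hinf'
    exact hne (by rw [key y y' hc])
  · have hay' : j (pr a y) ∈ f := by
      rw [hG.j_pr]
      exact hay
    obtain ⟨p₁, hp₁, hfr⟩ := hG.exists_frc ho hr (pr_mem_pd.2 ⟨ha, hy⟩) hay'
    obtain ⟨s, hs, hs1, hs0⟩ := hG.dir _ _ hp₁ hp₀
    obtain ⟨n, hn⟩ := exists_lv hF (hi.fn s (hG.mem_P hs))
    refine ⟨n, (hFF _ _).2 ⟨pr_mem_pd.2 ⟨ha, num_mem_om n⟩, hy, a, num n, s, rfl, hs0, hn n le_rfl,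
      hfr.mono ho hs1⟩⟩

/-- covering of families of finite sets -/
theorem cover_fin (hG : GenExt j P L G) (ho : IsPo P L) (hF : Filt C Cl) (hi : Idx P L S C idx)
    {A N : V} {b : W} (hb : ∀ a ∈ A, {ξ : V | ξ ∈ N ∧ pr (j a) (j ξ) ∈ b}.Finite) :
    ∃ b' : V, (∀ a ∈ A, ∀ k : ℕ, {ξ : V | ξ ∈ N ∧ pr (pr a (num k)) ξ ∈ b'}.Finite) ∧
      ∀ a ∈ A, ∀ ξ ∈ N, pr (j a) (j ξ) ∈ b → ∃ k : ℕ, pr (pr a (num k)) ξ ∈ b' := by
  classical
  obtain ⟨f, -, hf⟩ := exists_rel2 (j A) (j (fs N))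
    (R := fun u z => ∀ ξ : W, ξ ∈ j N → (ξ ∈ z ↔ pr u ξ ∈ b)) (by apply_rules (maxDepth := 1000) using is_poly)
  have hval : ∀ a ∈ A, ∀ z ∈ fs N, pr (j a) (j z) ∈ f ↔
      ∀ ξ ∈ N, ξ ∈ z ↔ pr (j a) (j ξ) ∈ b := by
    intro a ha z hz
    rw [hf]
    constructor
    · rintro ⟨-, -, h⟩ ξ hξ
      rw [← hG.mem ξ z]
      exact h (j ξ) ((hG.mem _ _).2 hξ)
    · intro h
      refine ⟨(hG.mem _ _).2 ha, (hG.mem _ _).2 hz, fun ξ hξ => ?_⟩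
      obtain ⟨ξ', hξ', rfl⟩ := hG.of_mem hξ
      rw [hG.mem]
      exact h ξ' hξ'
  have hex : ∀ a ∈ A, ∃ z ∈ fs N, pr (j a) (j z) ∈ f := by
    intro a ha
    have hfin : {ξ : W | ξ ∈ j N ∧ pr (j a) ξ ∈ b}.Finite := by
      refine ((hb a ha).image j).subset ?_
      rintro ξ ⟨h1, h2⟩
      obtain ⟨ξ', hξ', rfl⟩ := hG.of_mem h1
      exact ⟨ξ', ⟨hξ', h2⟩, rfl⟩
    obtain ⟨y, hy⟩ := exists_fin hfin
    have hyfi : Fi y := by
      have : {z | z ∈ y} = {ξ : W | ξ ∈ j N ∧ pr (j a) ξ ∈ b} := Set.ext hy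
      unfold Fi
      rw [this]
      exact hfin
    obtain ⟨z, rfl, hz⟩ := hG.exists_of_fi (x := N) hyfi (fun ξ hξ => ((hy ξ).1 hξ).1)
    have hzf : z ∈ fs N := mem_fs.2 ⟨hz, hG.j_fi.1 hyfi⟩
    refine ⟨z, hzf, (hval a ha z hzf).2 fun ξ hξ => ?_⟩
    rw [← hG.mem ξ z, hy]
    exact ⟨fun h => h.2, fun h => ⟨(hG.mem _ _).2 hξ, h⟩⟩
  obtain ⟨F, hF1, hF2⟩ := covering hG ho hF hi (A := A) (B := fs N) (f := f) hex (by
    intro a ha z hz z' hz' h h'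
    refine WZ.ext fun ξ => ?_
    constructor
    · intro hξ
      have hN : ξ ∈ N := (mem_fs.1 hz).1 ξ hξ
      exact ((hval a ha z' hz').1 h' ξ hN).2 (((hval a ha z hz).1 h ξ hN).1 hξ)
    · intro hξ
      have hN : ξ ∈ N := (mem_fs.1 hz').1 ξ hξ
      exact ((hval a ha z hz).1 h ξ hN).2 (((hval a ha z' hz').1 h' ξ hN).1 hξ))
  obtain ⟨b', -, hb'⟩ := exists_rel2 (pd A om) N
    (R := fun u ξ => ∃ z : V, z ∈ fs N ∧ pr u z ∈ F ∧ ξ ∈ z) (by apply_rules (maxDepth := 1000) using is_poly)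
  refine ⟨b', fun a ha k => ?_, fun a ha ξ hξ h => ?_⟩
  · have h1 : (⋃ z ∈ {z : V | z ∈ fs N ∧ pr (pr a (num k)) z ∈ F}, {ξ | ξ ∈ z}).Finite :=
      (hF1 a ha k).biUnion fun z hz => (mem_fs.1 hz.1).2
    refine h1.subset ?_
    rintro ξ ⟨hξ, h⟩
    obtain ⟨-, -, z, hz, hzF, hξz⟩ := (hb' _ _).1 h
    exact Set.mem_biUnion (show z ∈ {z : V | z ∈ fs N ∧ pr (pr a (num k)) z ∈ F} from ⟨hz, hzF⟩) hξz
  · obtain ⟨z, hz, hzf⟩ := hex a ha
    obtain ⟨k, hk⟩ := hF2 a ha z hz hzf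
    exact ⟨k, (hb' _ _).2 ⟨pr_mem_pd.2 ⟨ha, num_mem_om k⟩, hξ, z, hz, hk,
      ((hval a ha z hz).1 hzf ξ hξ).2 h⟩⟩

end Pool.Agent.CVH
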