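import Pool.Agent.CVH.Base

/-! # Definitions: ordinals, finite functions, the two forcings, generic extensions, the sentence -/

namespace Pool.Agent.CVH

open ZFM (Fm Sat push Dfn DT IsZF IsPair IsSub Rel IsFun)

universe u

section

variable {M : Type u} [WZ M]

/-- `x` is an ordinal: `x` and all its elements are transitive -/
def IsOrd (x : M) : Prop := (∀ y ∈ x, ∀ z ∈ y, z ∈ x) ∧ ∀ y ∈ x, ∀ z ∈ y, ∀ w ∈ z, w ∈ y

/-- the numerals `0 = ∅`, `n + 1 = n ∪ {n}` -/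
noncomputable def num : ℕ → M
  | 0 => emp
  | n + 1 => sc (num n)

/-- `x` is finite -/
def Fi (x : M) : Prop := {y | y ∈ x}.Finite

/-- `p` is a finite partial function from `S` to `C` -/
def IsFn (S C p : M) : Prop :=
  Fi p ∧ (∀ x ∈ p, ∃ s ∈ S, ∃ c ∈ C, x = pr s c) ∧ ∀ s c c', pr s c ∈ p → pr s c' ∈ p → c = c'

/-- `w` is the set of natural numbers -/
def IsOm (w : M) : Prop := ∀ x, x ∈ w ↔ ∃ n, x = num n

/-- `(P, L)` is the forcing `ℂ^κ`: the finite partial functions from `κ × ω` to `2 = {0, 1}`, ordered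
by reverse inclusion; `pr q p ∈ L` means `q ≤ p`. -/
def IsCohen (κ P L : M) : Prop :=
  (∀ p, p ∈ P ↔ ∃ w, IsOm w ∧ IsFn (pd κ w) (num 2) p) ∧
    ∀ q p, pr q p ∈ L ↔ q ∈ P ∧ p ∈ P ∧ IsSub p q

/-- stems: finite sequences of natural numbers -/
def IsStem (s : M) : Prop :=
  ∃ n : ℕ, (∀ x ∈ s, ∃ i < n, ∃ m, x = pr (num i) (num m)) ∧
    ∀ i < n, ∃! m : ℕ, pr (num i) (num m) ∈ s

/-- the condition `q` decides the value `n ↦ m` of the name `f`: `q ≤ r` for some `(r, (n, m)) ∈ f` -/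
def Dec (L f q : M) (n m : ℕ) : Prop := ∃ r, pr r (pr (num n) (num m)) ∈ f ∧ pr q r ∈ L

/-- `f` is a nice `P`-name of a function `ω → ω` -/
structure IsName (P L f : M) : Prop where
  sub : ∀ x ∈ f, ∃ p ∈ P, ∃ n m : ℕ, x = pr p (pr (num n) (num m))
  total : ∀ p ∈ P, ∀ n : ℕ, ∃ q ∈ P, pr q p ∈ L ∧ ∃ m : ℕ, Dec L f q n m
  uniq : ∀ q ∈ P, ∀ n m m' : ℕ, Dec L f q n m → Dec L f q n m' → m = m'

/-- `p ⊩ f ≤ g` (everywhere) -/
def FLe (P L p f g : M) : Prop :=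
  ∀ q ∈ P, pr q p ∈ L → ∀ n m m' : ℕ, Dec L f q n m → Dec L g q n m' → m ≤ m'

/-- `p ⊩ f(n) ≤ k` -/
def FVal (P L p f : M) (n k : ℕ) : Prop := ∀ q ∈ P, pr q p ∈ L → ∀ m : ℕ, Dec L f q n m → m ≤ k

/-- `q` is the restriction of `p` to `γ` -/
def IsRes (q p γ : M) : Prop := ∀ x, x ∈ q ↔ x ∈ p ∧ ∃ β ∈ γ, ∃ y, x = pr β y

/-- `(P β, L β)`, `β ≤ l`, is the finite support iteration of Hechler forcing of length `l`: the
conditions `p ∈ P β` are the finite functions with domain contained in `β` such that each value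
`p(γ)` is a pair `(s, f)` of a finite sequence `s` of natural numbers and a nice `P γ`-name `f` of a
function; `q ≤ p` iff for all `γ` in the domain of `p`, with `p(γ) = (s, f)` and `q(γ) = (t, g)`:
`s ⊆ t`, and `q` restricted to `γ` forces `f ≤ g` and `f(n) ≤ t(n)` for `n ∈ dom t \ dom s`. -/
structure IsHechler (l : M) (P L : M → M) : Prop where
  mem : ∀ β, β ∈ sc l → ∀ p, p ∈ P β ↔ Fi p ∧
    (∀ x ∈ p, ∃ γ ∈ β, ∃ s f, x = pr γ (pr s f) ∧ IsStem s ∧ IsName (P γ) (L γ) f) ∧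
    ∀ γ y y', pr γ y ∈ p → pr γ y' ∈ p → y = y'
  ord : ∀ β, β ∈ sc l → ∀ q p, pr q p ∈ L β ↔ q ∈ P β ∧ p ∈ P β ∧
    ∀ γ s f, pr γ (pr s f) ∈ p → ∃ t g, pr γ (pr t g) ∈ q ∧ IsSub s t ∧
      ∀ q', IsRes q' q γ → FLe (P γ) (L γ) q' f g ∧
        ∀ n m : ℕ, pr (num n) (num m) ∈ t → pr (num n) (num m) ∉ s → FVal (P γ) (L γ) q' f n m

end

/-- `W` is a generic extension of `V` for the forcing `(P, L)`, by the generic filter `G`: `j` is an
isomorphism of `V` with a transitive class of `W`, all ordinals of `W` are in `V`, `G` is a filter on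
`P` which meets all dense sets in `V`, and every subset in `W` of a set `a` in `V` has a name in `V`. -/
structure GenExt {V W : Type u} [WZ V] [WZ W] (j : V → W) (P L : V) (G : W) : Prop where
  inj : Function.Injective j
  mem : ∀ x y, j x ∈ j y ↔ x ∈ y
  tr : ∀ x, ∀ y ∈ j x, ∃ z, y = j z
  ord : ∀ y : W, IsOrd y → ∃ x, y = j x
  sub : ∀ y ∈ G, ∃ p ∈ P, y = j p
  up : ∀ p q, j p ∈ G → pr p q ∈ L → j q ∈ G
  dir : ∀ p q, j p ∈ G → j q ∈ G → ∃ r, j r ∈ G ∧ pr r p ∈ L ∧ pr r q ∈ L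
  meets : ∀ D : V, (∀ p ∈ P, ∃ q ∈ D, q ∈ P ∧ pr q p ∈ L) → ∃ p ∈ D, j p ∈ G
  names : ∀ (a : V) (X : W), IsSub X (j a) → ∃ r : V, ∀ x ∈ a, j x ∈ X ↔ ∃ p, j p ∈ G ∧ pr p x ∈ r

/-- elementary equivalence -/
def ElemEq (W W' : Type u) [WZ W] [WZ W'] : Prop :=
  ∀ φ : Fm, (∀ v : ℕ → W, Sat φ v) ↔ ∀ v : ℕ → W', Sat φ v

end Pool.Agent.CVH
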