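import Pool.Agent.CVH.Defs

/-! # The notions used in the proof -/

namespace Pool.Agent.CVH

open ZFM (Fm Sat push Dfn DT IsZF IsPair IsSub Rel IsFun)

universe u

variable {M : Type u} [WZ M]

/-- `x` is a sequence of functions `ω → ω` of length `ν`: `((i, n), m) ∈ x` iff `x_i(n) = m` -/
def Seq (x ν : M) : Prop := ∀ i ∈ ν, ∀ n : ℕ, ∃! m : ℕ, pr (pr i (num n)) (num m) ∈ x

/-- there is a sequence of length `ν` with `x_i(n) < x_i'(n)` for all large `n`, `i < i'` -/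
def CC (ν : M) : Prop := ∃ x : M, Seq x ν ∧ ∀ i ∈ ν, ∀ i' ∈ ν, i ∈ i' → ∃ N : ℕ, ∀ n, N ≤ n → ∀ m m' : ℕ,
  pr (pr i (num n)) (num m) ∈ x → pr (pr i' (num n)) (num m') ∈ x → m < m'

/-- there is an injective sequence of length `θ` -/
def II (θ : M) : Prop := ∃ x : M, Seq x θ ∧ ∀ i ∈ θ, ∀ i' ∈ θ, i ≠ i' → ∃ n m : ℕ,
  pr (pr i (num n)) (num m) ∈ x ∧ pr (pr i' (num n)) (num m) ∉ x

/-- `g` is an increasing function `ν → θ` -/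
def Inc (g ν θ : M) : Prop := (∀ i ∈ ν, ∃! a, pr i a ∈ g) ∧ (∀ i ∈ ν, ∀ a, pr i a ∈ g → a ∈ θ) ∧
  ∀ i ∈ ν, ∀ i' ∈ ν, i ∈ i' → ∀ a a', pr i a ∈ g → pr i' a' ∈ g → a ∈ a'

/-- the covering property -/
def JJ (ν θ : M) : Prop := ∃ E : M, (∀ a ∈ θ, ∀ n : ℕ, {ξ : M | ξ ∈ ν ∧ pr (pr a (num n)) ξ ∈ E}.Finite) ∧
  ∀ b : M, (∀ n : ℕ, {ξ : M | ξ ∈ ν ∧ pr (num n) ξ ∈ b}.Finite) → ¬ ∃ g : M, Inc g ν θ ∧
    ∀ i ∈ ν, ∀ a, pr i a ∈ g → ∀ n : ℕ, ∀ ξ ∈ ν, pr (pr a (num n)) ξ ∈ E → ∃ k : ℕ, pr (num k) ξ ∈ b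

variable (M) in
/-- the sentence -/
def PHI : Prop := ∃ ν θ : M, IsOrd ν ∧ IsOrd θ ∧ ¬ CC ν ∧ II θ ∧ ¬ JJ ν θ

/-- `x` has at most `n` elements -/
def Cle (x n : M) : Prop := ∃ f : M, (∀ y ∈ x, ∃ i ∈ n, pr y i ∈ f) ∧
  ∀ y ∈ x, ∀ y' ∈ x, ∀ i, pr y i ∈ f → pr y' i ∈ f → y = y'

/-- `x` has exactly `n` elements (for `n` finite) -/
def Ceq (x n : M) : Prop := Cle x n ∧ ∀ m ∈ n, ¬ Cle x m

/-- compatible finite functions -/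
def Cmp (p q : M) : Prop := ∀ s c c', pr s c ∈ p → pr s c' ∈ q → c = c'

/-- `Cl` codes an increasing sequence of finite sets with union `C` -/
structure Filt (C Cl : M) : Prop where
  fin : ∀ n : ℕ, {c : M | pr (num n) c ∈ Cl}.Finite
  sub : ∀ (n : ℕ) c, pr (num n) c ∈ Cl → c ∈ C
  cof : ∀ c ∈ C, ∃ n : ℕ, ∀ m, n ≤ m → pr (num m) c ∈ Cl

/-- level: `p` has at most `l` elements and values in the `l`-th set -/
def Lv (Cl l p : M) : Prop := Cle p l ∧ ∀ s c, pr s c ∈ p → pr l c ∈ Cl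

/-- regular families of finite functions -/
def Reg (S C : M) (R : M → Prop) : Prop :=
  ∀ s, IsFn S C s → (∀ q, IsFn S C q → IsSub s q → ∃ ρ, IsFn S C ρ ∧ R ρ ∧ Cmp q ρ) → R s

/-- minimal elements of a family -/
def Mn (S C : M) (R : M → Prop) (σ : M) : Prop :=
  IsFn S C σ ∧ R σ ∧ ∀ τ, IsSub τ σ → R τ → τ = σ

/-- the regularisation -/
def Rg (S C : M) (R : M → Prop) (s : M) : Prop :=
  IsFn S C s ∧ ∀ q, IsFn S C q → IsSub s q → ∃ ρ, IsFn S C ρ ∧ R ρ ∧ Cmp q ρ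

/-- `h` does not inject into the power set of `X` -/
def Pigeon (h X : M) : Prop :=
  ∀ r : M, ∃ α ∈ h, ∃ β ∈ h, α ≠ β ∧ ∀ x ∈ X, (pr α x ∈ r ↔ pr β x ∈ r)

/-- a preordered set -/
structure IsPo (P L : M) : Prop where
  dom : ∀ p q, pr p q ∈ L → p ∈ P ∧ q ∈ P
  refl : ∀ p ∈ P, pr p p ∈ L
  trans : ∀ p q r, pr p q ∈ L → pr q r ∈ L → pr p r ∈ L

/-- `p` forces that `x` is in the set with the name `r` -/
def Frc (P L r p x : M) : Prop :=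
  ∀ q ∈ P, pr q p ∈ L → ∃ s ∈ P, pr s q ∈ L ∧ ∃ t, pr t x ∈ r ∧ pr s t ∈ L

/-- the forcing is indexed by finite functions -/
structure Idx (P L S C : M) (idx : M → M) : Prop where
  fn : ∀ p ∈ P, IsFn S C (idx p)
  df : Df (fun v => v 0 = idx (v 1))
  cmp : ∀ p ∈ P, ∀ q ∈ P, Cmp (idx p) (idx q) → ∃ r ∈ P, pr r p ∈ L ∧ pr r q ∈ L

/-- `r` is a name of the subset `X` of `a` -/
def Nm {V W : Type u} [WZ V] [WZ W] (j : V → W) (G : W) (a r : V) (X : W) : Prop :=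
  ∀ x ∈ a, j x ∈ X ↔ ∃ p, j p ∈ G ∧ pr p x ∈ r

/-- the label of `a` with respect to the finite sets `{a | A l a}`: `x = (l, u)`, `l` least with
`A l a`, and `u` elements of this set are smaller than `a`. -/
def Lb (om : M) (A lt : M → M → Prop) (a x : M) : Prop :=
  ∃ l u : M, x = pr l u ∧ l ∈ om ∧ u ∈ om ∧ A l a ∧ (∀ l' ∈ l, ¬ A l' a) ∧
    ∃ z : M, (∀ a', a' ∈ z ↔ A l a' ∧ lt a' a) ∧ Ceq z u

end Pool.Agent.CVH
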