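import Pool.Agent.CVH.Ord

/-! # Finite sets -/

namespace Pool.Agent.CVH

open ZFM (Fm Sat push Dfn DT IsZF IsPair IsSub Rel IsFun)

universe u

attribute [local irreducible] Tm

variable {M : Type u} [WZ M]

theorem Fi.sub {x y : M} (hx : Fi x) (h : IsSub y x) : Fi y := Set.Finite.subset hx fun z hz => h z hz

theorem exists_fin {s : Set M} (hs : s.Finite) : ∃ u : M, ∀ z, z ∈ u ↔ z ∈ s :=
  IsZF.exists_finite WZ.zf hs

theorem Fi.ins {x : M} (hx : Fi x) (y : M) : Fi (ins y x) := by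
  refine (Set.Finite.insert y hx).subset fun z hz => ?_
  exact mem_ins.1 hz

theorem fi_emp : Fi (emp : M) := by
  have : {y : M | y ∈ (emp : M)} = ∅ := Set.eq_empty_iff_forall_notMem.2 notMem_emp
  unfold Fi
  rw [this]
  exact Set.finite_empty

theorem fi_num (n : ℕ) : Fi (num n : M) := by
  induction n with
  | zero => exact fi_emp
  | succ n ih => exact Fi.ins ih _

theorem Fi.un {x : M} (hx : Fi x) (h : ∀ y ∈ x, Fi y) : Fi (un x) := by
  refine (Set.Finite.biUnion (s := {y | y ∈ x}) (t := fun y => {z | z ∈ y}) hx h).subset ?_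
  intro z hz
  obtain ⟨y, hy, hz⟩ := mem_un.1 hz
  exact Set.mem_biUnion hy hz

theorem Fi.pw {x : M} (hx : Fi x) : Fi (pw x) := by
  have hinj : Function.Injective fun y : M => {z | z ∈ y} := fun y y' h =>
    WZ.ext fun z => Set.ext_iff.1 h z
  refine (Set.Finite.preimage (hinj.injOn) (Set.Finite.finite_subsets hx)).subset ?_
  intro y hy
  exact fun z hz => mem_pw.1 hy z hz

theorem Fi.pd {x y : M} (hx : Fi x) (hy : Fi y) : Fi (pd x y) := by
  refine ((Set.Finite.prod hx hy).image fun q : M × M => pr q.1 q.2).subset ?_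
  intro z hz
  obtain ⟨a, ha, b, hb, rfl⟩ := mem_pd.1 hz
  exact ⟨(a, b), ⟨ha, hb⟩, rfl⟩

theorem encard_num (n : ℕ) : {y : M | y ∈ (num n : M)}.encard = n := by
  have h : {y : M | y ∈ (num n : M)} = (fun k : ℕ => (num k : M)) '' (Finset.range n : Set ℕ) := by
    ext y
    simp only [Set.mem_setOf_eq, mem_num, Set.mem_image, Finset.coe_range, Set.mem_Iio]
    exact ⟨fun ⟨m, h1, h2⟩ => ⟨m, h1, h2.symm⟩, fun ⟨m, h1, h2⟩ => ⟨m, h1, h2.symm⟩⟩
  rw [h, Function.Injective.encard_image (fun a b hab => num_inj.1 hab), Set.encard_coe_eq_coe_finsetCard,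
    Finset.card_range]

theorem cle_iff {x : M} {n : ℕ} : Cle x (num n) ↔ {y | y ∈ x}.encard ≤ n := by
  classical
  constructor
  · rintro ⟨f, h1, h2⟩
    have h3 : ∀ y : M, ∃ i : M, y ∈ x → i ∈ (num n : M) ∧ pr y i ∈ f := by
      intro y
      by_cases hy : y ∈ x
      · obtain ⟨i, hi, hi'⟩ := h1 y hy
        exact ⟨i, fun _ => ⟨hi, hi'⟩⟩
      · exact ⟨emp, fun h => absurd h hy⟩
    choose g hg using h3
    rw [← encard_num (M := M) n]
    refine Set.encard_le_encard_of_injOn (f := g) (fun y hy => (hg y hy).1) ?_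
    intro y hy y' hy' e
    exact h2 y hy y' hy' (g y) (hg y hy).2 (by rw [e]; exact (hg y' hy').2)
  · intro h
    have hfin : {y : M | y ∈ x}.Finite := Set.finite_of_encard_le_coe h
    haveI : Nonempty M := ⟨x⟩
    rw [← encard_num (M := M) n] at h
    obtain ⟨g, h1, h2⟩ := hfin.exists_injOn_of_encard_le h
    obtain ⟨f, hf⟩ := exists_fin (hfin.image fun y => pr y (g y))
    refine ⟨f, fun y hy => ⟨g y, h1 hy, (hf _).2 ⟨y, hy, rfl⟩⟩, ?_⟩
    intro y hy y' hy' i hi hi'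
    obtain ⟨z, hz, e⟩ := (hf _).1 hi
    obtain ⟨z', hz', e'⟩ := (hf _).1 hi'
    obtain ⟨rfl, e1⟩ := pr_inj.1 e
    obtain ⟨rfl, e2⟩ := pr_inj.1 e'
    exact h2 hz hz' (e1.trans e2.symm)

theorem ceq_iff {x : M} {n : ℕ} : Ceq x (num n) ↔ {y | y ∈ x}.encard = n := by
  unfold Ceq
  constructor
  · rintro ⟨h1, h2⟩
    have h1 := cle_iff.1 h1
    refine le_antisymm h1 ?_
    by_contra h
    obtain ⟨k, hk⟩ := ENat.ne_top_iff_exists.1 (ne_top_of_le_ne_top (ENat.coe_ne_top n) h1)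
    rw [← hk] at h
    have hkn : k < n := by
      by_contra h3
      exact h (by exact_mod_cast not_lt.1 h3)
    exact h2 (num k) (num_mem.2 hkn) (cle_iff.2 hk.symm.le)
  · intro h
    refine ⟨cle_iff.2 h.le, fun m hm => ?_⟩
    obtain ⟨k, hk, rfl⟩ := mem_num.1 hm
    rw [cle_iff, h]
    intro h'
    have : n ≤ k := by exact_mod_cast h'
    omega

theorem fi_iff {x : M} : Fi x ↔ ∃ n ∈ (om : M), Cle x n := by
  constructor
  · intro h
    obtain ⟨k, hk⟩ := ENat.ne_top_iff_exists.1 (Set.encard_ne_top_iff.2 h)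
    exact ⟨num k, num_mem_om k, cle_iff.2 hk.symm.le⟩
  · rintro ⟨n, hn, h⟩
    obtain ⟨k, rfl⟩ := mem_om.1 hn
    exact Set.finite_of_encard_le_coe (cle_iff.1 h)

theorem df_cle : Df (fun v : ℕ → M => Cle (v 0) (v 1)) := by
  unfold Cle
  apply_rules (maxDepth := 1000) using is_poly

@[is_poly] theorem Df.cle {s t : (ℕ → M) → M} (hs : Tm s) (ht : Tm t) :
    Df (fun v => Cle (s v) (t v)) := Df.sub2 df_cle hs ht

theorem df_ceq : Df (fun v : ℕ → M => Ceq (v 0) (v 1)) := by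
  unfold Ceq
  apply_rules (maxDepth := 1000) using is_poly

@[is_poly] theorem Df.ceq {s t : (ℕ → M) → M} (hs : Tm s) (ht : Tm t) :
    Df (fun v => Ceq (s v) (t v)) := Df.sub2 df_ceq hs ht

theorem df_fi : Df (fun v : ℕ → M => Fi (v 0)) := by
  refine Df.congr (P := fun v => ∃ n, n ∈ (om : M) ∧ Cle (v 0) n) ?_ fun v => fi_iff.symm
  apply_rules (maxDepth := 1000) using is_poly

@[is_poly] theorem Df.fi {s : (ℕ → M) → M} (hs : Tm s) : Df (fun v => Fi (s v)) := Df.sub1 df_fi hs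

theorem df_inc : Df (fun v : ℕ → M => Inc (v 0) (v 1) (v 2)) := by
  unfold Inc
  apply_rules (maxDepth := 1000) using is_poly

@[is_poly] theorem Df.inc {s t r : (ℕ → M) → M} (hs : Tm s) (ht : Tm t) (hr : Tm r) :
    Df (fun v => Inc (s v) (t v) (r v)) := Df.sub3 df_inc hs ht hr

/-- the set of finite subsets -/
theorem exists_fs (X : M) : ∃ F : M, ∀ y, y ∈ F ↔ IsSub y X ∧ Fi y := by
  obtain ⟨F, hF⟩ := exists_sep (pw X) (P := fun y => Fi y) df_fi
  exact ⟨F, fun y => by rw [hF, mem_pw]⟩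

/-- the set of finite subsets -/
noncomputable def fs (X : M) : M := (exists_fs X).choose

theorem mem_fs {X y : M} : y ∈ fs X ↔ IsSub y X ∧ Fi y := (exists_fs X).choose_spec y

/-- the union of two sets -/
noncomputable def ud (x y : M) : M := un (up x y)

@[simp] theorem mem_ud {x y z : M} : z ∈ ud x y ↔ z ∈ x ∨ z ∈ y := by
  unfold ud
  rw [mem_un]
  constructor
  · rintro ⟨w, hw, hz⟩
    rcases mem_up.1 hw with rfl | rfl
    · exact Or.inl hz
    · exact Or.inr hz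
  · rintro (h | h)
    · exact ⟨_, mem_up.2 (Or.inl rfl), h⟩
    · exact ⟨_, mem_up.2 (Or.inr rfl), h⟩

@[is_poly] theorem Tm.ud {s t : (ℕ → M) → M} (hs : Tm s) (ht : Tm t) :
    Tm (fun v => CVH.ud (s v) (t v)) := by
  unfold CVH.ud
  exact Tm.un (Tm.up hs ht)

theorem Fi.ud {x y : M} (hx : Fi x) (hy : Fi y) : Fi (ud x y) := by
  refine (Set.Finite.union hx hy).subset fun z hz => ?_
  exact mem_ud.1 hz

end Pool.Agent.CVH
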