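import Pool.Agent.CVH.GenA

/-! # Generic extensions: forced facts -/

namespace Pool.Agent.CVH

open ZFM (Fm Sat push Dfn DT IsZF IsPair IsSub Rel IsFun)

universe u

attribute [local irreducible] Tm

variable {V W : Type u} [WZ V] [WZ W] {j : V → W} {P L : V} {G : W}

theorem Frc.mono (ho : IsPo P L) {r p q x : V} (h : Frc P L r p x) (hq : pr q p ∈ L) :
    Frc P L r q x := fun q' hq' h' => h q' hq' (ho.trans _ _ _ h' hq)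

namespace GenExt

variable (hG : GenExt j P L G)
include hG

/-- forced facts are true -/
theorem of_frc (ho : IsPo P L) {a r x p : V} {X : W} (hr : Nm j G a r X) (hx : x ∈ a) (hp : j p ∈ G)
    (h : Frc P L r p x) : j x ∈ X := by
  obtain ⟨q, hq, -, t, ht, hqt⟩ := hG.meet ho (D := fun s => ∃ t, pr t x ∈ r ∧ pr s t ∈ L)
    (Df.ex (Df.and (Df.mem (Tm.pr (Tm.var 0) (Tm.const x)) (Tm.const r))
      (Df.mem (Tm.pr (Tm.var 1) (Tm.var 0)) (Tm.const L)))) hp (by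
    intro q hq
    obtain ⟨s, -, hs, t, ht, hst⟩ := h q (ho.dom _ _ hq).1 hq
    exact ⟨s, hs, t, ht, hst⟩)
  exact (hr x hx).2 ⟨t, hG.up q t hq hqt, ht⟩

/-- true facts are forced -/
theorem exists_frc (ho : IsPo P L) {a r x : V} {X : W} (hr : Nm j G a r X) (hx : x ∈ a) (h : j x ∈ X) :
    ∃ p, j p ∈ G ∧ Frc P L r p x := by
  obtain ⟨p, hp, hpr⟩ := (hr x hx).1 h
  exact ⟨p, hp, fun q hq hqp => ⟨q, hq, ho.refl q hq, p, hpr, hqp⟩⟩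

/-- uniqueness of the value is forced -/
theorem exists_uniq (ho : IsPo P L) {A B r : V} {f : W} (hr : Nm j G (pd A B) r f)
    (hf : ∀ a ∈ A, ∀ y ∈ B, ∀ y' ∈ B, pr (j a) (j y) ∈ f → pr (j a) (j y') ∈ f → y = y') :
    ∃ p, j p ∈ G ∧ ∀ q, pr q p ∈ L → ∀ a ∈ A, ∀ y ∈ B, ∀ y' ∈ B,
      Frc P L r q (pr a y) → Frc P L r q (pr a y') → y = y' := by
  have hF : Df (fun v : ℕ → V => Frc P L r (v 0) (pr (v 1) (v 2))) :=
    Df.frc (Tm.const P) (Tm.const L) (Tm.const r) (Tm.var 0) (Tm.pr (Tm.var 1) (Tm.var 2))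
  have hF' : ∀ {s t u : (ℕ → V) → V}, Tm s → Tm t → Tm u →
      Df (fun v => Frc P L r (s v) (pr (t v) (u v))) :=
    fun hs ht hu => Df.sub3 (R := fun q i a => Frc P L r q (pr i a)) hF hs ht hu
  obtain ⟨p, hp, hav⟩ := hG.avoid ho (D := fun q => ∃ a, a ∈ A ∧ ∃ y, y ∈ B ∧ ∃ y', y' ∈ B ∧
    Frc P L r q (pr a y) ∧ Frc P L r q (pr a y') ∧ ¬ y = y') (by
    refine Df.ex (Df.and (Df.mem (Tm.var 0) (Tm.const A)) (Df.ex (Df.and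
      (Df.mem (Tm.var 0) (Tm.const B)) (Df.ex (Df.and (Df.mem (Tm.var 0) (Tm.const B))
      (Df.and ?_ (Df.and ?_ (Df.not (Df.eq (Tm.var 1) (Tm.var 0))))))))))
    · exact hF' (Tm.var 3) (Tm.var 2) (Tm.var 1)
    · exact hF' (Tm.var 3) (Tm.var 2) (Tm.var 0)) (by
    rintro p hp ⟨a, ha, y, hy, y', hy', h1, h2, h3⟩
    have h4 := hG.of_frc ho hr (pr_mem_pd.2 ⟨ha, hy⟩) hp h1
    have h5 := hG.of_frc ho hr (pr_mem_pd.2 ⟨ha, hy'⟩) hp h2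
    rw [hG.j_pr] at h4 h5
    exact h3 (hf a ha y hy y' hy' h4 h5))
  refine ⟨p, hp, fun q hq a ha y hy y' hy' h1 h2 => ?_⟩
  by_contra h3
  exact hav q hq ⟨a, ha, y, hy, y', hy', h1, h2, h3⟩

end GenExt

/-- the least possible value of an increasing function of the extension -/
theorem exists_inc (hG : GenExt j P L G) (ho : IsPo P L) {ν θ Y : V} (hν : IsOrd ν) (hθ : IsOrd θ)
    {g : W} (hg : Inc g (j ν) (j θ)) (hY : ∀ i ∈ ν, ∀ a ∈ θ, pr (j i) (j a) ∈ g → a ∈ Y) :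
    ∃ g' : V, Inc g' ν θ ∧ ∀ i ∈ ν, ∀ a, pr i a ∈ g' → a ∈ Y := by
  obtain ⟨r, hr⟩ := hG.exists_nm (pd ν θ) g
  have hF : Df (fun v : ℕ → V => Frc P L r (v 0) (pr (v 1) (v 2))) :=
    Df.frc (Tm.const P) (Tm.const L) (Tm.const r) (Tm.var 0) (Tm.pr (Tm.var 1) (Tm.var 2))
  have hF' : ∀ {s t u : (ℕ → V) → V}, Tm s → Tm t → Tm u →
      Df (fun v => Frc P L r (s v) (pr (t v) (u v))) :=
    fun hs ht hu => Df.sub3 (R := fun q i a => Frc P L r q (pr i a)) hF hs ht hu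
  have hL : ∀ {s t : (ℕ → V) → V}, Tm s → Tm t → Df (fun v => pr (s v) (t v) ∈ L) :=
    fun hs ht => Df.mem (Tm.pr hs ht) (Tm.const L)
  obtain ⟨p₁, hp₁, hav⟩ := hG.avoid ho (D := fun q =>
    (∃ i, i ∈ ν ∧ ¬ ∃ s, pr s q ∈ L ∧ ∃ a, a ∈ θ ∧ Frc P L r s (pr i a)) ∨
    (∃ i, i ∈ ν ∧ ∃ a, a ∈ θ ∧ Frc P L r q (pr i a) ∧ a ∉ Y) ∨
    ∃ i, i ∈ ν ∧ ∃ i', i' ∈ ν ∧ i ∈ i' ∧ ∃ a, a ∈ θ ∧ ∃ a', a' ∈ θ ∧ Frc P L r q (pr i a) ∧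
      Frc P L r q (pr i' a') ∧ a ∉ a') (by
    refine Df.or ?_ (Df.or ?_ ?_)
    · refine Df.ex (Df.and (Df.mem (Tm.var 0) (Tm.const ν)) (Df.not (Df.ex (Df.and
        (hL (Tm.var 0) (Tm.var 2)) (Df.ex (Df.and (Df.mem (Tm.var 0) (Tm.const θ)) ?_))))))
      exact hF' (Tm.var 1) (Tm.var 2) (Tm.var 0)
    · refine Df.ex (Df.and (Df.mem (Tm.var 0) (Tm.const ν)) (Df.ex (Df.and
        (Df.mem (Tm.var 0) (Tm.const θ)) (Df.and ?_ (Df.not (Df.mem (Tm.var 0) (Tm.const Y)))))))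
      exact hF' (Tm.var 2) (Tm.var 1) (Tm.var 0)
    · refine Df.ex (Df.and (Df.mem (Tm.var 0) (Tm.const ν)) (Df.ex (Df.and
        (Df.mem (Tm.var 0) (Tm.const ν)) (Df.and (Df.mem (Tm.var 1) (Tm.var 0)) (Df.ex (Df.and
        (Df.mem (Tm.var 0) (Tm.const θ)) (Df.ex (Df.and (Df.mem (Tm.var 0) (Tm.const θ))
        (Df.and ?_ (Df.and ?_ (Df.not (Df.mem (Tm.var 1) (Tm.var 0)))))))))))))
      · exact hF' (Tm.var 4) (Tm.var 3) (Tm.var 1)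
      · exact hF' (Tm.var 4) (Tm.var 2) (Tm.var 0)) (by
    intro p hp
    rintro (⟨i, hi, h⟩ | ⟨i, hi, a, ha, h1, h2⟩ | ⟨i, hi, i', hi', hii, a, ha, a', ha', h1, h2, h3⟩)
    · obtain ⟨b, hb, -⟩ := hg.1 (j i) ((hG.mem _ _).2 hi)
      obtain ⟨a, ha, rfl⟩ := hG.of_mem (hg.2.1 (j i) ((hG.mem _ _).2 hi) b hb)
      have hb' : pr (j i) (j a) ∈ g := hb
      rw [← hG.j_pr] at hb'
      obtain ⟨p', hp', hf⟩ := hG.exists_frc ho hr (pr_mem_pd.2 ⟨hi, ha⟩) hb'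
      obtain ⟨s, -, hs1, hs2⟩ := hG.dir p p' hp hp'
      exact h ⟨s, hs1, a, ha, hf.mono ho hs2⟩
    · have h3 := hG.of_frc ho hr (pr_mem_pd.2 ⟨hi, ha⟩) hp h1
      rw [hG.j_pr] at h3
      exact h2 (hY i hi a ha h3)
    · have h4 := hG.of_frc ho hr (pr_mem_pd.2 ⟨hi, ha⟩) hp h1
      have h5 := hG.of_frc ho hr (pr_mem_pd.2 ⟨hi', ha'⟩) hp h2
      rw [hG.j_pr] at h4 h5
      exact h3 ((hG.mem _ _).1 (hg.2.2 _ ((hG.mem _ _).2 hi) _ ((hG.mem _ _).2 hi')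
        ((hG.mem _ _).2 hii) _ _ h4 h5)))
  have hA : ∀ q, pr q p₁ ∈ L → ∀ i ∈ ν, ∃ s, pr s q ∈ L ∧ ∃ a, a ∈ θ ∧ Frc P L r s (pr i a) := by
    intro q hq i hi
    by_contra h
    exact hav q hq (Or.inl ⟨i, hi, h⟩)
  have hB : ∀ q, pr q p₁ ∈ L → ∀ i ∈ ν, ∀ a ∈ θ, Frc P L r q (pr i a) → a ∈ Y := by
    intro q hq i hi a ha h
    by_contra h'
    exact hav q hq (Or.inr (Or.inl ⟨i, hi, a, ha, h, h'⟩))
  have hC : ∀ q, pr q p₁ ∈ L → ∀ i ∈ ν, ∀ i' ∈ ν, i ∈ i' → ∀ a ∈ θ, ∀ a' ∈ θ,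
      Frc P L r q (pr i a) → Frc P L r q (pr i' a') → a ∈ a' := by
    intro q hq i hi i' hi' hii a ha a' ha' h1 h2
    by_contra h'
    exact hav q hq (Or.inr (Or.inr ⟨i, hi, i', hi', hii, a, ha, a', ha', h1, h2, h'⟩))
  have hp₁P := hG.mem_P hp₁
  obtain ⟨g', -, hg'⟩ := exists_rel2 ν θ (R := fun i a => (∃ q, pr q p₁ ∈ L ∧
    Frc P L r q (pr i a)) ∧ ∀ c, c ∈ a → ¬ ∃ q, pr q p₁ ∈ L ∧ Frc P L r q (pr i c)) (by
    refine Df.and (Df.ex (Df.and (hL (Tm.var 0) (Tm.const p₁)) ?_)) (Df.all (Df.imp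
      (Df.mem (Tm.var 0) (Tm.var 2)) (Df.not (Df.ex (Df.and (hL (Tm.var 0) (Tm.const p₁)) ?_)))))
    · exact hF' (Tm.var 0) (Tm.var 1) (Tm.var 2)
    · exact hF' (Tm.var 0) (Tm.var 2) (Tm.var 1))
  have hex : ∀ i ∈ ν, ∃ a, pr i a ∈ g' := by
    intro i hi
    obtain ⟨s, hs, a, ha, hf⟩ := hA p₁ (ho.refl _ hp₁P) i hi
    obtain ⟨b, hb, ⟨hbθ, hb1⟩, hb2⟩ := exists_least (P := fun c => c ∈ θ ∧ ∃ q, pr q p₁ ∈ L ∧
      Frc P L r q (pr i c)) (hθ.mem ha) ⟨ha, s, hs, hf⟩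
    refine ⟨b, (hg' _ _).2 ⟨hi, hbθ, hb1, fun c hc hc' => ?_⟩⟩
    rcases hb2 c (hb.mem hc) ⟨hθ.tr hbθ hc, hc'⟩ with h | h
    · exact mem_irrefl b (hb.tr hc h)
    · rw [h] at hc
      exact mem_irrefl _ hc
  have hmin : ∀ i a, pr i a ∈ g' → ∀ c ∈ θ, (∃ q, pr q p₁ ∈ L ∧ Frc P L r q (pr i c)) →
      a ∈ c ∨ a = c := by
    intro i a h c hc hq
    obtain ⟨-, ha, -, h2⟩ := (hg' _ _).1 h
    rcases (hθ.mem ha).tri (hθ.mem hc) with h3 | h3 | h3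
    · exact Or.inl h3
    · exact Or.inr h3
    · exact absurd hq (h2 c h3)
  refine ⟨g', ⟨fun i hi => ?_, fun i _ a ha => ((hg' _ _).1 ha).2.1, ?_⟩, ?_⟩
  · obtain ⟨a, ha⟩ := hex i hi
    refine ⟨a, ha, fun b hb => ?_⟩
    obtain ⟨-, haθ, ha1, -⟩ := (hg' _ _).1 ha
    have hb' : pr i b ∈ g' := hb
    obtain ⟨-, hbθ, hb1, -⟩ := (hg' _ _).1 hb'
    rcases hmin i a ha b hbθ hb1 with h | h
    · rcases hmin i b hb' a haθ ha1 with h' | h'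
      · exact absurd ((hθ.mem haθ).tr h' h) (mem_irrefl a)
      · exact h'
    · exact h.symm
  · intro i hi i' hi' hii a a' ha ha'
    obtain ⟨-, haθ, -, -⟩ := (hg' _ _).1 ha
    obtain ⟨-, haθ', ⟨q, hq, hf⟩, -⟩ := (hg' _ _).1 ha'
    obtain ⟨s, hs, c, hc, hfc⟩ := hA q hq i hi
    have hs1 := ho.trans _ _ _ hs hq
    have h1 := hC s hs1 i hi i' hi' hii c hc a' haθ' hfc (hf.mono ho hs)
    rcases hmin i a ha c hc ⟨s, hs1, hfc⟩ with h | h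
    · exact (hθ.mem haθ').tr h1 h
    · rw [h]
      exact h1
  · intro i hi a ha
    obtain ⟨-, haθ, ⟨q, hq, hf⟩, -⟩ := (hg' _ _).1 ha
    exact hB q hq i hi a haθ hf

end Pool.Agent.CVH
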