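import Pool.Agent.CVH.Fin

/-! # Generic extensions: absoluteness, names, density arguments -/

namespace Pool.Agent.CVH

open ZFM (Fm Sat push Dfn DT IsZF IsPair IsSub Rel IsFun)

universe u

attribute [local irreducible] Tm

variable {V W : Type u} [WZ V] [WZ W] {j : V → W} {P L : V} {G : W}

@[is_poly] theorem Df.frc {P L r p x : (ℕ → V) → V} (h1 : Tm P) (h2 : Tm L) (h3 : Tm r) (h4 : Tm p)
    (h5 : Tm x) : Df (fun v => Frc (P v) (L v) (r v) (p v) (x v)) := by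
  refine Df.sub5 (R := fun P L r p x => Frc P L r p x) ?_ h1 h2 h3 h4 h5
  unfold Frc
  apply_rules (maxDepth := 1000) [Df.all, Df.ex, Df.imp, Df.and, Df.mem, Tm.pr, Tm.var]

theorem pr_eq_up (x y : V) : pr x y = up (up x x) (up x y) := by
  symm
  rw [← isPair_iff]
  intro w
  rw [mem_up, eq_up, eq_up]
  simp only [or_self]

namespace GenExt

variable (hG : GenExt j P L G)
include hG

theorem of_mem {y : W} {x : V} (h : y ∈ j x) : ∃ z ∈ x, y = j z := by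
  obtain ⟨z, rfl⟩ := hG.tr x y h
  exact ⟨z, (hG.mem z x).1 h, rfl⟩

/-- equality with the image of a set -/
theorem j_eq {s : V} {t : W} (h1 : ∀ z ∈ t, ∃ z', z = j z') (h2 : ∀ z, z ∈ s ↔ j z ∈ t) :
    j s = t := by
  refine WZ.ext fun z => ?_
  constructor
  · intro h
    obtain ⟨z', hz', rfl⟩ := hG.of_mem h
    exact (h2 z').1 hz'
  · intro h
    obtain ⟨z', rfl⟩ := h1 z h
    exact (hG.mem _ _).2 ((h2 z').2 h)

theorem j_up (x y : V) : j (CVH.up x y) = CVH.up (j x) (j y) := by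
  refine hG.j_eq (fun z hz => ?_) fun z => ?_
  · rcases mem_up.1 hz with rfl | rfl
    · exact ⟨x, rfl⟩
    · exact ⟨y, rfl⟩
  · rw [mem_up, mem_up, hG.inj.eq_iff, hG.inj.eq_iff]

theorem j_pr (x y : V) : j (pr x y) = pr (j x) (j y) := by
  rw [pr_eq_up, pr_eq_up, hG.j_up, hG.j_up, hG.j_up]

theorem j_un (x : V) : j (un x) = un (j x) := by
  refine hG.j_eq (fun z hz => ?_) fun z => ?_
  · obtain ⟨y, hy, hz⟩ := mem_un.1 hz
    obtain ⟨y', -, rfl⟩ := hG.of_mem hy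
    obtain ⟨z', -, rfl⟩ := hG.of_mem hz
    exact ⟨z', rfl⟩
  · rw [mem_un, mem_un]
    constructor
    · rintro ⟨y, hy, hz⟩
      exact ⟨j y, (hG.mem _ _).2 hy, (hG.mem _ _).2 hz⟩
    · rintro ⟨y, hy, hz⟩
      obtain ⟨y', hy', rfl⟩ := hG.of_mem hy
      exact ⟨y', hy', (hG.mem _ _).1 hz⟩

theorem j_emp : j emp = emp :=
  hG.j_eq (fun z hz => absurd hz (notMem_emp z)) fun z =>
    iff_of_false (notMem_emp z) (notMem_emp _)

theorem j_ins (x y : V) : j (ins x y) = ins (j x) (j y) := by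
  unfold ins
  rw [hG.j_un, hG.j_up, hG.j_up]

theorem j_sc (x : V) : j (sc x) = sc (j x) := hG.j_ins x x

theorem j_ud (x y : V) : j (ud x y) = ud (j x) (j y) := by
  unfold ud
  rw [hG.j_un, hG.j_up]

theorem j_num (n : ℕ) : j (num n) = num n := by
  induction n with
  | zero => exact hG.j_emp
  | succ n ih => rw [num_succ, num_succ, hG.j_sc, ih]

theorem j_om : j om = om := by
  refine hG.j_eq (fun z hz => ?_) fun z => ?_
  · obtain ⟨n, rfl⟩ := mem_om.1 hz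
    exact ⟨num n, (hG.j_num n).symm⟩
  · rw [mem_om, mem_om]
    refine exists_congr fun n => ?_
    rw [← hG.j_num, hG.inj.eq_iff]

theorem j_pd (x y : V) : j (pd x y) = pd (j x) (j y) := by
  refine hG.j_eq (fun z hz => ?_) fun z => ?_
  · obtain ⟨a, ha, b, hb, rfl⟩ := mem_pd.1 hz
    obtain ⟨a', -, rfl⟩ := hG.of_mem ha
    obtain ⟨b', -, rfl⟩ := hG.of_mem hb
    exact ⟨pr a' b', (hG.j_pr a' b').symm⟩
  · rw [mem_pd, mem_pd]
    constructor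
    · rintro ⟨a, ha, b, hb, rfl⟩
      exact ⟨j a, (hG.mem _ _).2 ha, j b, (hG.mem _ _).2 hb, hG.j_pr a b⟩
    · rintro ⟨a, ha, b, hb, h⟩
      obtain ⟨a', ha', rfl⟩ := hG.of_mem ha
      obtain ⟨b', hb', rfl⟩ := hG.of_mem hb
      rw [← hG.j_pr, hG.inj.eq_iff] at h
      exact ⟨a', ha', b', hb', h⟩

/-- pairs in sets of the ground model have components in the ground model -/
theorem of_pr {x y : W} {w : V} (h : pr x y = j w) : ∃ x' y', x = j x' ∧ y = j y' ∧ w = pr x' y' := by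
  rw [pr_eq_up] at h
  have h1 : CVH.up x y ∈ j w := h ▸ mem_up.2 (Or.inr rfl)
  obtain ⟨u, -, hu⟩ := hG.of_mem h1
  obtain ⟨x', -, rfl⟩ := hG.of_mem (hu ▸ (mem_up.2 (Or.inl rfl) : x ∈ CVH.up x y))
  obtain ⟨y', -, rfl⟩ := hG.of_mem (hu ▸ (mem_up.2 (Or.inr rfl) : y ∈ CVH.up (j x') y))
  refine ⟨x', y', rfl, rfl, ?_⟩
  rw [← pr_eq_up, ← hG.j_pr, hG.inj.eq_iff] at h
  exact h.symm

theorem of_pr_mem {x y : W} {g : V} (h : pr x y ∈ j g) :
    ∃ x' y', x = j x' ∧ y = j y' ∧ pr x' y' ∈ g := by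
  obtain ⟨w, hw, e⟩ := hG.of_mem h
  obtain ⟨x', y', h1, h2, rfl⟩ := hG.of_pr e
  exact ⟨x', y', h1, h2, hw⟩

theorem pr_mem {x y g : V} : pr (j x) (j y) ∈ j g ↔ pr x y ∈ g := by
  rw [← hG.j_pr, hG.mem]

theorem j_isSub {x y : V} : IsSub (j x) (j y) ↔ IsSub x y := by
  constructor
  · intro h z hz
    exact (hG.mem _ _).1 (h (j z) ((hG.mem _ _).2 hz))
  · intro h z hz
    obtain ⟨z', hz', rfl⟩ := hG.of_mem hz
    exact (hG.mem _ _).2 (h z' hz')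

theorem j_isOrd {x : V} : IsOrd (j x) ↔ IsOrd x := by
  constructor
  · rintro ⟨h1, h2⟩
    refine ⟨fun y hy z hz => ?_, fun y hy z hz w hw => ?_⟩
    · exact (hG.mem _ _).1 (h1 (j y) ((hG.mem _ _).2 hy) (j z) ((hG.mem _ _).2 hz))
    · exact (hG.mem _ _).1 (h2 (j y) ((hG.mem _ _).2 hy) (j z) ((hG.mem _ _).2 hz) (j w)
        ((hG.mem _ _).2 hw))
  · rintro ⟨h1, h2⟩
    refine ⟨fun y hy z hz => ?_, fun y hy z hz w hw => ?_⟩
    · obtain ⟨y', hy', rfl⟩ := hG.of_mem hy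
      obtain ⟨z', hz', rfl⟩ := hG.of_mem hz
      exact (hG.mem _ _).2 (h1 y' hy' z' hz')
    · obtain ⟨y', hy', rfl⟩ := hG.of_mem hy
      obtain ⟨z', hz', rfl⟩ := hG.of_mem hz
      obtain ⟨w', hw', rfl⟩ := hG.of_mem hw
      exact (hG.mem _ _).2 (h2 y' hy' z' hz' w' hw')

theorem setOf_mem (x : V) : {y | y ∈ j x} = j '' {y | y ∈ x} := by
  ext y
  constructor
  · intro h
    obtain ⟨z, hz, rfl⟩ := hG.of_mem h
    exact ⟨z, hz, rfl⟩
  · rintro ⟨z, hz, rfl⟩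
    exact (hG.mem _ _).2 hz

theorem j_fi {x : V} : Fi (j x) ↔ Fi x := by
  unfold Fi
  rw [hG.setOf_mem]
  exact Set.finite_image_iff hG.inj.injOn

/-- finite subsets of j x are in V -/
theorem exists_of_fi {y : W} {x : V} (hy : Fi y) (h : IsSub y (j x)) : ∃ z, y = j z ∧ IsSub z x := by
  have h1 : {z : V | j z ∈ y}.Finite := Set.Finite.preimage hG.inj.injOn hy
  obtain ⟨u, hu⟩ := exists_fin h1
  refine ⟨u, (hG.j_eq (fun z hz => ?_) fun z => hu z).symm, fun z hz => ?_⟩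
  · obtain ⟨z', -, e⟩ := hG.of_mem (h z hz)
    exact ⟨z', e⟩
  · exact (hG.mem _ _).1 (h _ ((hu z).1 hz))

theorem j_inc {g h θ : V} (hg : Inc g h θ) : Inc (j g) (j h) (j θ) := by
  obtain ⟨h1, h2, h3⟩ := hg
  refine ⟨fun i hi => ?_, fun i hi a ha => ?_, fun i hi i' hi' hii a a' ha ha' => ?_⟩
  · obtain ⟨i₀, hi₀, rfl⟩ := hG.of_mem hi
    obtain ⟨a, ha, hu⟩ := h1 i₀ hi₀
    refine ⟨j a, hG.pr_mem.2 ha, fun b hb => ?_⟩
    obtain ⟨i', b', e, rfl, hb'⟩ := hG.of_pr_mem hb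
    obtain rfl := hG.inj e
    rw [hu b' hb']
  · obtain ⟨i', a', rfl, rfl, ha₀⟩ := hG.of_pr_mem ha
    exact (hG.mem _ _).2 (h2 i' ((hG.mem _ _).1 hi) a' ha₀)
  · obtain ⟨i₀, a₀, rfl, rfl, ha₀⟩ := hG.of_pr_mem ha
    obtain ⟨i₁, a₁, rfl, rfl, ha₁⟩ := hG.of_pr_mem ha'
    exact (hG.mem _ _).2 (h3 i₀ ((hG.mem _ _).1 hi) i₁ ((hG.mem _ _).1 hi') ((hG.mem _ _).1 hii)
      a₀ a₁ ha₀ ha₁)

/-- an arbitrary subset of a set in V has a name -/
theorem exists_nm (a : V) (X : W) : ∃ r : V, Nm j G a r X := by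
  obtain ⟨Y, hY⟩ := exists_sep X (P := fun z => z ∈ j a) (Df.mem (Tm.var 0) (Tm.const _))
  obtain ⟨r, hr⟩ := hG.names a Y fun z hz => ((hY z).1 hz).2
  refine ⟨r, fun x hx => ?_⟩
  rw [← hr x hx, hY]
  exact ⟨fun h => ⟨h, (hG.mem _ _).2 hx⟩, fun h => h.1⟩

theorem mem_P {p : V} (hp : j p ∈ G) : p ∈ P := by
  obtain ⟨q, hq, e⟩ := hG.sub _ hp
  rw [hG.inj e]
  exact hq

theorem nonempty : ∃ p, j p ∈ G := by
  obtain ⟨r, hr⟩ := hG.exists_nm (num 1) (j (num 1))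
  have h0 : (emp : V) ∈ (num 1 : V) := by
    rw [num_succ, num_zero, mem_sc]
    exact Or.inl rfl
  obtain ⟨p, hp, -⟩ := (hr emp h0).1 ((hG.mem _ _).2 h0)
  exact ⟨p, hp⟩

/-- a definable set of conditions which contains no condition of G is avoided below a condition of G -/
theorem avoid (ho : IsPo P L) {D : V → Prop} (hD : Df (fun v => D (v 0))) (h : ∀ p, j p ∈ G → ¬ D p) :
    ∃ p, j p ∈ G ∧ ∀ q, pr q p ∈ L → ¬ D q := by
  obtain ⟨E, hE⟩ := exists_sep P (P := fun p => D p ∨ ∀ q, pr q p ∈ L → ¬ D q) (by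
    exact Df.or hD (Df.all (Df.imp (Df.mem (Tm.pr (Tm.var 0) (Tm.var 1)) (Tm.const L))
      (Df.not (Df.sub1 hD (Tm.var 0))))))
  obtain ⟨p, hp, hpG⟩ := hG.meets E fun p hp => by
    by_cases hq : ∃ q, pr q p ∈ L ∧ D q
    · obtain ⟨q, hq1, hq2⟩ := hq
      have hqP := (ho.dom q p hq1).1
      exact ⟨q, (hE q).2 ⟨hqP, Or.inl hq2⟩, hqP, hq1⟩
    · refine ⟨p, (hE p).2 ⟨hp, Or.inr fun q hq1 hq2 => hq ⟨q, hq1, hq2⟩⟩, hp, ho.refl p hp⟩
  exact ⟨p, hpG, (((hE p).1 hp).2).resolve_left (h p hpG)⟩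

/-- a definable set of conditions which is dense below a condition of G meets G -/
theorem meet (ho : IsPo P L) {D : V → Prop} (hD : Df (fun v => D (v 0))) {p : V} (hp : j p ∈ G)
    (h : ∀ q, pr q p ∈ L → ∃ s, pr s q ∈ L ∧ D s) : ∃ q, j q ∈ G ∧ pr q p ∈ L ∧ D q := by
  by_contra hn
  obtain ⟨p1, hp1, h1⟩ := hG.avoid ho (D := fun q => pr q p ∈ L ∧ D q) (by
    exact Df.and (Df.mem (Tm.pr (Tm.var 0) (Tm.const p)) (Tm.const L)) hD) fun q hq hq' => hn ⟨q, hq, hq'.1, hq'.2⟩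
  obtain ⟨r, -, hr1, hr2⟩ := hG.dir p1 p hp1 hp
  obtain ⟨s, hs, hD'⟩ := h r hr2
  exact h1 s (ho.trans _ _ _ hs hr1) ⟨ho.trans _ _ _ hs hr2, hD'⟩

end GenExt

end Pool.Agent.CVH
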