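import Pool.Agent.CVH.Name
import Pool.Agent.CVH.Fn

/-! # The iteration of Hechler forcing: order, restriction, amalgamation -/

namespace Pool.Agent.CVH

open ZFM (Fm Sat push Dfn DT IsZF IsPair IsSub Rel IsFun)

universe u

variable {V : Type u} [WZ V] {l : V} {P L : V → V}

theorem exists_res (p γ : V) : ∃ q, IsRes q p γ :=
  exists_sep p (P := fun x => ∃ β, β ∈ γ ∧ ∃ y, x = pr β y)
    (Df.ex (Df.and (Df.mem (Tm.var 0) (Tm.const γ))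
      (Df.ex (Df.eq (Tm.var 2) (Tm.pr (Tm.var 1) (Tm.var 0))))))

/-- the restriction of p to γ -/
noncomputable def res (p γ : V) : V := (exists_res p γ).choose

theorem mem_res {p γ x : V} : x ∈ res p γ ↔ x ∈ p ∧ ∃ β ∈ γ, ∃ y, x = pr β y :=
  (exists_res p γ).choose_spec x

theorem isRes_iff {q p γ : V} : IsRes q p γ ↔ q = res p γ :=
  ⟨fun h => WZ.ext fun x => (h x).trans mem_res.symm, fun h => h ▸ (exists_res p γ).choose_spec⟩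

theorem pr_mem_res {p γ β y : V} : pr β y ∈ res p γ ↔ pr β y ∈ p ∧ β ∈ γ := by
  rw [mem_res]
  constructor
  · rintro ⟨h, β', hβ', y', e⟩
    obtain ⟨rfl, rfl⟩ := pr_inj.1 e
    exact ⟨h, hβ'⟩
  · rintro ⟨h, hβ⟩
    exact ⟨h, β, hβ, y, rfl⟩

theorem res_res {p γ δ : V} (h : ∀ x ∈ δ, x ∈ γ) : res (res p γ) δ = res p δ :=
  WZ.ext fun x => by
    rw [mem_res, mem_res, mem_res]
    constructor
    · rintro ⟨⟨h1, _⟩, h2⟩
      exact ⟨h1, h2⟩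
    · rintro ⟨h1, β, hβ, y, e⟩
      exact ⟨⟨h1, β, h β hβ, y, e⟩, β, hβ, y, e⟩

section

variable (hH : IsHechler l P L)
include hH

theorem hech_fun {β p : V} (hβ : β ∈ sc l) (hp : p ∈ P β) {γ y y' : V} (h : pr γ y ∈ p)
    (h' : pr γ y' ∈ p) : y = y' := ((hH.mem β hβ p).1 hp).2.2 γ y y' h h'

theorem hech_coord {β p : V} (hβ : β ∈ sc l) (hp : p ∈ P β) {γ s f : V} (h : pr γ (pr s f) ∈ p) :
    γ ∈ β ∧ IsStem s ∧ IsName (P γ) (L γ) f := by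
  obtain ⟨γ', hγ', s', f', e, h1, h2⟩ := ((hH.mem β hβ p).1 hp).2.1 _ h
  obtain ⟨e1, e2⟩ := pr_inj.1 e
  obtain ⟨e3, e4⟩ := pr_inj.1 e2
  subst e1 e3 e4
  exact ⟨hγ', h1, h2⟩

theorem hech_ex {β p : V} (hβ : β ∈ sc l) (hp : p ∈ P β) {γ y : V} (h : pr γ y ∈ p) :
    ∃ s f, y = pr s f := by
  obtain ⟨γ', hγ', s', f', e, h1, h2⟩ := ((hH.mem β hβ p).1 hp).2.1 _ h
  exact ⟨_, _, (pr_inj.1 e).2⟩

/-- how to prove `r ≤ p` -/
theorem hech_le_of {β p r : V} (hβ : β ∈ sc l) (hr : r ∈ P β) (hp : p ∈ P β)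
    (h : ∀ δ s f, pr δ (pr s f) ∈ p → pr δ (pr s f) ∈ r ∨ ∃ t g, pr δ (pr t g) ∈ r ∧ IsSub s t ∧
      FLe (P δ) (L δ) (res r δ) f g ∧ ∀ n m : ℕ, pr (num n) (num m) ∈ t →
        pr (num n) (num m) ∉ s → FVal (P δ) (L δ) (res r δ) f n m) : pr r p ∈ L β := by
  refine (hH.ord β hβ r p).2 ⟨hr, hp, fun δ s f hd => ?_⟩
  rcases h δ s f hd with h1 | ⟨t, g, h1, h2, h3, h4⟩
  · refine ⟨s, f, h1, fun _ h => h, fun q' _ => ⟨FLe.refl (hech_coord hH hβ hp hd).2.2, ?_⟩⟩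
    intro n m hm hm'
    exact absurd hm hm'
  · refine ⟨t, g, h1, h2, fun q' hq' => ?_⟩
    rw [isRes_iff] at hq'
    subst hq'
    exact ⟨h3, h4⟩

/-- what `q ≤ p` means -/
theorem hech_of_le {β p q : V} (hβ : β ∈ sc l) (h : pr q p ∈ L β) {δ s f : V}
    (hd : pr δ (pr s f) ∈ p) : ∃ t g, pr δ (pr t g) ∈ q ∧ IsSub s t ∧
      FLe (P δ) (L δ) (res q δ) f g ∧ ∀ n m : ℕ, pr (num n) (num m) ∈ t →
        pr (num n) (num m) ∉ s → FVal (P δ) (L δ) (res q δ) f n m := by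
  obtain ⟨t, g, h1, h2, h3⟩ := ((hH.ord β hβ q p).1 h).2.2 δ s f hd
  have := h3 _ (isRes_iff.2 rfl)
  exact ⟨t, g, h1, h2, this.1, this.2⟩

theorem hech_dom {β p q : V} (hβ : β ∈ sc l) (h : pr q p ∈ L β) : q ∈ P β ∧ p ∈ P β :=
  ⟨((hH.ord β hβ q p).1 h).1, ((hH.ord β hβ q p).1 h).2.1⟩

end

section

variable (hl : IsOrd l) (hH : IsHechler l P L)
include hl

theorem hech_mem_sc {β γ : V} (hβ : β ∈ sc l) (hγ : γ ∈ β) : γ ∈ sc l := by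
  rcases mem_sc.1 hβ with rfl | h
  · exact mem_sc.2 (Or.inr hγ)
  · exact mem_sc.2 (Or.inr (hl.tr h hγ))

theorem hech_ord_of {β : V} (hβ : β ∈ sc l) : IsOrd β := hl.sc.mem hβ

include hH

theorem hech_res {β γ p : V} (hβ : β ∈ sc l) (hγ : γ ∈ β)
    (hp : p ∈ P β) : res p γ ∈ P γ := by
  have hg := hech_mem_sc hl hβ hγ
  refine (hH.mem γ hg _).2 ⟨Fi.sub ((hH.mem β hβ p).1 hp).1 fun x hx => (mem_res.1 hx).1, ?_, ?_⟩
  · intro x hx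
    obtain ⟨h1, β', hβ', y, rfl⟩ := mem_res.1 hx
    obtain ⟨s, f, rfl⟩ := hech_ex hH hβ hp h1
    obtain ⟨_, h3, h4⟩ := hech_coord hH hβ hp h1
    exact ⟨β', hβ', s, f, rfl, h3, h4⟩
  · intro δ y y' h h'
    exact hech_fun hH hβ hp (pr_mem_res.1 h).1 (pr_mem_res.1 h').1

theorem hech_sub {β γ p : V} (hβ : β ∈ sc l) (hγ : γ ∈ β)
    (hp : p ∈ P γ) : p ∈ P β := by
  have hg := hech_mem_sc hl hβ hγ
  have := (hH.mem γ hg p).1 hp
  refine (hH.mem β hβ p).2 ⟨this.1, fun x hx => ?_, this.2.2⟩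
  obtain ⟨γ', hγ', s, f, e, h⟩ := this.2.1 x hx
  exact ⟨γ', (hech_ord_of hl hβ).tr hγ hγ', s, f, e, h⟩

theorem hech_sub_le {β γ p q : V} (hβ : β ∈ sc l) (hγ : γ ∈ β)
    (hp : p ∈ P γ) (hq : q ∈ P γ) : pr q p ∈ L β ↔ pr q p ∈ L γ := by
  have hg := hech_mem_sc hl hβ hγ
  rw [hH.ord β hβ, hH.ord γ hg]
  exact ⟨fun h => ⟨hq, hp, h.2.2⟩,
    fun h => ⟨hech_sub hl hH hβ hγ hq, hech_sub hl hH hβ hγ hp, h.2.2⟩⟩

theorem hech_res_le {β γ p q : V} (hβ : β ∈ sc l) (hγ : γ ∈ β)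
    (h : pr q p ∈ L β) : pr (res q γ) (res p γ) ∈ L γ := by
  have hg := hech_mem_sc hl hβ hγ
  have hd := hech_dom hH hβ h
  refine hech_le_of hH hg (hech_res hl hH hβ hγ hd.1) (hech_res hl hH hβ hγ hd.2) ?_
  intro δ s f hδ
  obtain ⟨h1, h2⟩ := pr_mem_res.1 hδ
  obtain ⟨t, g, h3, h4, h5, h6⟩ := hech_of_le hH hβ h h1
  have e : res (res q γ) δ = res q δ := res_res fun x hx => (hech_ord_of hl hg).tr h2 hx
  refine Or.inr ⟨t, g, pr_mem_res.2 ⟨h3, h2⟩, h4, ?_⟩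
  rw [e]
  exact ⟨h5, h6⟩

theorem hech_po {β : V} (hβ : β ∈ sc l) : IsPo (P β) (L β) := by
  refine ord_induction (P := fun b => b ∈ sc l → IsPo (P b) (L b)) ?_ (hech_ord_of hl hβ) hβ
  intro b _ ih hb
  refine ⟨fun p q h => hech_dom hH hb h, fun p hp => ?_, fun p q r h1 h2 => ?_⟩
  · exact hech_le_of hH hb hp hp fun δ s f h => Or.inl h
  · have hd1 := hech_dom hH hb h1
    have hd2 := hech_dom hH hb h2
    refine hech_le_of hH hb hd1.1 hd2.2 fun δ s f h => ?_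
    obtain ⟨t, g, h3, h4, h5, h6⟩ := hech_of_le hH hb h2 h
    obtain ⟨u, k, h3', h4', h5', h6'⟩ := hech_of_le hH hb h1 h3
    obtain ⟨hδ, _, hg⟩ := hech_coord hH hb hd2.1 h3
    have ho := ih δ hδ (hech_mem_sc hl hb hδ)
    have hle := hech_res_le hl hH hb hδ h1
    have h7 : FLe (P δ) (L δ) (res p δ) f g := FLe.mono ho h5 hle
    refine Or.inr ⟨u, k, h3', fun x hx => h4' x (h4 x hx), FLe.trans ho hg h7 h5', ?_⟩
    intro n m hu hs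
    by_cases ht : pr (num n) (num m) ∈ t
    · exact FVal.mono ho (h6 n m ht hs) hle
    · exact FLe.fval ho hg h7 (h6' n m hu ht)

theorem hech_emp {β : V} (hβ : β ∈ sc l) : emp ∈ P β := by
  refine (hH.mem β hβ _).2 ⟨?_, fun x hx => absurd hx (notMem_emp x),
    fun γ y y' h _ => absurd h (notMem_emp _)⟩
  have : {y : V | y ∈ (emp : V)} = ∅ := by
    ext y
    exact ⟨fun h => absurd h (notMem_emp y), fun h => h.elim⟩
  unfold Fi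
  rw [this]
  exact Set.finite_empty

/-- amalgamation: `q ∈ P γ` below the restriction of `p` -/
theorem hech_amalg {β γ p q : V} (hβ : β ∈ sc l) (hγ : γ ∈ β)
    (hp : p ∈ P β) (hq : pr q (res p γ) ∈ L γ) : ∃ r, pr r p ∈ L β ∧ pr r q ∈ L β ∧ res r γ = q ∧
      ∀ δ y, δ ∉ γ → (pr δ y ∈ r ↔ pr δ y ∈ p) := by
  have hg := hech_mem_sc hl hβ hγ
  have hqP := (hech_dom hH hg hq).1
  have hqPβ := hech_sub hl hH hβ hγ hqP
  obtain ⟨r, hr⟩ := exists_sep (ud q p)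
    (P := fun x => x ∈ q ∨ ¬ ∃ β', β' ∈ γ ∧ ∃ y, x = pr β' y)
    (Df.or (Df.mem (Tm.var 0) (Tm.const q)) (Df.not (Df.ex (Df.and (Df.mem (Tm.var 0) (Tm.const γ))
      (Df.ex (Df.eq (Tm.var 2) (Tm.pr (Tm.var 1) (Tm.var 0))))))))
  have hrp : ∀ δ y, pr δ y ∈ r ↔ (δ ∈ γ ∧ pr δ y ∈ q) ∨ (δ ∉ γ ∧ pr δ y ∈ p) := by
    intro δ y
    rw [hr, mem_ud]
    constructor
    · rintro ⟨h1, h2⟩
      by_cases hδ : δ ∈ γ
      · rcases h2 with h2 | h2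
        · exact Or.inl ⟨hδ, h2⟩
        · exact absurd ⟨δ, hδ, y, rfl⟩ h2
      · rcases h1 with h1 | h1
        · obtain ⟨s, f, rfl⟩ := hech_ex hH hg hqP h1
          exact absurd (hech_coord hH hg hqP h1).1 hδ
        · exact Or.inr ⟨hδ, h1⟩
    · rintro (⟨h1, h2⟩ | ⟨h1, h2⟩)
      · exact ⟨Or.inl h2, Or.inl h2⟩
      · refine ⟨Or.inr h2, Or.inr ?_⟩
        rintro ⟨β', hβ', y', e⟩
        obtain ⟨rfl, rfl⟩ := pr_inj.1 e
        exact h1 hβ'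
  have hrx : ∀ x ∈ r, ∃ δ y, x = pr δ y := by
    intro x hx
    rcases mem_ud.1 ((hr x).1 hx).1 with h | h
    · obtain ⟨γ', _, s, f, e, _⟩ := ((hH.mem β hβ q).1 hqPβ).2.1 x h
      exact ⟨_, _, e⟩
    · obtain ⟨γ', _, s, f, e, _⟩ := ((hH.mem β hβ p).1 hp).2.1 x h
      exact ⟨_, _, e⟩
  have hrP : r ∈ P β := by
    refine (hH.mem β hβ r).2 ⟨?_, ?_, ?_⟩
    · exact Fi.sub (Fi.ud ((hH.mem β hβ q).1 hqPβ).1 ((hH.mem β hβ p).1 hp).1)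
        fun x hx => ((hr x).1 hx).1
    · intro x hx
      rcases mem_ud.1 ((hr x).1 hx).1 with h | h
      · exact ((hH.mem β hβ q).1 hqPβ).2.1 x h
      · exact ((hH.mem β hβ p).1 hp).2.1 x h
    · intro δ y y' h h'
      rcases (hrp δ y).1 h with h1 | h1 <;> rcases (hrp δ y').1 h' with h2 | h2
      · exact hech_fun hH hβ hqPβ h1.2 h2.2
      · exact absurd h1.1 h2.1
      · exact absurd h2.1 h1.1
      · exact hech_fun hH hβ hp h1.2 h2.2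
  have hres : ∀ δ, (∀ x ∈ δ, x ∈ γ) → res r δ = res q δ := by
    intro δ hδ
    refine WZ.ext fun x => ?_
    rw [mem_res, mem_res]
    constructor
    · rintro ⟨h1, β', hβ', y, rfl⟩
      rcases (hrp _ _).1 h1 with h | h
      · exact ⟨h.2, β', hβ', y, rfl⟩
      · exact absurd (hδ _ hβ') h.1
    · rintro ⟨h1, β', hβ', y, rfl⟩
      exact ⟨(hrp _ _).2 (Or.inl ⟨hδ _ hβ', h1⟩), β', hβ', y, rfl⟩
  have hresq : res q γ = q := by
    refine WZ.ext fun x => ?_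
    rw [mem_res]
    refine ⟨fun h => h.1, fun h => ⟨h, ?_⟩⟩
    obtain ⟨γ', h1, s, f, e, _⟩ := ((hH.mem γ hg q).1 hqP).2.1 x h
    exact ⟨γ', h1, _, e⟩
  refine ⟨r, ?_, ?_, ?_, ?_⟩
  · refine hech_le_of hH hβ hrP hp fun δ s f h => ?_
    by_cases hδ : δ ∈ γ
    · obtain ⟨t, g, h1, h2, h3⟩ := hech_of_le hH hg hq (pr_mem_res.2 ⟨h, hδ⟩)
      refine Or.inr ⟨t, g, (hrp _ _).2 (Or.inl ⟨hδ, h1⟩), h2, ?_⟩
      rw [hres δ fun x hx => (hech_ord_of hl hg).tr hδ hx]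
      exact h3
    · exact Or.inl ((hrp _ _).2 (Or.inr ⟨hδ, h⟩))
  · refine hech_le_of hH hβ hrP hqPβ fun δ s f h => Or.inl ?_
    exact (hrp _ _).2 (Or.inl ⟨(hech_coord hH hg hqP h).1, h⟩)
  · rw [hres γ fun x hx => hx, hresq]
  · intro δ y hδ
    rw [hrp]
    exact ⟨fun h => h.elim (fun h => absurd h.1 hδ) fun h => h.2, fun h => Or.inr ⟨hδ, h⟩⟩

/-- change of one coordinate -/
theorem hech_step {β γ p s f t g : V} (hβ : β ∈ sc l) (hγ : γ ∈ β)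
    (hp : p ∈ P β) (hsf : pr γ (pr s f) ∈ p) (ht : IsStem t) (hg : IsName (P γ) (L γ) g) (hst : IsSub s t)
    (h1 : FLe (P γ) (L γ) (res p γ) f g) (h2 : ∀ n m : ℕ, pr (num n) (num m) ∈ t →
      pr (num n) (num m) ∉ s → FVal (P γ) (L γ) (res p γ) f n m) :
    ∃ r, pr r p ∈ L β ∧ pr γ (pr t g) ∈ r ∧ res r γ = res p γ ∧
      ∀ δ y, δ ≠ γ → (pr δ y ∈ r ↔ pr δ y ∈ p) := by
  obtain ⟨p', hp'⟩ := exists_sep p (P := fun x => ¬ x = pr γ (pr s f))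
    (Df.not (Df.eq (Tm.var 0) (Tm.const _)))
  have hpm := (hH.mem β hβ p).1 hp
  have hγγ : γ ∉ γ := mem_irrefl γ
  have hp'2 : ∀ δ y, pr δ y ∈ p' ↔ δ ≠ γ ∧ pr δ y ∈ p := by
    intro δ y
    rw [hp']
    constructor
    · rintro ⟨h, h'⟩
      refine ⟨?_, h⟩
      rintro rfl
      exact h' (by rw [hech_fun hH hβ hp h hsf])
    · rintro ⟨h, h'⟩
      exact ⟨h', fun e => h (pr_inj.1 e).1⟩
  have hr2 : ∀ δ y, δ ≠ γ → (pr δ y ∈ ins (pr γ (pr t g)) p' ↔ pr δ y ∈ p) := by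
    intro δ y hδ
    rw [mem_ins, hp'2]
    exact ⟨fun h => h.elim (fun h => absurd (pr_inj.1 h).1 hδ) fun h => h.2, fun h => Or.inr ⟨hδ, h⟩⟩
  have hr3 : ∀ y, pr γ y ∈ ins (pr γ (pr t g)) p' → y = pr t g := by
    intro y hy
    rcases mem_ins.1 hy with h | h
    · exact (pr_inj.1 h).2
    · exact absurd rfl ((hp'2 _ _).1 h).1
  have hrP : ins (pr γ (pr t g)) p' ∈ P β := by
    refine (hH.mem β hβ _).2 ⟨?_, ?_, ?_⟩
    · exact Fi.ins (Fi.sub hpm.1 fun x hx => ((hp' x).1 hx).1) _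
    · intro x hx
      rcases mem_ins.1 hx with rfl | h
      · exact ⟨γ, hγ, t, g, rfl, ht, hg⟩
      · exact hpm.2.1 x ((hp' x).1 h).1
    · intro δ y y' h h'
      by_cases hδ : δ = γ
      · subst hδ
        rw [hr3 y h, hr3 y' h']
      · exact hech_fun hH hβ hp ((hr2 δ y hδ).1 h) ((hr2 δ y' hδ).1 h')
  have hres : res (ins (pr γ (pr t g)) p') γ = res p γ := by
    refine WZ.ext fun x => ?_
    rw [mem_res, mem_res]
    constructor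
    · rintro ⟨h, β', hβ', y, rfl⟩
      have hne : β' ≠ γ := fun e => hγγ (e ▸ hβ')
      exact ⟨(hr2 _ _ hne).1 h, β', hβ', y, rfl⟩
    · rintro ⟨h, β', hβ', y, rfl⟩
      have hne : β' ≠ γ := fun e => hγγ (e ▸ hβ')
      exact ⟨(hr2 _ _ hne).2 h, β', hβ', y, rfl⟩
  refine ⟨ins (pr γ (pr t g)) p', ?_, mem_ins.2 (Or.inl rfl), hres, hr2⟩
  refine hech_le_of hH hβ hrP hp fun δ s' f' h => ?_
  by_cases hδ : δ = γ
  · subst hδ
    obtain ⟨rfl, rfl⟩ := pr_inj.1 (hech_fun hH hβ hp h hsf)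
    refine Or.inr ⟨t, g, mem_ins.2 (Or.inl rfl), hst, ?_⟩
    rw [hres]
    exact ⟨h1, h2⟩
  · exact Or.inl ((hr2 _ _ hδ).2 h)

/-- a new coordinate -/
theorem hech_new {β γ p t g : V} (hβ : β ∈ sc l) (hγ : γ ∈ β)
    (hp : p ∈ P β) (hn : ∀ y, pr γ y ∉ p) (ht : IsStem t) (hg : IsName (P γ) (L γ) g) :
    ∃ r, pr r p ∈ L β ∧ pr γ (pr t g) ∈ r ∧ res r γ = res p γ ∧
      ∀ δ y, δ ≠ γ → (pr δ y ∈ r ↔ pr δ y ∈ p) := by
  have hpm := (hH.mem β hβ p).1 hp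
  have hγγ : γ ∉ γ := mem_irrefl γ
  have hr2 : ∀ δ y, δ ≠ γ → (pr δ y ∈ ins (pr γ (pr t g)) p ↔ pr δ y ∈ p) := by
    intro δ y hδ
    rw [mem_ins]
    exact ⟨fun h => h.elim (fun h => absurd (pr_inj.1 h).1 hδ) id, Or.inr⟩
  have hr3 : ∀ y, pr γ y ∈ ins (pr γ (pr t g)) p → y = pr t g := by
    intro y hy
    rcases mem_ins.1 hy with h | h
    · exact (pr_inj.1 h).2
    · exact absurd h (hn y)
  have hrP : ins (pr γ (pr t g)) p ∈ P β := by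
    refine (hH.mem β hβ _).2 ⟨Fi.ins hpm.1 _, ?_, ?_⟩
    · intro x hx
      rcases mem_ins.1 hx with rfl | h
      · exact ⟨γ, hγ, t, g, rfl, ht, hg⟩
      · exact hpm.2.1 x h
    · intro δ y y' h h'
      by_cases hδ : δ = γ
      · subst hδ
        rw [hr3 y h, hr3 y' h']
      · exact hech_fun hH hβ hp ((hr2 δ y hδ).1 h) ((hr2 δ y' hδ).1 h')
  refine ⟨ins (pr γ (pr t g)) p, ?_, mem_ins.2 (Or.inl rfl), ?_, hr2⟩
  · exact hech_le_of hH hβ hrP hp fun δ s' f' h => Or.inl (mem_ins.2 (Or.inr h))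
  · refine WZ.ext fun x => ?_
    rw [mem_res, mem_res]
    constructor
    · rintro ⟨h, β', hβ', y, rfl⟩
      have hne : β' ≠ γ := fun e => hγγ (e ▸ hβ')
      exact ⟨(hr2 _ _ hne).1 h, β', hβ', y, rfl⟩
    · rintro ⟨h, β', hβ', y, rfl⟩
      exact ⟨mem_ins.2 (Or.inr h), β', hβ', y, rfl⟩

end

end Pool.Agent.CVH
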