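import Pool.Agent.CVH.Fin

/-! # Nice names of functions -/

namespace Pool.Agent.CVH

open ZFM (Fm Sat push Dfn DT IsZF IsPair IsSub Rel IsFun)

universe u

variable {M : Type u} [WZ M] {P L : M}

attribute [local irreducible] Tm


private theorem isStem_iff {s : M} : IsStem s ↔ ∃ n, n ∈ (om : M) ∧
    (∀ x, x ∈ s → ∃ i, i ∈ n ∧ ∃ m, m ∈ (om : M) ∧ x = pr i m) ∧
    ∀ i, i ∈ n → ∃ m, m ∈ (om : M) ∧ pr i m ∈ s ∧ ∀ m', m' ∈ (om : M) → pr i m' ∈ s → m' = m := by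
  constructor
  · rintro ⟨n, h1, h2⟩
    refine ⟨num n, num_mem_om n, fun x hx => ?_, fun i hi => ?_⟩
    · obtain ⟨i, hi, m, rfl⟩ := h1 x hx
      exact ⟨num i, num_mem.2 hi, num m, num_mem_om m, rfl⟩
    · obtain ⟨i, hi', rfl⟩ := mem_num.1 hi
      obtain ⟨m, hm, hu⟩ := h2 i hi'
      refine ⟨num m, num_mem_om m, hm, fun m' hm' h => ?_⟩
      obtain ⟨k, rfl⟩ := mem_om.1 hm'
      rw [hu k h]
  · rintro ⟨n, hn, h1, h2⟩
    obtain ⟨n, rfl⟩ := mem_om.1 hn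
    refine ⟨n, fun x hx => ?_, fun i hi => ?_⟩
    · obtain ⟨i, hi, m, hm, rfl⟩ := h1 x hx
      obtain ⟨i, hi', rfl⟩ := mem_num.1 hi
      obtain ⟨m, rfl⟩ := mem_om.1 hm
      exact ⟨i, hi', m, rfl⟩
    · obtain ⟨m, hm, h3, h4⟩ := h2 (num i) (num_mem.2 hi)
      obtain ⟨m, rfl⟩ := mem_om.1 hm
      exact ⟨m, h3, fun k hk => num_inj.1 (h4 _ (num_mem_om k) hk)⟩

@[is_poly] theorem Df.isStem {t : (ℕ → M) → M} (ht : Tm t) : Df (fun v => IsStem (t v)) := by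
  refine Df.sub1 (R := fun s => IsStem s) ?_ ht
  simp only [isStem_iff]
  apply_rules (maxDepth := 1000) using is_poly

private theorem isName_iff {P L f : M} : IsName P L f ↔
    (∀ x, x ∈ f → ∃ p, p ∈ P ∧ ∃ n, n ∈ (om : M) ∧ ∃ m, m ∈ (om : M) ∧ x = pr p (pr n m)) ∧
    (∀ p, p ∈ P → ∀ n, n ∈ (om : M) → ∃ q, q ∈ P ∧ pr q p ∈ L ∧
      ∃ m, m ∈ (om : M) ∧ ∃ r, pr r (pr n m) ∈ f ∧ pr q r ∈ L) ∧
    (∀ q, q ∈ P → ∀ n, n ∈ (om : M) → ∀ m, m ∈ (om : M) → ∀ m', m' ∈ (om : M) →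
      (∃ r, pr r (pr n m) ∈ f ∧ pr q r ∈ L) → (∃ r, pr r (pr n m') ∈ f ∧ pr q r ∈ L) → m = m') := by
  constructor
  · rintro ⟨h1, h2, h3⟩
    refine ⟨fun x hx => ?_, fun p hp n hn => ?_, fun q hq n hn m hm m' hm' h4 h5 => ?_⟩
    · obtain ⟨p, hp, n, m, rfl⟩ := h1 x hx
      exact ⟨p, hp, num n, num_mem_om n, num m, num_mem_om m, rfl⟩
    · obtain ⟨n, rfl⟩ := mem_om.1 hn
      obtain ⟨q, hq, h, m, hm⟩ := h2 p hp n
      exact ⟨q, hq, h, num m, num_mem_om m, hm⟩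
    · obtain ⟨n, rfl⟩ := mem_om.1 hn
      obtain ⟨m, rfl⟩ := mem_om.1 hm
      obtain ⟨m', rfl⟩ := mem_om.1 hm'
      rw [h3 q hq n m m' h4 h5]
  · rintro ⟨h1, h2, h3⟩
    refine ⟨fun x hx => ?_, fun p hp n => ?_, fun q hq n m m' h4 h5 => ?_⟩
    · obtain ⟨p, hp, n, hn, m, hm, rfl⟩ := h1 x hx
      obtain ⟨n, rfl⟩ := mem_om.1 hn
      obtain ⟨m, rfl⟩ := mem_om.1 hm
      exact ⟨p, hp, n, m, rfl⟩
    · obtain ⟨q, hq, h, m, hm, h'⟩ := h2 p hp (num n) (num_mem_om n)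
      obtain ⟨m, rfl⟩ := mem_om.1 hm
      exact ⟨q, hq, h, m, h'⟩
    · exact num_inj.1 (h3 q hq _ (num_mem_om n) _ (num_mem_om m) _ (num_mem_om m') h4 h5)

@[is_poly] theorem Df.isName {P L t : (ℕ → M) → M} (hP : Tm P) (hL : Tm L) (ht : Tm t) :
    Df (fun v => IsName (P v) (L v) (t v)) := by
  refine Df.sub3 (R := fun P L f => IsName P L f) ?_ hP hL ht
  simp only [isName_iff]
  apply_rules (maxDepth := 1000) using is_poly

private theorem fle_iff {P L p f g : M} : FLe P L p f g ↔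
    ∀ q, q ∈ P → pr q p ∈ L → ∀ n, n ∈ (om : M) → ∀ m, m ∈ (om : M) → ∀ m', m' ∈ (om : M) →
      (∃ r, pr r (pr n m) ∈ f ∧ pr q r ∈ L) → (∃ r, pr r (pr n m') ∈ g ∧ pr q r ∈ L) →
      m ∈ m' ∨ m = m' := by
  constructor
  · intro h q hq hqp n hn m hm m' hm' h1 h2
    obtain ⟨n, rfl⟩ := mem_om.1 hn
    obtain ⟨m, rfl⟩ := mem_om.1 hm
    obtain ⟨m', rfl⟩ := mem_om.1 hm'
    rw [num_mem, num_inj]
    exact lt_or_eq_of_le (h q hq hqp n m m' h1 h2)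
  · intro h q hq hqp n m m' h1 h2
    have := h q hq hqp _ (num_mem_om n) _ (num_mem_om m) _ (num_mem_om m') h1 h2
    rw [num_mem, num_inj] at this
    exact le_of_lt_or_eq this

@[is_poly] theorem Df.fle {P L p f g : (ℕ → M) → M} (hP : Tm P) (hL : Tm L) (hp : Tm p) (hf : Tm f)
    (hg : Tm g) : Df (fun v => FLe (P v) (L v) (p v) (f v) (g v)) := by
  refine Df.sub5 (R := fun P L p f g => FLe P L p f g) ?_ hP hL hp hf hg
  simp only [fle_iff]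
  apply_rules (maxDepth := 1000) using is_poly

theorem Dec.mono (ho : IsPo P L) {f q q' : M} {n m : ℕ} (h : Dec L f q n m) (hq : pr q' q ∈ L) :
    Dec L f q' n m := by
  obtain ⟨r, h1, h2⟩ := h
  exact ⟨r, h1, ho.trans _ _ _ hq h2⟩

theorem FLe.mono (ho : IsPo P L) {f g p p' : M} (h : FLe P L p f g) (hq : pr p' p ∈ L) :
    FLe P L p' f g := fun q hqP hqp n m m' h1 h2 =>
  h q hqP (ho.trans _ _ _ hqp hq) n m m' h1 h2

theorem FVal.mono (ho : IsPo P L) {f p p' : M} {n k : ℕ} (h : FVal P L p f n k) (hq : pr p' p ∈ L) :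
    FVal P L p' f n k := fun q hqP hqp m h1 => h q hqP (ho.trans _ _ _ hqp hq) m h1

theorem FLe.refl {f p : M} (hf : IsName P L f) : FLe P L p f f := fun q hq _ n m m' h1 h2 =>
  (hf.uniq q hq n m m' h1 h2).le

theorem FLe.trans (ho : IsPo P L) {f g h p : M} (hg : IsName P L g)
    (h1 : FLe P L p f g) (h2 : FLe P L p g h) : FLe P L p f h := by
  intro q hq hqp n m m' h3 h4
  obtain ⟨q', hq', hle, k, hk⟩ := hg.total q hq n
  have h5 := ho.trans _ _ _ hle hqp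
  exact (h1 q' hq' h5 n m k (h3.mono ho hle) hk).trans (h2 q' hq' h5 n k m' hk (h4.mono ho hle))

theorem FLe.fval (ho : IsPo P L) {f g p : M} {n k : ℕ} (hg : IsName P L g)
    (h1 : FLe P L p f g) (h2 : FVal P L p g n k) : FVal P L p f n k := by
  intro q hq hqp m h3
  obtain ⟨q', hq', hle, k', hk⟩ := hg.total q hq n
  have h5 := ho.trans _ _ _ hle hqp
  exact (h1 q' hq' h5 n m k' (h3.mono ho hle) hk).trans (h2 q' hq' h5 k' hk)

/-- finitely many values can be decided -/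
theorem IsName.decide (ho : IsPo P L) {f p : M} (hf : IsName P L f) (hp : p ∈ P) (N : ℕ) :
    ∃ q ∈ P, pr q p ∈ L ∧ ∀ n < N, ∃ m : ℕ, Dec L f q n m := by
  induction N with
  | zero => exact ⟨p, hp, ho.refl p hp, fun n hn => absurd hn (Nat.not_lt_zero n)⟩
  | succ N ih =>
    obtain ⟨q, hq, hqp, h⟩ := ih
    obtain ⟨q', hq', hle, m, hm⟩ := hf.total q hq N
    refine ⟨q', hq', ho.trans _ _ _ hle hqp, fun n hn => ?_⟩
    rcases Nat.lt_succ_iff_lt_or_eq.1 hn with h1 | rfl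
    · obtain ⟨m, hm⟩ := h n h1
      exact ⟨m, hm.mono ho hle⟩
    · exact ⟨m, hm⟩

private theorem mem_pd3 {x : M} (hx : x ∈ pd P (pd (om : M) om)) :
    ∃ p ∈ P, ∃ n m : ℕ, x = pr p (pr (num n) (num m)) := by
  obtain ⟨p, hp, y, hy, rfl⟩ := mem_pd.1 hx
  obtain ⟨n, hn, m, hm, rfl⟩ := mem_pd.1 hy
  obtain ⟨n, rfl⟩ := mem_om.1 hn
  obtain ⟨m, rfl⟩ := mem_om.1 hm
  exact ⟨p, hp, n, m, rfl⟩

/-- the maximum of two names -/
theorem exists_max (ho : IsPo P L) {f g : M} (hf : IsName P L f) (hg : IsName P L g) :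
    ∃ h, IsName P L h ∧ (∀ p, FLe P L p f h) ∧ ∀ p, FLe P L p g h := by
  obtain ⟨h, hh⟩ := exists_sep (pd P (pd (om : M) om)) (P := fun x => ∃ r n m m1 m2 : M,
    x = pr r (pr n m) ∧ m1 ∈ (om : M) ∧ m2 ∈ (om : M) ∧
    (∃ s, pr s (pr n m1) ∈ f ∧ pr r s ∈ L) ∧ (∃ s, pr s (pr n m2) ∈ g ∧ pr r s ∈ L) ∧
    ((m = m1 ∧ (m2 ∈ m1 ∨ m2 = m1)) ∨ (m = m2 ∧ (m1 ∈ m2 ∨ m1 = m2)))) (by apply_rules (maxDepth := 1000) using is_poly)
  have key : ∀ (r : M) (n m : ℕ), pr r (pr (num n) (num m)) ∈ h ↔ r ∈ P ∧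
      ∃ m1 m2 : ℕ, Dec L f r n m1 ∧ Dec L g r n m2 ∧ m = max m1 m2 := by
    intro r n m
    rw [hh, pr_mem_pd, pr_mem_pd]
    constructor
    · rintro ⟨⟨hr, _⟩, r', n', m', m1, m2, e, hm1, hm2, h1, h2, h3⟩
      obtain ⟨e1, e2⟩ := pr_inj.1 e
      obtain ⟨e3, e4⟩ := pr_inj.1 e2
      subst e1 e3 e4
      obtain ⟨m1, rfl⟩ := mem_om.1 hm1
      obtain ⟨m2, rfl⟩ := mem_om.1 hm2
      refine ⟨hr, m1, m2, h1, h2, ?_⟩
      rcases h3 with ⟨h3, h4⟩ | ⟨h3, h4⟩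
      · rw [num_inj] at h3
        rw [num_mem, num_inj] at h4
        omega
      · rw [num_inj] at h3
        rw [num_mem, num_inj] at h4
        omega
    · rintro ⟨hr, m1, m2, h1, h2, rfl⟩
      refine ⟨⟨hr, num_mem_om n, num_mem_om _⟩, r, num n, num (max m1 m2), num m1, num m2, rfl,
        num_mem_om _, num_mem_om _, h1, h2, ?_⟩
      simp only [num_inj, num_mem]
      omega
  have dec : ∀ q ∈ P, ∀ n m : ℕ, Dec L h q n m ↔
      ∃ m1 m2 : ℕ, Dec L f q n m1 ∧ Dec L g q n m2 ∧ m = max m1 m2 := by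
    intro q hq n m
    constructor
    · rintro ⟨r, hr, hqr⟩
      obtain ⟨_, m1, m2, h1, h2, h3⟩ := (key r n m).1 hr
      exact ⟨m1, m2, h1.mono ho hqr, h2.mono ho hqr, h3⟩
    · intro h1
      exact ⟨q, (key q n m).2 ⟨hq, h1⟩, ho.refl q hq⟩
  refine ⟨h, ⟨fun x hx => mem_pd3 ((hh x).1 hx).1, fun p hp n => ?_, fun q hq n m m' h1 h2 => ?_⟩,
    fun p q hq _ n m m' h1 h2 => ?_, fun p q hq _ n m m' h1 h2 => ?_⟩
  · obtain ⟨q, hq, hqp, m1, h1⟩ := hf.total p hp n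
    obtain ⟨q', hq', hle, m2, h2⟩ := hg.total q hq n
    exact ⟨q', hq', ho.trans _ _ _ hle hqp, max m1 m2,
      (dec q' hq' n _).2 ⟨m1, m2, h1.mono ho hle, h2, rfl⟩⟩
  · obtain ⟨m1, m2, h3, h4, rfl⟩ := (dec q hq n m).1 h1
    obtain ⟨m3, m4, h5, h6, rfl⟩ := (dec q hq n m').1 h2
    rw [hf.uniq q hq n _ _ h3 h5, hg.uniq q hq n _ _ h4 h6]
  · obtain ⟨m3, m4, h5, h6, rfl⟩ := (dec q hq n m').1 h2
    rw [hf.uniq q hq n _ _ h1 h5]
    exact le_max_left _ _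
  · obtain ⟨m3, m4, h5, h6, rfl⟩ := (dec q hq n m').1 h2
    rw [hg.uniq q hq n _ _ h1 h6]
    exact le_max_right _ _

/-- a name of the constant function 0 -/
theorem exists_zero_name (ho : IsPo P L) : ∃ f, IsName P L f := by
  obtain ⟨f, hf⟩ := exists_sep (pd P (pd (om : M) om))
    (P := fun x => ∃ r n : M, x = pr r (pr n (num 0))) (by apply_rules (maxDepth := 1000) using is_poly)
  have key : ∀ (r : M) (n m : ℕ), pr r (pr (num n) (num m)) ∈ f ↔ r ∈ P ∧ m = 0 := by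
    intro r n m
    rw [hf, pr_mem_pd, pr_mem_pd]
    constructor
    · rintro ⟨⟨hr, _⟩, r', n', e⟩
      obtain ⟨_, e2⟩ := pr_inj.1 e
      obtain ⟨_, e3⟩ := pr_inj.1 e2
      exact ⟨hr, num_inj.1 e3⟩
    · rintro ⟨hr, rfl⟩
      exact ⟨⟨hr, num_mem_om n, num_mem_om _⟩, r, num n, rfl⟩
  refine ⟨f, ⟨fun x hx => mem_pd3 ((hf x).1 hx).1, fun p hp n => ?_, fun q _ n m m' h1 h2 => ?_⟩⟩
  · exact ⟨p, hp, ho.refl p hp, 0, p, (key p n 0).2 ⟨hp, rfl⟩, ho.refl p hp⟩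
  · obtain ⟨r, hr, _⟩ := h1
    obtain ⟨r', hr', _⟩ := h2
    rw [((key r n m).1 hr).2, ((key r' n m').1 hr').2]

end Pool.Agent.CVH
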