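import Pool.Agent.CVH.HechA
import Pool.Agent.CVH.Name

/-! # The Hechler reals: density, names -/

namespace Pool.Agent.CVH

open ZFM (Fm Sat push Dfn DT IsZF IsPair IsSub Rel IsFun)

universe u

variable {V : Type u} [WZ V] {l : V} {P L : V → V}

theorem mem_sc_of (hl : IsOrd l) {β γ : V} (hβ : β ∈ sc l) (hγ : γ ∈ β) : γ ∈ sc l := by
  rw [mem_sc] at hβ ⊢
  rcases hβ with rfl | hβ
  · exact Or.inr hγ
  · exact Or.inr (hl.tr hβ hγ)

/-- the values of a stem are unique -/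
theorem IsStem.uniq {s : V} (hs : IsStem s) {n m m' : ℕ} (h : pr (num n) (num m) ∈ s)
    (h' : pr (num n) (num m') ∈ s) : m = m' := by
  obtain ⟨k, h1, h2⟩ := hs
  obtain ⟨i, hi, m'', e⟩ := h1 _ h
  obtain ⟨e1, -⟩ := pr_inj.1 e
  rw [num_inj] at e1
  subst e1
  exact (h2 n hi).unique h h'

/-- the empty sequence -/
theorem isStem_emp : IsStem (emp : V) :=
  ⟨0, fun x hx => absurd hx (notMem_emp x), fun i hi => absurd hi (Nat.not_lt_zero i)⟩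

/-- extension of a stem by prescribed values -/
theorem exists_stem_ext {s : V} (hs : IsStem s) (v : ℕ → ℕ) (N : ℕ) :
    ∃ t, IsStem t ∧ IsSub s t ∧ (∀ i m : ℕ, pr (num i) (num m) ∈ t → pr (num i) (num m) ∉ s →
      i < N ∧ m = v i) ∧ ∀ i < N, ∃ m : ℕ, pr (num i) (num m) ∈ t := by
  obtain ⟨k, h1, h2⟩ := hs
  obtain ⟨u, hu⟩ := exists_fin (M := V) (s := (fun i : ℕ => pr (num i) (num (v i))) '' Set.Ico k N)
    ((Set.finite_Ico k N).image _)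
  have hmem : ∀ i m : ℕ, pr (num i) (num m) ∈ ud s u ↔
      pr (num i) (num m) ∈ s ∨ (k ≤ i ∧ i < N ∧ m = v i) := by
    intro i m
    rw [mem_ud, hu]
    constructor
    · rintro (h | ⟨i', hi', e⟩)
      · exact Or.inl h
      · obtain ⟨e1, e2⟩ := pr_inj.1 e
        rw [num_inj] at e1 e2
        subst e1 e2
        exact Or.inr ⟨hi'.1, hi'.2, rfl⟩
    · rintro (h | ⟨h3, h4, rfl⟩)
      · exact Or.inl h
      · exact Or.inr ⟨i, ⟨h3, h4⟩, rfl⟩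
  have hs' : ∀ i m : ℕ, pr (num i) (num m) ∈ s → i < k := by
    intro i m h
    obtain ⟨i', hi', m', e⟩ := h1 _ h
    obtain ⟨e1, -⟩ := pr_inj.1 e
    rw [num_inj] at e1
    omega
  refine ⟨ud s u, ⟨max k N, ?_, ?_⟩, fun z hz => mem_ud.2 (Or.inl hz), ?_, ?_⟩
  · intro x hx
    rcases mem_ud.1 hx with h | h
    · obtain ⟨i, hi, m, e⟩ := h1 x h
      exact ⟨i, lt_of_lt_of_le hi (le_max_left _ _), m, e⟩
    · obtain ⟨i, hi, e⟩ := (hu x).1 h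
      exact ⟨i, lt_of_lt_of_le hi.2 (le_max_right _ _), v i, e.symm⟩
  · intro i hi
    by_cases hik : i < k
    · obtain ⟨m, hm, hm'⟩ := h2 i hik
      refine ⟨m, (hmem i m).2 (Or.inl hm), fun m' h' => ?_⟩
      rcases (hmem i m').1 h' with h | h
      · exact hm' m' h
      · omega
    · have hiN : i < N := by
        rcases lt_max_iff.1 hi with h | h
        · exact absurd h hik
        · exact h
      refine ⟨v i, (hmem i _).2 (Or.inr ⟨by omega, hiN, rfl⟩), fun m' h' => ?_⟩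
      rcases (hmem i m').1 h' with h | h
      · exact absurd (hs' i m' h) hik
      · exact h.2.2
  · intro i m h h'
    rcases (hmem i m).1 h with h3 | h3
    · exact absurd h3 h'
    · exact h3.2
  · intro i hi
    by_cases hik : i < k
    · obtain ⟨m, hm, -⟩ := h2 i hik
      exact ⟨m, (hmem i m).2 (Or.inl hm)⟩
    · exact ⟨v i, (hmem i _).2 (Or.inr ⟨by omega, hi, rfl⟩)⟩

/-- the stems at each coordinate get arbitrarily long -/
theorem hech_dense (hl : IsOrd l) (hH : IsHechler l P L) {β γ p : V} (hβ : β ∈ sc l) (hγ : γ ∈ β)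
    (hp : p ∈ P β) (n : ℕ) :
    ∃ r, pr r p ∈ L β ∧ ∃ s f, pr γ (pr s f) ∈ r ∧ ∃ m : ℕ, pr (num n) (num m) ∈ s := by
  have hγl := mem_sc_of hl hβ hγ
  have hoγ := hech_po hl hH hγl
  have hoβ := hech_po hl hH hβ
  by_cases hy : ∃ y, pr γ y ∈ p
  · obtain ⟨y, hy⟩ := hy
    obtain ⟨γ', -, s, f, e, hs, hf⟩ := ((hH.mem β hβ p).1 hp).2.1 _ hy
    obtain ⟨rfl, rfl⟩ := pr_inj.1 e
    have hres := hech_res hl hH hβ hγ hp
    obtain ⟨q, hq, hqp, hdec⟩ := hf.decide hoγ hres (n+1)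
    choose! v hv using hdec
    obtain ⟨r₀, h1, -, h3, h4⟩ := hech_amalg hl hH hβ hγ hp hqp
    have hr₀ : r₀ ∈ P β := (hoβ.dom _ _ h1).1
    have hsf : pr γ (pr s f) ∈ r₀ := (h4 γ _ (mem_irrefl γ)).2 hy
    obtain ⟨t, ht, hst, hnew, htot⟩ := exists_stem_ext hs v (n+1)
    obtain ⟨r, h5, h6, -, -⟩ := hech_step hl hH hβ hγ hr₀ hsf ht hf hst (FLe.refl hf) (by
      intro i m hi hi'
      obtain ⟨hiN, rfl⟩ := hnew i m hi hi'
      rw [h3]
      intro q' hq' hq'q m' hm'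
      have h7 := Dec.mono hoγ (hv i hiN) hq'q
      exact (hf.uniq q' hq' i _ _ hm' h7).le)
    obtain ⟨m, hm⟩ := htot n (Nat.lt_succ_self n)
    exact ⟨r, hoβ.trans _ _ _ h5 h1, t, f, h6, m, hm⟩
  · push Not at hy
    obtain ⟨f, hf⟩ := exists_zero_name hoγ
    obtain ⟨t, ht, -, -, htot⟩ := exists_stem_ext (isStem_emp (V := V)) (fun _ => 0) (n+1)
    obtain ⟨r, h1, h2, -, -⟩ := hech_new hl hH hβ hγ hp hy ht hf
    obtain ⟨m, hm⟩ := htot n (Nat.lt_succ_self n)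
    exact ⟨r, h1, t, f, h2, m, hm⟩

/-- the name of the Hechler real at the coordinate `α`, plus one -/
theorem exists_hname (hl : IsOrd l) (hH : IsHechler l P L) {α γ : V} (hγ : γ ∈ l) (hα : α ∈ γ) :
    ∃ y, IsName (P γ) (L γ) y ∧ ∀ p ∈ P γ, ∀ n m : ℕ, Dec (L γ) y p n (m+1) ↔
      ∃ q s f, pr p q ∈ L γ ∧ pr α (pr s f) ∈ q ∧ pr (num n) (num m) ∈ s := by
  have hγl : γ ∈ sc l := mem_sc.2 (Or.inr hγ)
  have ho := hech_po hl hH hγl
  obtain ⟨y, hy1, hy2⟩ := exists_rel2 (P γ) (pd om om) (R := fun q z => ∃ s f n m, m ∈ (om : V) ∧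
      z = pr n (sc m) ∧ pr α (pr s f) ∈ q ∧ pr n m ∈ s) (by
    refine Df.ex (Df.ex (Df.ex (Df.ex (Df.and ?_ (Df.and ?_ (Df.and ?_ ?_))))))
    · exact Df.mem (Tm.var 0) (Tm.const _)
    · exact Df.eq (Tm.var 5) (Tm.pr (Tm.var 1) (Tm.sc (Tm.var 0)))
    · exact Df.mem (Tm.pr (Tm.const α) (Tm.pr (Tm.var 3) (Tm.var 2))) (Tm.var 4)
    · exact Df.mem (Tm.pr (Tm.var 1) (Tm.var 0)) (Tm.var 3))
  have key : ∀ (q : V) (n m : ℕ), pr q (pr (num n) (num m)) ∈ y ↔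
      q ∈ P γ ∧ ∃ k s f, m = k + 1 ∧ pr α (pr s f) ∈ q ∧ pr (num n) (num k) ∈ s := by
    intro q n m
    rw [hy2]
    constructor
    · rintro ⟨hq, -, s, f, n', m', hm', e, h1, h2⟩
      obtain ⟨k, rfl⟩ := mem_om.1 hm'
      obtain ⟨rfl, e2⟩ := pr_inj.1 e
      have e3 : (num m : V) = num (k+1) := e2
      exact ⟨hq, k, s, f, num_inj.1 e3, h1, h2⟩
    · rintro ⟨hq, k, s, f, rfl, h1, h2⟩
      exact ⟨hq, pr_mem_pd.2 ⟨num_mem_om _, num_mem_om _⟩, s, f, num n, num k, num_mem_om k, rfl, h1, h2⟩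
  -- the value in the condition itself
  have down : ∀ p q s f : V, ∀ x, pr p q ∈ L γ → pr α (pr s f) ∈ q → x ∈ s →
      ∃ t g, pr α (pr t g) ∈ p ∧ x ∈ t := by
    intro p q s f x hpq hsf hx
    obtain ⟨t, g, h1, h2, -⟩ := ((hH.ord γ hγl p q).1 hpq).2.2 α s f hsf
    exact ⟨t, g, h1, h2 x hx⟩
  refine ⟨y, ⟨?_, ?_, ?_⟩, ?_⟩
  · intro x hx
    obtain ⟨p, hp, z, hz, rfl⟩ := hy1 x hx
    obtain ⟨n', hn', m', hm', rfl⟩ := mem_pd.1 hz
    obtain ⟨n, rfl⟩ := mem_om.1 hn'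
    obtain ⟨m, rfl⟩ := mem_om.1 hm'
    exact ⟨p, hp, n, m, rfl⟩
  · intro p hp n
    obtain ⟨r, hr, s, f, hsf, m, hm⟩ := hech_dense hl hH hγl hα hp n
    have hrP := (ho.dom _ _ hr).1
    exact ⟨r, hrP, hr, m + 1, r, (key r n (m+1)).2 ⟨hrP, m, s, f, rfl, hsf, hm⟩, ho.refl r hrP⟩
  · rintro q hq n m m' ⟨r, h1, h2⟩ ⟨r', h1', h2'⟩
    obtain ⟨-, k, s, f, rfl, h3, h4⟩ := (key r n m).1 h1
    obtain ⟨-, k', s', f', rfl, h3', h4'⟩ := (key r' n m').1 h1'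
    obtain ⟨t, g, h5, h6⟩ := down q r s f _ h2 h3 h4
    obtain ⟨t', g', h5', h6'⟩ := down q r' s' f' _ h2' h3' h4'
    have hq' := (hH.mem γ hγl q).1 hq
    have e := hq'.2.2 α _ _ h5 h5'
    obtain ⟨rfl, rfl⟩ := pr_inj.1 e
    obtain ⟨δ, -, t₀, g₀, e', ht₀, -⟩ := hq'.2.1 _ h5
    obtain ⟨-, e''⟩ := pr_inj.1 e'
    obtain ⟨rfl, -⟩ := pr_inj.1 e''
    rw [ht₀.uniq h6 h6']
  · intro p hp n m
    constructor
    · rintro ⟨r, h1, h2⟩
      obtain ⟨-, k, s, f, e, h3, h4⟩ := (key r n (m+1)).1 h1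
      have : m = k := by omega
      subst this
      exact ⟨r, s, f, h2, h3, h4⟩
    · rintro ⟨q, s, f, h1, h2, h3⟩
      exact ⟨q, (key q n (m+1)).2 ⟨(ho.dom _ _ h1).2, m, s, f, rfl, h2, h3⟩, h1⟩

end Pool.Agent.CVH
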