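import Pool.Agent.CVH.HechI
import Pool.Agent.CVH.HechB
import Pool.Agent.CVH.Gen

/-! # The Hechler reals form a chain -/

namespace Pool.Agent.CVH

open ZFM (Fm Sat push Dfn DT IsZF IsPair IsSub Rel IsFun)

universe u

variable {V W : Type u} [WZ V] [WZ W] {j : V → W} {l : V} {P L : V → V} {G : W}

/-- the Hechler reals form a chain of length `l` -/
theorem hech_cc (hl : IsOrd l) (hH : IsHechler l P L) (hG : GenExt j (P l) (L l) G) {ν : V}
    (hν : IsOrd ν) (h : IsSub ν l) : CC (j ν) := by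
  have hll : l ∈ sc l := mem_sc.2 (Or.inl rfl)
  have ho := hech_po hl hH hll
  obtain ⟨p₀, hp₀⟩ := hG.nonempty
  -- the set of the values
  obtain ⟨x, -, hx⟩ := exists_rel2 (M := W) (pd (j ν) om) om
    (R := fun a m => ∃ α n q s f, a = pr α n ∧ q ∈ G ∧ pr α (pr s f) ∈ q ∧ pr n m ∈ s) (by
    refine Df.ex (Df.ex (Df.ex (Df.ex (Df.ex (Df.and ?_ (Df.and ?_ (Df.and ?_ ?_)))))))
    · exact Df.eq (Tm.var 5) (Tm.pr (Tm.var 4) (Tm.var 3))
    · exact Df.mem (Tm.var 2) (Tm.const G)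
    · exact Df.mem (Tm.pr (Tm.var 4) (Tm.pr (Tm.var 1) (Tm.var 0))) (Tm.var 2)
    · exact Df.mem (Tm.pr (Tm.var 3) (Tm.var 6)) (Tm.var 1))
  have hval : ∀ α ∈ ν, ∀ n m : ℕ, pr (pr (j α) (num n)) (num m) ∈ x ↔
      ∃ p s f, j p ∈ G ∧ pr α (pr s f) ∈ p ∧ pr (num n) (num m) ∈ s := by
    intro α hα n m
    rw [hx]
    constructor
    · rintro ⟨-, -, α', n', q, s, f, e, hq, h1, h2⟩
      obtain ⟨rfl, rfl⟩ := pr_inj.1 e
      obtain ⟨p, hp, rfl⟩ := hG.sub q hq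
      obtain ⟨α₁, y₁, e1, e2, h3⟩ := hG.of_pr_mem h1
      obtain ⟨s₁, f₁, e3, e4, rfl⟩ := hG.of_pr e2
      have e5 : α = α₁ := hG.inj e1
      subst e5 e3
      rw [← hG.j_num n, ← hG.j_num m, hG.pr_mem] at h2
      exact ⟨p, s₁, f₁, hq, h3, h2⟩
    · rintro ⟨p, s, f, hp, h1, h2⟩
      refine ⟨pr_mem_pd.2 ⟨(hG.mem _ _).2 hα, num_mem_om n⟩, num_mem_om m, j α, num n, j p, j s, j f,
        rfl, hp, ?_, ?_⟩
      · rw [← hG.j_pr, hG.pr_mem]
        exact h1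
      · rw [← hG.j_num n, ← hG.j_num m, hG.pr_mem]
        exact h2
  -- two members of the generic filter agree
  have hup : ∀ {r p α s f : V}, pr r p ∈ L l → pr α (pr s f) ∈ p →
      ∃ t g, pr α (pr t g) ∈ r ∧ IsSub s t := by
    intro r p α s f hrp hp
    obtain ⟨t, g, h1, h2, -, -⟩ := hech_of_le hH hll hrp hp
    exact ⟨t, g, h1, h2⟩
  have huniq : ∀ (α p s f p' s' f' : V) (n m m' : ℕ), j p ∈ G → pr α (pr s f) ∈ p →
      pr (num n) (num m) ∈ s → j p' ∈ G → pr α (pr s' f') ∈ p' → pr (num n) (num m') ∈ s' →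
      m = m' := by
    intro α p s f p' s' f' n m m' hp h1 h2 hp' h1' h2'
    obtain ⟨r, hr, hrp, hrp'⟩ := hG.dir p p' hp hp'
    obtain ⟨t, g, h3, h4⟩ := hup hrp h1
    obtain ⟨t', g', h3', h4'⟩ := hup hrp' h1'
    have hrP := (ho.dom _ _ hrp).1
    have e := hech_fun hH hll hrP h3 h3'
    have e1 : t = t' := (pr_inj.1 e).1
    subst e1
    exact (hech_coord hH hll hrP h3).2.1.uniq (h4 _ h2) (h4' _ h2')
  refine ⟨x, ?_, ?_⟩
  · intro i hi n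
    obtain ⟨α, hα, rfl⟩ := hG.of_mem hi
    have hαl : α ∈ l := h α hα
    obtain ⟨q, hq, -, s, f, m', h1, h2, h3⟩ := hG.meet ho
      (D := fun r => ∃ s f m, pr α (pr s f) ∈ r ∧ m ∈ (om : V) ∧ pr (num n) m ∈ s) (by
      refine Df.ex (Df.ex (Df.ex (Df.and ?_ (Df.and ?_ ?_))))
      · exact Df.mem (Tm.pr (Tm.const α) (Tm.pr (Tm.var 2) (Tm.var 1))) (Tm.var 3)
      · exact Df.mem (Tm.var 0) (Tm.const _)
      · exact Df.mem (Tm.pr (Tm.const _) (Tm.var 0)) (Tm.var 2)) hp₀ (by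
      intro q hq
      obtain ⟨r, h1, s, f, h2, m, h3⟩ := hech_dense hl hH hll hαl (ho.dom _ _ hq).1 n
      exact ⟨r, h1, s, f, num m, h2, num_mem_om m, h3⟩)
    obtain ⟨m, rfl⟩ := mem_om.1 h2
    refine ⟨m, (hval α hα n m).2 ⟨q, s, f, hq, h1, h3⟩, ?_⟩
    intro m' hm'
    obtain ⟨p', s', f', hp', h1', h2'⟩ := (hval α hα n m').1 hm'
    exact huniq α p' s' f' q s f n m' m hp' h1' h2' hq h1 h3
  · intro i hi i' hi' hii
    obtain ⟨α, hα, rfl⟩ := hG.of_mem hi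
    obtain ⟨γ, hγ, rfl⟩ := hG.of_mem hi'
    have hαγ : α ∈ γ := (hG.mem _ _).1 hii
    have hγl : γ ∈ l := h γ hγ
    have hγs : γ ∈ sc l := mem_sc.2 (Or.inr hγl)
    have hoγ := hech_po hl hH hγs
    obtain ⟨y, hy, hdec⟩ := exists_hname hl hH hγl hαγ
    obtain ⟨p, hp, -, t, g, h1, h2⟩ := hG.meet ho
      (D := fun r => ∃ t g, pr γ (pr t g) ∈ r ∧ ∀ p, FLe (P γ) (L γ) p y g) (by
      refine Df.ex (Df.ex (Df.and ?_ (Df.all ?_)))
      · exact Df.mem (Tm.pr (Tm.const γ) (Tm.pr (Tm.var 1) (Tm.var 0))) (Tm.var 2)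
      · exact Df.fle (Tm.const _) (Tm.const _) (Tm.var 0) (Tm.const _) (Tm.var 1)) hp₀ (by
      intro q hq
      have hqP := (ho.dom _ _ hq).1
      by_cases hc : ∃ z, pr γ z ∈ q
      · obtain ⟨z, hz⟩ := hc
        obtain ⟨s, f, rfl⟩ := hech_ex hH hll hqP hz
        obtain ⟨-, hs, hf⟩ := hech_coord hH hll hqP hz
        obtain ⟨k, hk, hk1, hk2⟩ := exists_max hoγ hf hy
        obtain ⟨r, h3, h4, -, -⟩ := hech_step hl hH hll hγl hqP hz hs hk (fun _ h => h) (hk1 _)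
          (fun n m h1 h2 => absurd h1 h2)
        exact ⟨r, h3, s, k, h4, hk2⟩
      · push Not at hc
        obtain ⟨r, h3, h4, -, -⟩ := hech_new hl hH hll hγl hqP hc isStem_emp hy
        exact ⟨r, h3, emp, y, h4, fun _ => FLe.refl hy⟩)
    have hpP := hG.mem_P hp
    obtain ⟨-, hst, hgn⟩ := hech_coord hH hll hpP h1
    obtain ⟨k, hk, -⟩ := id hst
    refine ⟨k, fun n hn m m' hm hm' => ?_⟩
    obtain ⟨p1, s1, f1, hp1, h3, h4⟩ := (hval α hα n m).1 hm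
    obtain ⟨p2, s2, f2, hp2, h5, h6⟩ := (hval γ hγ n m').1 hm'
    obtain ⟨r1, hr1, h7, h8⟩ := hG.dir p1 p2 hp1 hp2
    obtain ⟨r, hr, h9, h10⟩ := hG.dir p r1 hp hr1
    have hrP := hG.mem_P hr
    have hrp1 := ho.trans _ _ _ h10 h7
    have hrp2 := ho.trans _ _ _ h10 h8
    obtain ⟨t1, g1, h11, h12⟩ := hup hrp1 h3
    obtain ⟨t2, g2, h13, h14⟩ := hup hrp2 h5
    obtain ⟨t', g', h15, h16, -, h18⟩ := hech_of_le hH hll h9 h1
    have e : t2 = t' := (pr_inj.1 (hech_fun hH hll hrP h13 h15)).1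
    subst e
    have hnt : pr (num n) (num m') ∉ t := by
      intro hc
      obtain ⟨i, hi, m'', e⟩ := hk _ hc
      have := num_inj.1 (pr_inj.1 e).1
      omega
    have h19 := h18 n m' (h14 _ h6) hnt
    have h20 : FVal (P γ) (L γ) (res r γ) y n m' := FLe.fval hoγ hgn (h2 _) h19
    have hresP := hech_res hl hH hll hγl hrP
    have h21 : Dec (L γ) y (res r γ) n (m + 1) :=
      (hdec _ hresP n m).2 ⟨res r γ, t1, g1, hoγ.refl _ hresP, pr_mem_res.2 ⟨h11, hαγ⟩, h12 _ h4⟩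
    exact h20 _ hresP (hoγ.refl _ hresP) _ h21

end Pool.Agent.CVH
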