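import Pool.Agent.CVH.HechA

/-! # The iteration of Hechler forcing is indexed by the stems -/

namespace Pool.Agent.CVH

open ZFM (Fm Sat push Dfn DT IsZF IsPair IsSub Rel IsFun)

universe u

variable {V : Type u} [WZ V] {l : V} {P L : V → V}

/-- the set of stems -/
theorem exists_stems : ∃ C : V, ∀ s, s ∈ C ↔ IsStem s := by
  obtain ⟨C, hC⟩ := exists_sep (pw (pd (om : V) om)) (P := fun s => IsStem s)
    (Df.isStem (Tm.var 0))
  refine ⟨C, fun s => ?_⟩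
  rw [hC, mem_pw]
  refine ⟨fun h => h.2, fun h => ⟨?_, h⟩⟩
  obtain ⟨n, h1, -⟩ := h
  intro x hx
  obtain ⟨i, -, m, rfl⟩ := h1 x hx
  exact pr_mem_pd.2 ⟨num_mem_om i, num_mem_om m⟩

variable (V) in
/-- the set of stems -/
noncomputable def Stems : V := (exists_stems (V := V)).choose

theorem mem_stems {s : V} : s ∈ Stems V ↔ IsStem s := (exists_stems (V := V)).choose_spec s

theorem exists_filt_stems : ∃ Cl : V, Filt (Stems V) Cl := by
  obtain ⟨Cl, -, hCl⟩ := exists_rel2 (om : V) (Stems V) (R := fun n c => IsSub c (pd n n))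
    (Df.isSub (Tm.var 1) (Tm.pd (Tm.var 0) (Tm.var 0)))
  refine ⟨Cl, ⟨fun n => ?_, fun n c h => ((hCl _ _).1 h).2.1, fun c hc => ?_⟩⟩
  · refine Set.Finite.subset (Fi.pw (Fi.pd (fi_num n) (fi_num n))) fun c hc => ?_
    exact mem_pw.2 ((hCl _ _).1 hc).2.2
  · obtain ⟨k, h1, h2⟩ := mem_stems.1 hc
    have h3 : ∀ i, ∃ v : ℕ, i < k → pr (num i) (num v) ∈ c := by
      intro i
      by_cases hi : i < k
      · obtain ⟨v, hv, -⟩ := h2 i hi
        exact ⟨v, fun _ => hv⟩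
      · exact ⟨0, fun h => absurd h hi⟩
    choose v hv using h3
    refine ⟨max k ((Finset.range k).sup fun i => v i + 1), fun m hm => ?_⟩
    refine (hCl _ _).2 ⟨num_mem_om m, hc, fun x hx => ?_⟩
    obtain ⟨i, hi, m', rfl⟩ := h1 x hx
    have e : m' = v i := (h2 i hi).unique hx (hv i hi)
    have h4 : v i + 1 ≤ (Finset.range k).sup fun i => v i + 1 :=
      Finset.le_sup (f := fun i => v i + 1) (Finset.mem_range.2 hi)
    have h5 := (le_max_left k ((Finset.range k).sup fun i => v i + 1)).trans hm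
    have h6 := (le_max_right k ((Finset.range k).sup fun i => v i + 1)).trans hm
    rw [pr_mem_pd, num_mem, num_mem]
    omega

/-- the components of a pair in `q` -/
theorem pr_comp {x y q : V} (h : pr x y ∈ q) : x ∈ un (un q) ∧ y ∈ un (un q) := by
  have e : pr x y = up (up x x) (up x y) := by
    symm
    rw [← isPair_iff]
    intro w
    rw [mem_up, eq_up, eq_up]
    simp only [or_self]
  have h1 : up x y ∈ un q := mem_un.2 ⟨_, h, e ▸ mem_up.2 (Or.inr rfl)⟩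
  exact ⟨mem_un.2 ⟨_, h1, mem_up.2 (Or.inl rfl)⟩, mem_un.2 ⟨_, h1, mem_up.2 (Or.inr rfl)⟩⟩

/-- the index of a condition: its stems -/
theorem exists_hidx (p : V) : ∃ σ : V, ∀ x, x ∈ σ ↔ ∃ γ s f, x = pr γ s ∧ pr γ (pr s f) ∈ p := by
  obtain ⟨σ, h1, h2⟩ := exists_rel2 (un (un p)) (un (un (un (un p))))
    (R := fun γ s => ∃ f, pr γ (pr s f) ∈ p)
    (Df.ex (Df.mem (Tm.pr (Tm.var 1) (Tm.pr (Tm.var 2) (Tm.var 0))) (Tm.const p)))
  refine ⟨σ, fun x => ⟨fun hx => ?_, ?_⟩⟩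
  · obtain ⟨γ, _, s, _, rfl⟩ := h1 x hx
    obtain ⟨_, _, f, hf⟩ := (h2 _ _).1 hx
    exact ⟨γ, s, f, rfl, hf⟩
  · rintro ⟨γ, s, f, rfl, hf⟩
    have h3 := pr_comp hf
    exact (h2 _ _).2 ⟨h3.1, (pr_comp h3.2).1, f, hf⟩

/-- the index of a condition: its stems -/
noncomputable def hidx (p : V) : V := (exists_hidx p).choose

theorem mem_hidx {p x : V} : x ∈ hidx p ↔ ∃ γ s f, x = pr γ s ∧ pr γ (pr s f) ∈ p :=
  (exists_hidx p).choose_spec x

theorem pr_mem_hidx {p γ s : V} : pr γ s ∈ hidx p ↔ ∃ f, pr γ (pr s f) ∈ p := by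
  rw [mem_hidx]
  constructor
  · rintro ⟨γ', s', f, e, h⟩
    obtain ⟨rfl, rfl⟩ := pr_inj.1 e
    exact ⟨f, h⟩
  · rintro ⟨f, h⟩
    exact ⟨γ, s, f, rfl, h⟩

theorem eq_hidx {p x : V} : x = hidx p ↔ ∀ z, z ∈ x ↔ ∃ γ s f, z = pr γ s ∧ pr γ (pr s f) ∈ p :=
  ⟨fun h => h ▸ fun _ => mem_hidx, fun h => WZ.ext fun z => by rw [h, mem_hidx]⟩

/-- a finite nonempty set of ordinals has a maximum -/
theorem exists_max_ord {s : Set V} (hs : s.Finite) (hne : s.Nonempty) (ho : ∀ x ∈ s, IsOrd x) :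
    ∃ m ∈ s, ∀ x ∈ s, x ∈ m ∨ x = m := by
  induction s, hs using Set.Finite.induction_on with
  | empty => exact absurd hne Set.not_nonempty_empty
  | @insert a s _ _ ih =>
    rcases s.eq_empty_or_nonempty with rfl | h
    · refine ⟨a, Set.mem_insert _ _, fun x hx => Or.inr ?_⟩
      rcases Set.mem_insert_iff.1 hx with h | h
      · exact h
      · exact absurd h (Set.notMem_empty x)
    · obtain ⟨m, hm, hmax⟩ := ih h fun x hx => ho x (Set.mem_insert_of_mem _ hx)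
      rcases (ho a (Set.mem_insert _ _)).tri (ho m (Set.mem_insert_of_mem _ hm)) with h1 | h1 | h1
      · refine ⟨m, Set.mem_insert_of_mem _ hm, fun x hx => ?_⟩
        rcases Set.mem_insert_iff.1 hx with rfl | h2
        · exact Or.inl h1
        · exact hmax x h2
      · refine ⟨m, Set.mem_insert_of_mem _ hm, fun x hx => ?_⟩
        rcases Set.mem_insert_iff.1 hx with rfl | h2
        · exact Or.inr h1
        · exact hmax x h2
      · refine ⟨a, Set.mem_insert _ _, fun x hx => ?_⟩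
        rcases Set.mem_insert_iff.1 hx with rfl | h2
        · exact Or.inr rfl
        · rcases hmax x h2 with h3 | rfl
          · exact Or.inl ((ho a (Set.mem_insert _ _)).tr h1 h3)
          · exact Or.inl h1

section

variable (hl : IsOrd l) (hH : IsHechler l P L)
include hl hH

/-- `r ≤ q`, when `γ` is the last coordinate of `q` -/
theorem hech_top {β γ q r : V} (hβ : β ∈ sc l) (hγ : γ ∈ β) (hr : r ∈ P β) (hq : q ∈ P β)
    (hD : ∀ δ y, pr δ y ∈ q → δ ∈ γ ∨ δ = γ) (h : pr (res r γ) (res q γ) ∈ L γ)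
    (h' : ∀ s f, pr γ (pr s f) ∈ q → ∃ t g, pr γ (pr t g) ∈ r ∧ IsSub s t ∧
      FLe (P γ) (L γ) (res r γ) f g ∧ ∀ n m : ℕ, pr (num n) (num m) ∈ t →
        pr (num n) (num m) ∉ s → FVal (P γ) (L γ) (res r γ) f n m) : pr r q ∈ L β := by
  have hg := hech_mem_sc hl hβ hγ
  refine hech_le_of hH hβ hr hq fun δ s f hd => Or.inr ?_
  rcases hD _ _ hd with hδ | rfl
  · obtain ⟨t, g, h1, h2, h3, h4⟩ := hech_of_le hH hg h (pr_mem_res.2 ⟨hd, hδ⟩)
    have e : res (res r γ) δ = res r δ := res_res fun x hx => (hech_ord_of hl hg).tr hδ hx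
    rw [e] at h3 h4
    exact ⟨t, g, (pr_mem_res.1 h1).1, h2, h3, h4⟩
  · exact h' s f hd

/-- the induction step: `γ` is in the domain of `p` -/
theorem hech_cmp_step {β γ p q r' s f : V} (hβ : β ∈ sc l) (hγ : γ ∈ β) (hp : p ∈ P β)
    (hq : q ∈ P β) (hD : ∀ δ y, pr δ y ∈ q → δ ∈ γ ∨ δ = γ) (hsf : pr γ (pr s f) ∈ p)
    (hc : Cmp (hidx p) (hidx q)) (h1 : pr r' (res p γ) ∈ L γ) (h2 : pr r' (res q γ) ∈ L γ) :
    ∃ r ∈ P β, pr r p ∈ L β ∧ pr r q ∈ L β := by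
  have hg := hech_mem_sc hl hβ hγ
  have ho := hech_po hl hH hβ
  obtain ⟨r₁, h3, -, h5, h6⟩ := hech_amalg hl hH hβ hγ hp h1
  have hr₁ := (ho.dom _ _ h3).1
  have hf := (hech_coord hH hβ hp hsf).2
  by_cases hq' : ∃ y, pr γ y ∈ q
  · obtain ⟨y, hy⟩ := hq'
    obtain ⟨s', g, rfl⟩ := hech_ex hH hβ hq hy
    have e : s = s' := hc γ s s' (pr_mem_hidx.2 ⟨f, hsf⟩) (pr_mem_hidx.2 ⟨g, hy⟩)
    subst e
    have hg' := (hech_coord hH hβ hq hy).2
    obtain ⟨h, hh, hfh, hgh⟩ := exists_max (hech_po hl hH hg) hf.2 hg'.2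
    obtain ⟨r, h7, h8, h9, -⟩ := hech_step hl hH hβ hγ hr₁ ((h6 _ _ (mem_irrefl γ)).2 hsf) hf.1 hh
      (fun x hx => hx) (hfh _) fun n m hn hn' => absurd hn hn'
    have hr := (ho.dom _ _ h7).1
    refine ⟨r, hr, ho.trans _ _ _ h7 h3, ?_⟩
    refine hech_top hl hH hβ hγ hr hq hD ?_ fun s' f' hd => ?_
    · rw [h9, h5]
      exact h2
    · obtain ⟨rfl, rfl⟩ := pr_inj.1 (hech_fun hH hβ hq hd hy)
      exact ⟨_, h, h8, fun x hx => hx, hgh _, fun n m hn hn' => absurd hn hn'⟩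
  · refine ⟨r₁, hr₁, h3, ?_⟩
    refine hech_top hl hH hβ hγ hr₁ hq hD ?_ fun s' f' hd => absurd ⟨_, hd⟩ hq'
    rw [h5]
    exact h2

/-- conditions with compatible stems are compatible -/
theorem hech_cmp {β : V} (hβ : β ∈ sc l) : ∀ p ∈ P β, ∀ q ∈ P β, Cmp (hidx p) (hidx q) →
    ∃ r ∈ P β, pr r p ∈ L β ∧ pr r q ∈ L β := by
  refine ord_induction (P := fun b => b ∈ sc l → ∀ p ∈ P b, ∀ q ∈ P b, Cmp (hidx p) (hidx q) →
    ∃ r ∈ P b, pr r p ∈ L b ∧ pr r q ∈ L b) ?_ (hech_ord_of hl hβ) hβ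
  intro b hbo ih hb p hp q hq hc
  have hpm := (hH.mem b hb p).1 hp
  have hqm := (hH.mem b hb q).1 hq
  by_cases hne : ∃ γ y, pr γ y ∈ ud p q
  · have hfin : {γ : V | ∃ y, pr γ y ∈ ud p q}.Finite := by
      have h3 : ∀ z : V, ∃ γ, ∀ δ y, z = pr δ y → δ = γ := by
        intro z
        by_cases hz : ∃ δ y, z = pr δ y
        · obtain ⟨δ, y, rfl⟩ := hz
          exact ⟨δ, fun δ' y' e => (pr_inj.1 e).1.symm⟩
        · exact ⟨z, fun δ y e => absurd ⟨δ, y, e⟩ hz⟩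
      choose g hg using h3
      refine Set.Finite.subset ((Fi.ud hpm.1 hqm.1).image g) ?_
      rintro γ ⟨y, hy⟩
      exact ⟨_, hy, (hg _ γ y rfl).symm⟩
    have hmemb : ∀ γ y, pr γ y ∈ ud p q → γ ∈ b := by
      intro γ y hy
      rcases mem_ud.1 hy with h | h
      · obtain ⟨s, f, rfl⟩ := hech_ex hH hb hp h
        exact (hech_coord hH hb hp h).1
      · obtain ⟨s, f, rfl⟩ := hech_ex hH hb hq h
        exact (hech_coord hH hb hq h).1
    obtain ⟨γ, ⟨y, hy⟩, hmax⟩ := exists_max_ord hfin hne (by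
      rintro x ⟨y, hy⟩
      exact hbo.mem (hmemb x y hy))
    have hγ := hmemb γ y hy
    have hg := hech_mem_sc hl hb hγ
    have hc' : Cmp (hidx (res p γ)) (hidx (res q γ)) := by
      intro δ s s' h1 h2
      obtain ⟨f, h1⟩ := pr_mem_hidx.1 h1
      obtain ⟨f', h2⟩ := pr_mem_hidx.1 h2
      exact hc δ s s' (pr_mem_hidx.2 ⟨f, (pr_mem_res.1 h1).1⟩)
        (pr_mem_hidx.2 ⟨f', (pr_mem_res.1 h2).1⟩)
    obtain ⟨r', _, h1, h2⟩ := ih γ hγ hg _ (hech_res hl hH hb hγ hp) _ (hech_res hl hH hb hγ hq) hc'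
    rcases mem_ud.1 hy with h | h
    · obtain ⟨s, f, rfl⟩ := hech_ex hH hb hp h
      exact hech_cmp_step hl hH hb hγ hp hq
        (fun δ y hd => hmax δ ⟨y, mem_ud.2 (Or.inr hd)⟩) h hc h1 h2
    · obtain ⟨s, f, rfl⟩ := hech_ex hH hb hq h
      obtain ⟨r, h3, h4, h5⟩ := hech_cmp_step hl hH hb hγ hq hp
        (fun δ y hd => hmax δ ⟨y, mem_ud.2 (Or.inl hd)⟩) h
        (fun s c c' h1 h2 => (hc s c' c h2 h1).symm) h2 h1
      exact ⟨r, h3, h5, h4⟩
  · have hpe : ∀ x, x ∉ p := fun x hx => by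
      obtain ⟨γ, _, s, f, rfl, _⟩ := hpm.2.1 x hx
      exact hne ⟨_, _, mem_ud.2 (Or.inl hx)⟩
    have hqe : ∀ x, x ∉ q := fun x hx => by
      obtain ⟨γ, _, s, f, rfl, _⟩ := hqm.2.1 x hx
      exact hne ⟨_, _, mem_ud.2 (Or.inr hx)⟩
    have e : q = p := WZ.ext fun z => iff_of_false (hqe z) (hpe z)
    subst e
    have := (hech_po hl hH hb).refl q hq
    exact ⟨q, hq, this, this⟩

end

theorem hech_idx (hl : IsOrd l) (hH : IsHechler l P L) : Idx (P l) (L l) l (Stems V) hidx := by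
  have hll : l ∈ sc l := mem_sc.2 (Or.inl rfl)
  refine ⟨fun p hp => ⟨?_, fun x hx => ?_, fun γ s s' h h' => ?_⟩, ?_, hech_cmp hl hH hll⟩
  · have h3 : ∀ z : V, ∃ x, ∀ γ s f, z = pr γ (pr s f) → pr γ s = x := by
      intro z
      by_cases hz : ∃ γ s f, z = pr γ (pr s f)
      · obtain ⟨γ, s, f, rfl⟩ := hz
        refine ⟨pr γ s, fun γ' s' f' e => ?_⟩
        obtain ⟨rfl, e2⟩ := pr_inj.1 e
        obtain ⟨rfl, _⟩ := pr_inj.1 e2
        rfl
      · exact ⟨z, fun γ s f e => absurd ⟨γ, s, f, e⟩ hz⟩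
    choose g hg using h3
    refine Set.Finite.subset (Set.Finite.image g ((hH.mem l hll p).1 hp).1) ?_
    intro x hx
    obtain ⟨γ, s, f, rfl, h⟩ := mem_hidx.1 hx
    exact ⟨_, h, (hg _ γ s f rfl).symm⟩
  · obtain ⟨γ, s, f, rfl, h⟩ := mem_hidx.1 hx
    obtain ⟨h1, h2, -⟩ := hech_coord hH hll hp h
    exact ⟨γ, h1, s, mem_stems.2 h2, rfl⟩
  · obtain ⟨f, h⟩ := pr_mem_hidx.1 h
    obtain ⟨f', h'⟩ := pr_mem_hidx.1 h'
    exact (pr_inj.1 (hech_fun hH hll hp h h')).1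
  · refine Df.congr (P := fun v => ∀ z, z ∈ v 0 ↔ ∃ γ s f, z = pr γ s ∧ pr γ (pr s f) ∈ v 1) ?_
      fun v => eq_hidx.symm
    exact Df.all (Df.iff (Df.mem (Tm.var 0) (Tm.var 1)) (Df.ex (Df.ex (Df.ex (Df.and
      (Df.eq (Tm.var 3) (Tm.pr (Tm.var 2) (Tm.var 1)))
      (Df.mem (Tm.pr (Tm.var 2) (Tm.pr (Tm.var 1) (Tm.var 0))) (Tm.var 5)))))))

end Pool.Agent.CVH
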