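import Pool.Agent.CVH.Fin

/-! # The filtration of a set of stems by finite sets -/

namespace Pool.Agent.CVH

open ZFM (Fm Sat push Dfn DT IsZF IsPair IsSub Rel IsFun)

universe u

variable {V : Type u} [WZ V]

theorem exists_filt_of {C : V} (hC : ∀ s ∈ C, IsStem s) : ∃ Cl : V, Filt C Cl := by
  obtain ⟨Cl, -, hCl⟩ := exists_rel2 (om : V) C (R := fun n s => IsSub s (pd n n))
    (Df.isSub (Tm.var 1) (Tm.pd (Tm.var 0) (Tm.var 0)))
  refine ⟨Cl, ?_, ?_, ?_⟩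
  · intro n
    have h1 : Fi (pw (pd (num n) (num n) : V)) := Fi.pw (Fi.pd (fi_num n) (fi_num n))
    refine h1.subset fun c hc => ?_
    exact mem_pw.2 ((hCl _ _).1 hc).2.2
  · intro n c hc
    exact ((hCl _ _).1 hc).2.1
  · intro c hc
    obtain ⟨N, h1, h2⟩ := hC c hc
    have h3 : ∀ i : ℕ, ∃ m : ℕ, i < N → pr (num i) (num m) ∈ c := by
      intro i
      by_cases hi : i < N
      · obtain ⟨m, hm, -⟩ := h2 i hi
        exact ⟨m, fun _ => hm⟩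
      · exact ⟨0, fun h => absurd h hi⟩
    choose f hf using h3
    refine ⟨max N ((Finset.range N).sup f + 1), fun k hk => ?_⟩
    refine (hCl _ _).2 ⟨num_mem_om k, hc, fun x hx => ?_⟩
    obtain ⟨i, hi, m, rfl⟩ := h1 x hx
    obtain ⟨m', -, hu⟩ := h2 i hi
    have e : m = f i := (hu m hx).trans (hu (f i) (hf i hi)).symm
    have h4 : f i ≤ (Finset.range N).sup f := Finset.le_sup (Finset.mem_range.2 hi)
    refine pr_mem_pd.2 ⟨num_mem.2 (by omega), num_mem.2 (by omega)⟩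

theorem isStem_iff {s : V} : IsStem s ↔ ∃ n, n ∈ (om : V) ∧
    (∀ x, x ∈ s → ∃ i, i ∈ n ∧ ∃ m, m ∈ (om : V) ∧ x = pr i m) ∧
    ∀ i, i ∈ n → ∃ m, m ∈ (om : V) ∧ pr i m ∈ s ∧ ∀ m', m' ∈ (om : V) → pr i m' ∈ s → m' = m := by
  constructor
  · rintro ⟨n, h1, h2⟩
    refine ⟨num n, num_mem_om n, fun x hx => ?_, fun i hi => ?_⟩
    · obtain ⟨i, hi, m, rfl⟩ := h1 x hx
      exact ⟨num i, num_mem.2 hi, num m, num_mem_om m, rfl⟩
    · obtain ⟨i', hi', rfl⟩ := mem_num.1 hi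
      obtain ⟨m, hm, hu⟩ := h2 i' hi'
      refine ⟨num m, num_mem_om m, hm, fun m' hm' h => ?_⟩
      obtain ⟨k, rfl⟩ := mem_om.1 hm'
      exact congrArg num (hu k h)
  · rintro ⟨n, hn, h1, h2⟩
    obtain ⟨k, rfl⟩ := mem_om.1 hn
    refine ⟨k, fun x hx => ?_, fun i hi => ?_⟩
    · obtain ⟨i, hi, m, hm, rfl⟩ := h1 x hx
      obtain ⟨i', hi', rfl⟩ := mem_num.1 hi
      obtain ⟨m', rfl⟩ := mem_om.1 hm
      exact ⟨i', hi', m', rfl⟩
    · obtain ⟨m, hm, h3, h4⟩ := h2 (num i) (num_mem.2 hi)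
      obtain ⟨m', rfl⟩ := mem_om.1 hm
      exact ⟨m', h3, fun k' hk' => num_inj.1 (h4 _ (num_mem_om k') hk')⟩

theorem IsStem.sub {s : V} (h : IsStem s) : IsSub s (pd om om) := by
  obtain ⟨n, h1, -⟩ := h
  intro x hx
  obtain ⟨i, -, m, rfl⟩ := h1 x hx
  exact pr_mem_pd.2 ⟨num_mem_om i, num_mem_om m⟩

/-- the set of stems -/
theorem exists_stems' : ∃ C : V, ∀ s, s ∈ C ↔ IsStem s := by
  obtain ⟨C, hC⟩ := exists_sep (pw (pd om om) : V) (P := fun s => ∃ n, n ∈ (om : V) ∧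
    (∀ x, x ∈ s → ∃ i, i ∈ n ∧ ∃ m, m ∈ (om : V) ∧ x = pr i m) ∧
    ∀ i, i ∈ n → ∃ m, m ∈ (om : V) ∧ pr i m ∈ s ∧ ∀ m', m' ∈ (om : V) → pr i m' ∈ s → m' = m) (by
      repeat' first
        | exact Tm.var _
        | exact Tm.const _
        | apply Df.and
        | apply Df.imp
        | (apply Df.ex; beta_reduce)
        | (apply Df.all; beta_reduce)
        | apply Tm.pr
        | apply Df.mem
        | apply Df.eq)
  refine ⟨C, fun s => ?_⟩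
  rw [hC, mem_pw]
  refine ⟨fun h => isStem_iff.2 h.2, fun h => ⟨h.sub, isStem_iff.1 h⟩⟩

end Pool.Agent.CVH
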