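import Pool.Agent.CVH.Cov
import Pool.Agent.CVH.Pig
import Pool.Agent.CVH.Lab

/-! # The covering property holds above the length of the iteration -/

namespace Pool.Agent.CVH

open ZFM (Fm Sat push Dfn DT IsZF IsPair IsSub Rel IsFun)

universe u

attribute [local irreducible] Tm

variable {V W : Type u} [WZ V] [WZ W] {j : V → W} {P L S C Cl : V} {G : W} {idx : V → V}

namespace JH

/-- the indices of the conditions below `p₀` which force `x(a, m) = v` -/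
def RR (P L r p₀ : V) (idx : V → V) (a m v ρ : V) : Prop :=
  ∃ p : V, pr p p₀ ∈ L ∧ Frc P L r p (pr (pr a m) v) ∧ ρ = idx p

theorem df_RR (hi : Idx P L S C idx) (r p₀ : V) :
    Df (fun v => RR P L r p₀ idx (v 0) (v 1) (v 2) (v 3)) := by
  unfold RR
  refine Df.ex (Df.and ?_ (Df.and ?_ ?_))
  · exact Df.mem (Tm.pr (Tm.var 0) (Tm.const p₀)) (Tm.const L)
  · exact Df.frc (Tm.const P) (Tm.const L) (Tm.const r) (Tm.var 0)
      (Tm.pr (Tm.pr (Tm.var 1) (Tm.var 2)) (Tm.var 3))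
  · exact Df.sub2 (R := fun x y => x = idx y) hi.df (Tm.var 4) (Tm.var 0)

theorem df_Rg {R : V → V → V → V → Prop} (hR : Df (fun v => R (v 0) (v 1) (v 2) (v 3))) :
    Df (fun v => Rg S C (R (v 0) (v 1) (v 2)) (v 3)) := by
  unfold Rg
  refine Df.and (Df.isFn (Tm.const S) (Tm.const C) (Tm.var 3)) (Df.all (Df.imp ?_ (Df.imp ?_
    (Df.ex (Df.and ?_ (Df.and ?_ ?_))))))
  · exact Df.isFn (Tm.const S) (Tm.const C) (Tm.var 0)
  · exact Df.isSub (Tm.var 4) (Tm.var 0)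
  · exact Df.isFn (Tm.const S) (Tm.const C) (Tm.var 0)
  · exact Df.sub4 hR (Tm.var 2) (Tm.var 3) (Tm.var 4) (Tm.var 0)
  · exact Df.cmp (Tm.var 1) (Tm.var 0)

theorem df_Mn {R : V → V → V → V → Prop} (hR : Df (fun v => R (v 0) (v 1) (v 2) (v 3))) :
    Df (fun v => Mn S C (R (v 0) (v 1) (v 2)) (v 3)) := by
  unfold Mn
  refine Df.and (Df.isFn (Tm.const S) (Tm.const C) (Tm.var 3)) (Df.and hR (Df.all (Df.imp ?_
    (Df.imp ?_ ?_))))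
  · exact Df.isSub (Tm.var 0) (Tm.var 4)
  · exact Df.sub4 hR (Tm.var 1) (Tm.var 2) (Tm.var 3) (Tm.var 0)
  · exact Df.eq (Tm.var 0) (Tm.var 4)

/-- the sets `E_{a,l}` -/
theorem exists_E (hF : Filt C Cl) (θ : V) {T : V → V → V → V → Prop}
    (hTd : Df (fun v => T (v 0) (v 1) (v 2) (v 3))) (hTf : ∀ a m v σ, T a m v σ → IsFn S C σ)
    (hfin : ∀ a m v, ∀ l : ℕ, {σ | T a m v σ ∧ Lv Cl (num l) σ}.Finite) :
    ∃ E : V, (∀ a, ∀ n : ℕ, {ξ : V | pr (pr a (num n)) ξ ∈ E}.Finite) ∧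
      (∀ x ξ, pr x ξ ∈ E → ξ ∈ S) ∧
      ∀ a ∈ θ, ∀ m v : ℕ, ∀ σ, T a (num m) (num v) σ → ∀ s c, pr s c ∈ σ →
        ∃ n : ℕ, pr (pr a (num n)) s ∈ E := by
  have hQ : Df (fun w : ℕ → V => ∃ σ c, T (w 0) (w 2) (w 3) σ ∧ Lv Cl (w 1) σ ∧ pr (w 4) c ∈ σ) := by
    refine Df.ex (Df.ex (Df.and ?_ (Df.and ?_ ?_)))
    · exact Df.sub4 hTd (Tm.var 2) (Tm.var 4) (Tm.var 5) (Tm.var 1)
    · exact Df.lv (Tm.const Cl) (Tm.var 3) (Tm.var 1)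
    · exact Df.mem (Tm.pr (Tm.var 6) (Tm.var 0)) (Tm.var 1)
  obtain ⟨E, -, hE⟩ := exists_rel2 (pd θ om) S (R := fun u ξ => ∃ a l m v : V, u = pr a l ∧ m ∈ l ∧
    v ∈ l ∧ ∃ σ c, T a m v σ ∧ Lv Cl l σ ∧ pr ξ c ∈ σ) (by
    refine Df.ex (Df.ex (Df.ex (Df.ex (Df.and ?_ (Df.and ?_ (Df.and ?_ ?_))))))
    · exact Df.eq (Tm.var 4) (Tm.pr (Tm.var 3) (Tm.var 2))
    · exact Df.mem (Tm.var 1) (Tm.var 2)
    · exact Df.mem (Tm.var 0) (Tm.var 2)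
    · exact Df.sub5 (R := fun a l m v ξ => ∃ σ c, T a m v σ ∧ Lv Cl l σ ∧ pr ξ c ∈ σ) hQ (Tm.var 3)
        (Tm.var 2) (Tm.var 1) (Tm.var 0) (Tm.var 5))
  have : Nonempty V := ⟨emp⟩
  refine ⟨E, fun a n => ?_, fun x ξ h => ((hE x ξ).1 h).2.1, fun a ha m v σ hσ s c hs => ?_⟩
  · have h1 : (⋃ m ∈ Set.Iio n, ⋃ v ∈ Set.Iio n, ⋃ σ ∈ {σ | T a (num m) (num v) σ ∧
        Lv Cl (num n) σ}, {ξ : V | ∃ c, pr ξ c ∈ σ}).Finite := by
      refine (Set.finite_Iio n).biUnion fun m _ => (Set.finite_Iio n).biUnion fun v _ =>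
        (hfin a (num m) (num v) n).biUnion fun σ hσ => ?_
      have h2 := hTf _ _ _ _ hσ.1
      have h3 : {ξ : V | ∃ c, pr ξ c ∈ σ} ⊆ (fun z => Classical.epsilon fun ξ => ∃ c, z = pr ξ c) ''
          {z | z ∈ σ} := by
        rintro ξ ⟨c, hc⟩
        refine ⟨pr ξ c, hc, ?_⟩
        have h4 : ∃ c', pr ξ c = pr (Classical.epsilon fun ξ' => ∃ c', pr ξ c = pr ξ' c') c' :=
          Classical.epsilon_spec (p := fun ξ' => ∃ c', pr ξ c = pr ξ' c') ⟨ξ, c, rfl⟩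
        obtain ⟨c', h5⟩ := h4
        exact (pr_inj.1 h5).1.symm
      exact (Set.Finite.image _ h2.1).subset h3
    refine h1.subset fun ξ hξ => ?_
    obtain ⟨-, -, a', l, m, v, e, hm, hv, σ, c, h2, h3, h4⟩ := (hE _ _).1 hξ
    obtain ⟨rfl, rfl⟩ := pr_inj.1 e
    obtain ⟨m', hm', rfl⟩ := mem_num.1 hm
    obtain ⟨v', hv', rfl⟩ := mem_num.1 hv
    simp only [Set.mem_iUnion]
    exact ⟨m', hm', v', hv', σ, ⟨h2, h3⟩, c, h4⟩
  · have hf := hTf _ _ _ _ hσ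
    obtain ⟨n, hn⟩ := exists_lv hF hf
    obtain ⟨s', hs', c', hc', e⟩ := hf.2.1 _ hs
    obtain ⟨rfl, rfl⟩ := pr_inj.1 e
    refine ⟨n + m + v + 1, (hE _ _).2 ⟨pr_mem_pd.2 ⟨ha, num_mem_om _⟩, hs', a, _, num m, num v, rfl,
      num_mem.2 (by omega), num_mem.2 (by omega), σ, c, hσ, hn _ (by omega), hs⟩⟩

/-- the order of ordinals, as a transitive relation -/
def olt (a b : V) : Prop := IsOrd b ∧ a ∈ b

theorem df_olt : Df (fun v : ℕ → V => olt (v 0) (v 1)) :=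
  Df.and (Df.isOrd (Tm.var 1)) (Df.mem (Tm.var 0) (Tm.var 1))

/-- the transport of a finite function along the labels -/
def Trn (B : V → V → Prop) (σ τ : V) : Prop :=
  ∀ w, w ∈ τ ↔ ∃ s c x, w = pr x c ∧ pr s c ∈ σ ∧ Lb om B olt s x

theorem df_Trn {B : V → V → Prop} (hB : Df (fun v => B (v 0) (v 1))) :
    Df (fun v => Trn B (v 0) (v 1)) := by
  unfold Trn
  refine Df.all (Df.iff (Df.mem (Tm.var 0) (Tm.var 2)) (Df.ex (Df.ex (Df.ex (Df.and ?_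
    (Df.and ?_ ?_))))))
  · exact Df.eq (Tm.var 3) (Tm.pr (Tm.var 0) (Tm.var 1))
  · exact Df.mem (Tm.pr (Tm.var 2) (Tm.var 1)) (Tm.var 4)
  · exact Df.lb (A := fun _ => B) (Df.sub2 hB (Tm.var 1) (Tm.var 2)) df_olt (Tm.var 0) (Tm.var 2)
      (Tm.var 0)

section

variable {B : V → V → Prop} (hBf : ∀ n : ℕ, {a | B (num n) a}.Finite)
  (hBo : ∀ n a, B n a → IsOrd a)
include hBf hBo

theorem lb_inj' {a a' x : V} (h : Lb om B olt a x) (h' : Lb om B olt a' x) : a = a' := by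
  refine lb_inj hBf (fun a b c hab hbc => ⟨hbc.1, hbc.1.tr hbc.2 hab.2⟩)
    (fun a h => mem_irrefl a h.2) (fun n a b ha hb => ?_) h h'
  rcases (hBo n a ha).tri (hBo n b hb) with h | h | h
  · exact Or.inl ⟨hBo n b hb, h⟩
  · exact Or.inr (Or.inl h)
  · exact Or.inr (Or.inr ⟨hBo n a ha, h⟩)

theorem exists_trn {σ : V} (hσ : IsFn S C σ) : ∃ τ, Trn B σ τ ∧ IsFn (pd om om) C τ := by
  have h1 : {w : V | ∃ s c x, w = pr x c ∧ pr s c ∈ σ ∧ Lb om B olt s x}.Finite := by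
    have h2 : (⋃ z ∈ {z | z ∈ σ}, {w : V | ∃ s c x, w = pr x c ∧ z = pr s c ∧
        Lb om B olt s x}).Finite := by
      refine Set.Finite.biUnion hσ.1 fun z _ => Set.Subsingleton.finite ?_
      rintro w ⟨s, c, x, rfl, rfl, hx⟩ w' ⟨s', c', x', rfl, e, hx'⟩
      obtain ⟨rfl, rfl⟩ := pr_inj.1 e
      rw [lb_unique hx hx']
    refine h2.subset ?_
    rintro w ⟨s, c, x, hw, hs, hx⟩
    simp only [Set.mem_iUnion]
    exact ⟨pr s c, hs, s, c, x, hw, rfl, hx⟩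
  obtain ⟨τ, hτ⟩ := exists_fin h1
  refine ⟨τ, hτ, ?_, fun w hw => ?_, fun x c c' h h' => ?_⟩
  · have h3 : {y | y ∈ τ} = {w : V | ∃ s c x, w = pr x c ∧ pr s c ∈ σ ∧ Lb om B olt s x} :=
      Set.ext hτ
    unfold Fi
    rw [h3]
    exact h1
  · obtain ⟨s, c, x, hw, hs, hx⟩ := (hτ w).1 hw
    obtain ⟨s', -, c', hc', e⟩ := hσ.2.1 _ hs
    obtain ⟨rfl, rfl⟩ := pr_inj.1 e
    exact ⟨x, hx.mem.1, c, hc', hw⟩
  · obtain ⟨s, d, x1, e, hs, hx⟩ := (hτ _).1 h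
    obtain ⟨s', d', x2, e', hs', hx'⟩ := (hτ _).1 h'
    obtain ⟨rfl, rfl⟩ := pr_inj.1 e
    obtain ⟨rfl, rfl⟩ := pr_inj.1 e'
    obtain rfl := lb_inj' hBf hBo hx hx'
    exact hσ.2.2 _ _ _ hs hs'

theorem trn_sub {σ σ' τ : V} (hσ : IsFn S C σ) (h : Trn B σ τ) (h' : Trn B σ' τ)
    (hl : ∀ s c, pr s c ∈ σ → ∃ n : ℕ, B (num n) s) : IsSub σ σ' := by
  intro z hz
  obtain ⟨s, -, c, -, rfl⟩ := hσ.2.1 z hz
  obtain ⟨n, hn⟩ := hl s c hz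
  obtain ⟨x, hx, -⟩ := exists_lb (lt := olt) hBf hn
  obtain ⟨s', c', x', e, hs', hx'⟩ := (h' _).1 ((h (pr x c)).2 ⟨s, c, x, rfl, hz, hx⟩)
  obtain ⟨rfl, rfl⟩ := pr_inj.1 e
  obtain rfl := lb_inj' hBf hBo hx hx'
  exact hs'

/-- two values of the increasing function have the same finite functions -/
theorem exists_same (hBd : Df (fun v => B (v 0) (v 1))) {h ν θ g : V} (hν : IsOrd ν)
    (hh : IsSub h ν) (hg : Inc g ν θ) (hp : Pigeon h (pd (pd om om) (Fn (pd om om) C)))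
    {T : V → V → V → V → Prop} (hTd : Df (fun v => T (v 0) (v 1) (v 2) (v 3)))
    (hTf : ∀ a m v σ, T a m v σ → IsFn S C σ)
    (hB : ∀ i ∈ ν, ∀ a, pr i a ∈ g → ∀ m v : ℕ, ∀ σ, T a (num m) (num v) σ → ∀ s c, pr s c ∈ σ →
      ∃ n : ℕ, B (num n) s) :
    ∃ α ∈ ν, ∃ β ∈ ν, ∃ a c, a ≠ c ∧ pr α a ∈ g ∧ pr β c ∈ g ∧
      ∀ m v : ℕ, ∀ σ, T a (num m) (num v) σ ↔ T c (num m) (num v) σ := by
  have hQ : Df (fun w : ℕ → V => ∃ m v τ, w 1 = pr (pr m v) τ ∧ ∃ σ, T (w 0) m v σ ∧ Trn B σ τ) := by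
    refine Df.ex (Df.ex (Df.ex (Df.and ?_ (Df.ex (Df.and ?_ ?_)))))
    · exact Df.eq (Tm.var 4) (Tm.pr (Tm.pr (Tm.var 2) (Tm.var 1)) (Tm.var 0))
    · exact Df.sub4 hTd (Tm.var 4) (Tm.var 3) (Tm.var 2) (Tm.var 0)
    · exact Df.sub2 (df_Trn hBd) (Tm.var 0) (Tm.var 1)
  obtain ⟨α, hα, β, hβ, hne, key⟩ := hp.df (R := fun α z => ∃ a, pr α a ∈ g ∧ ∃ m v τ,
    z = pr (pr m v) τ ∧ ∃ σ, T a m v σ ∧ Trn B σ τ) (by
    refine Df.ex (Df.and ?_ ?_)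
    · exact Df.mem (Tm.pr (Tm.var 1) (Tm.var 0)) (Tm.const g)
    · exact Df.sub2 (R := fun a z => ∃ m v τ, z = pr (pr m v) τ ∧ ∃ σ, T a m v σ ∧ Trn B σ τ) hQ
        (Tm.var 0) (Tm.var 2))
  obtain ⟨a, ha, hau⟩ := hg.1 α (hh α hα)
  obtain ⟨c, hc, hcu⟩ := hg.1 β (hh β hβ)
  have hac : a ≠ c := by
    rintro rfl
    rcases (hν.mem (hh α hα)).tri (hν.mem (hh β hβ)) with h1 | h1 | h1
    · exact mem_irrefl _ (hg.2.2 α (hh α hα) β (hh β hβ) h1 a a ha hc)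
    · exact hne h1
    · exact mem_irrefl _ (hg.2.2 β (hh β hβ) α (hh α hα) h1 a a hc ha)
  have half : ∀ α β a c, α ∈ ν → β ∈ ν → pr α a ∈ g → (∀ y, pr β y ∈ g → y = c) → pr β c ∈ g →
      (∀ x ∈ pd (pd om om) (Fn (pd om om) C), (∃ a, pr α a ∈ g ∧ ∃ m v τ, x = pr (pr m v) τ ∧
        ∃ σ, T a m v σ ∧ Trn B σ τ) → ∃ a, pr β a ∈ g ∧ ∃ m v τ, x = pr (pr m v) τ ∧
        ∃ σ, T a m v σ ∧ Trn B σ τ) →
      ∀ m v : ℕ, ∀ σ, T a (num m) (num v) σ → T c (num m) (num v) σ := by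
    intro α β a c hα hβ ha hcu hc key m v σ hσ
    obtain ⟨τ, hτ, hτf⟩ := exists_trn hBf hBo (hTf _ _ _ _ hσ)
    obtain ⟨c', hc', m', v', τ', e, σ', hσ', hτ'⟩ := key (pr (pr (num m) (num v)) τ)
      (pr_mem_pd.2 ⟨pr_mem_pd.2 ⟨num_mem_om m, num_mem_om v⟩, mem_Fn.2 hτf⟩)
      ⟨a, ha, num m, num v, τ, rfl, σ, hσ, hτ⟩
    obtain rfl := hcu c' hc'
    obtain ⟨e1, rfl⟩ := pr_inj.1 e
    obtain ⟨rfl, rfl⟩ := pr_inj.1 e1
    have h1 := trn_sub hBf hBo (hTf _ _ _ _ hσ) hτ hτ' (hB α hα a ha m v σ hσ)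
    have h2 := trn_sub hBf hBo (hTf _ _ _ _ hσ') hτ' hτ (hB β hβ c' hc m v σ' hσ')
    have h3 : σ = σ' := WZ.ext fun z => ⟨h1 z, h2 z⟩
    rw [h3]
    exact hσ'
  refine ⟨α, hh α hα, β, hh β hβ, a, c, hac, ha, hc, fun m v σ => ⟨?_, ?_⟩⟩
  · exact half α β a c (hh α hα) (hh β hβ) ha hcu hc (fun x hx => (key x hx).1) m v σ
  · exact half β α c a (hh β hβ) (hh α hα) hc hau ha (fun x hx => (key x hx).2) m v σ

end

/-- families with the same minimal elements have the same regularisation -/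
theorem rg_of_mn {R R' : V → Prop} (h : ∀ σ, Mn S C (Rg S C R) σ ↔ Mn S C (Rg S C R') σ) {s : V}
    (hs : Rg S C R s) : Rg S C R' s := by
  obtain ⟨σ, h1, h2⟩ := exists_min (R := Rg S C R) hs.1 hs
  exact ((h σ).1 h1).2.1.up hs.1 h2

end JH

open JH in
/-- if the forcing is indexed by the ordinal `S` and `h ≤ S < ν`, then injective sequences of reals
of length `θ` give the covering property -/
theorem jj_of_ii (hG : GenExt j P L G) (ho : IsPo P L) (hF : Filt C Cl) (hi : Idx P L S C idx)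
    {h ν θ : V} (hS : IsOrd S) (hν : IsOrd ν) (hθ : IsOrd θ) (hh : IsSub h ν) (hSν : S ∈ ν)
    (hp : Pigeon h (pd (pd om om) (Fn (pd om om) C))) (hI : II (j θ)) : JJ (j ν) (j θ) := by
  obtain ⟨x, hx, hinj⟩ := hI
  obtain ⟨r, hr⟩ := hG.exists_nm (pd (pd θ om) om) x
  have hpr : ∀ a, ∀ n m : ℕ, pr (pr (j a) (num n)) (num m) = j (pr (pr a (num n)) (num m)) := by
    intro a n m
    rw [hG.j_pr, hG.j_pr, hG.j_num, hG.j_num]
  obtain ⟨p₀, hp₀, hpu⟩ := hG.exists_uniq ho hr (by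
    intro u hu y hy y' hy' h1 h2
    obtain ⟨a, ha, n, hn, rfl⟩ := mem_pd.1 hu
    obtain ⟨n, rfl⟩ := mem_om.1 hn
    obtain ⟨m, rfl⟩ := mem_om.1 hy
    obtain ⟨m', rfl⟩ := mem_om.1 hy'
    rw [hG.j_pr, hG.j_num, hG.j_num] at h1 h2
    obtain ⟨k, -, hk⟩ := hx (j a) ((hG.mem _ _).2 ha) n
    rw [hk m h1, hk m' h2])
  obtain ⟨E, hE1, hE2, hE3⟩ := exists_E (S := S) hF θ
    (T := fun a m v => Mn S C (Rg S C (RR P L r p₀ idx a m v)))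
    (df_Mn (R := fun a m v => Rg S C (RR P L r p₀ idx a m v))
      (df_Rg (R := RR P L r p₀ idx) (df_RR hi r p₀))) (fun a m v σ h => h.1) fun a m v l =>
      fin_min hF (reg_rg _) l
  refine ⟨j E, fun a ha n => ?_, fun b hb => ?_⟩
  · obtain ⟨a, ha, rfl⟩ := hG.of_mem ha
    refine ((hE1 a n).image j).subset ?_
    rintro ξ ⟨-, hξ⟩
    obtain ⟨y, ξ', e, rfl, h1⟩ := hG.of_pr_mem hξ
    rw [← hG.j_num, ← hG.j_pr] at e
    obtain rfl := hG.inj e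
    exact ⟨ξ', h1, rfl⟩
  · rintro ⟨g, hg, hcov⟩
    obtain ⟨b', hb1, hb2⟩ := cover_fin hG ho hF hi (A := om) (N := ν) (b := b) (by
      intro a ha
      obtain ⟨n, rfl⟩ := mem_om.1 ha
      rw [hG.j_num]
      refine Set.Finite.subset (Set.Finite.preimage hG.inj.injOn (hb n)) ?_
      rintro ξ ⟨h1, h2⟩
      exact ⟨(hG.mem _ _).2 h1, h2⟩)
    obtain ⟨Y, hY⟩ := exists_sep θ (P := fun a => ∀ l, l ∈ om → ∀ ξ, pr (pr a l) ξ ∈ E →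
      ∃ n, n ∈ om ∧ ∃ k, k ∈ om ∧ pr (pr n k) ξ ∈ b') (by
      refine Df.all (Df.imp (Df.mem (Tm.var 0) (Tm.const om)) (Df.all (Df.imp ?_ (Df.ex (Df.and
        (Df.mem (Tm.var 0) (Tm.const om)) (Df.ex (Df.and (Df.mem (Tm.var 0) (Tm.const om)) ?_)))))))
      · exact Df.mem (Tm.pr (Tm.pr (Tm.var 2) (Tm.var 1)) (Tm.var 0)) (Tm.const E)
      · exact Df.mem (Tm.pr (Tm.pr (Tm.var 1) (Tm.var 0)) (Tm.var 2)) (Tm.const b'))
    obtain ⟨g', hg', hgY⟩ := exists_inc hG ho hν hθ hg (Y := Y) (by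
      intro i hi' a ha hia
      refine (hY a).2 ⟨ha, fun l hl ξ hξ => ?_⟩
      obtain ⟨n, rfl⟩ := mem_om.1 hl
      have hξν : ξ ∈ ν := hν.tr hSν (hE2 _ _ hξ)
      obtain ⟨k, hk⟩ := hcov (j i) ((hG.mem _ _).2 hi') (j a) hia n (j ξ) ((hG.mem _ _).2 hξν) (by
        rw [← hG.j_num, ← hG.j_pr, hG.pr_mem]
        exact hξ)
      rw [← hG.j_num] at hk
      obtain ⟨k', hk'⟩ := hb2 (num k) (num_mem_om k) ξ hξν hk
      exact ⟨num k, num_mem_om k, num k', num_mem_om k', hk'⟩)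
    obtain ⟨α, hα, β, hβ, a, c, hac, ha, hc, hT⟩ := exists_same (S := S) (C := C)
      (B := fun l ξ => ξ ∈ ν ∧ ∃ n, n ∈ l ∧ ∃ k, k ∈ l ∧ pr (pr n k) ξ ∈ b')
      (T := fun a m v => Mn S C (Rg S C (RR P L r p₀ idx a m v))) (by
        intro N
        have h1 : (⋃ n ∈ Set.Iio N, ⋃ k ∈ Set.Iio N,
            {ξ : V | ξ ∈ ν ∧ pr (pr (num n) (num k)) ξ ∈ b'}).Finite :=
          (Set.finite_Iio N).biUnion fun n _ => (Set.finite_Iio N).biUnion fun k _ =>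
            hb1 (num n) (num_mem_om n) k
        refine h1.subset ?_
        rintro ξ ⟨h2, n, hn, k, hk, h3⟩
        obtain ⟨n', hn', rfl⟩ := mem_num.1 hn
        obtain ⟨k', hk', rfl⟩ := mem_num.1 hk
        simp only [Set.mem_iUnion]
        exact ⟨n', hn', k', hk', h2, h3⟩)
      (fun n a h => hν.mem h.1) (by
        refine Df.and (Df.mem (Tm.var 1) (Tm.const ν)) (Df.ex (Df.and (Df.mem (Tm.var 0) (Tm.var 1))
          (Df.ex (Df.and (Df.mem (Tm.var 0) (Tm.var 2)) ?_))))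
        exact Df.mem (Tm.pr (Tm.pr (Tm.var 1) (Tm.var 0)) (Tm.var 3)) (Tm.const b'))
      hν hh hg' hp (df_Mn (R := fun a m v => Rg S C (RR P L r p₀ idx a m v))
        (df_Rg (R := RR P L r p₀ idx) (df_RR hi r p₀))) (fun a m v σ h => h.1) (by
        intro i hi' a ha m v σ hσ s c hs
        have haθ := hg'.2.1 i hi' a ha
        obtain ⟨n, hn⟩ := hE3 a haθ m v σ hσ s c hs
        obtain ⟨n', hn', k', hk', h1⟩ := ((hY a).1 (hgY i hi' a ha)).2 (num n) (num_mem_om n) s hn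
        obtain ⟨n₁, rfl⟩ := mem_om.1 hn'
        obtain ⟨k₁, rfl⟩ := mem_om.1 hk'
        exact ⟨n₁ + k₁ + 1, hν.tr hSν (hE2 _ _ hn), num n₁, num_mem.2 (by omega), num k₁,
          num_mem.2 (by omega), h1⟩)
    have haθ := hg'.2.1 α hα a ha
    have hcθ := hg'.2.1 β hβ c hc
    obtain ⟨n, m, h1, h2⟩ := hinj (j a) ((hG.mem _ _).2 haθ) (j c) ((hG.mem _ _).2 hcθ)
      fun e => hac (hG.inj e)
    obtain ⟨m', hm', -⟩ := hx (j c) ((hG.mem _ _).2 hcθ) n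
    have hmm : m ≠ m' := by
      rintro rfl
      exact h2 hm'
    have h1' : pr (pr (j a) (num n)) (num m) ∈ x := h1
    have hm'' : pr (pr (j c) (num n)) (num m') ∈ x := hm'
    rw [hpr] at h1' hm''
    obtain ⟨p₁, hp₁, hf₁⟩ := hG.exists_frc ho hr
      (pr_mem_pd.2 ⟨pr_mem_pd.2 ⟨haθ, num_mem_om n⟩, num_mem_om m⟩) h1'
    obtain ⟨p₂, hp₂, hf₂⟩ := hG.exists_frc ho hr
      (pr_mem_pd.2 ⟨pr_mem_pd.2 ⟨hcθ, num_mem_om n⟩, num_mem_om m'⟩) hm''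
    obtain ⟨q, hq, hq1, hq2⟩ := hG.dir _ _ hp₁ hp₂
    obtain ⟨p, hpG, hpq, hp0⟩ := hG.dir _ _ hq hp₀
    have hfn := hi.fn p (hG.mem_P hpG)
    have hA : Rg S C (RR P L r p₀ idx a (num n) (num m)) (idx p) :=
      rg_of hfn ⟨p, hp0, hf₁.mono ho (ho.trans _ _ _ hpq hq1), rfl⟩
    have hB : Rg S C (RR P L r p₀ idx c (num n) (num m')) (idx p) :=
      rg_of hfn ⟨p, hp0, hf₂.mono ho (ho.trans _ _ _ hpq hq2), rfl⟩
    refine rg_disj ?_ (rg_of_mn (hT n m) hA) hB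
    rintro ρ ρ' - - ⟨s, hs0, hs, rfl⟩ ⟨s', hs0', hs', rfl⟩ hcmp
    obtain ⟨t, ht, hts, hts'⟩ := hi.cmp s (ho.dom _ _ hs0).1 s' (ho.dom _ _ hs0').1 hcmp
    have h3 := hpu t (ho.trans _ _ _ hts hs0) (pr c (num n)) (pr_mem_pd.2 ⟨hcθ, num_mem_om n⟩)
      (num m) (num_mem_om m) (num m') (num_mem_om m') (hs.mono ho hts) (hs'.mono ho hts')
    exact hmm (num_inj.1 h3)

end Pool.Agent.CVH
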