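import Pool.Agent.CVH.PhiI

/-! # The sentence as a formula -/

namespace Pool.Agent.CVH

open ZFM (Fm Sat push Dfn DT IsZF IsPair IsSub Rel IsFun)

universe u

set_option linter.unusedVariables false

private theorem ud_fin : UD.{u} fun M _ v => FinI (v 0) (v 1) (v 2) := by
  unfold FinI
  repeat' first
    | exact UT.var _
    | apply UT.pr
    | apply UD.mem
    | apply UD.natU
    | apply UD.cle
    | apply UD.and
    | apply UD.iff
    | (apply UD.all; beta_reduce)
    | (apply UD.ex; beta_reduce)

private theorem ud_seq : UD.{u} fun M _ v => SeqI (v 0) (v 1) := by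
  unfold SeqI
  repeat' first
    | exact UT.var _
    | apply UT.pr
    | apply UD.mem
    | apply UD.eq
    | apply UD.natU
    | apply UD.and
    | apply UD.imp
    | (apply UD.all; beta_reduce)
    | (apply UD.ex; beta_reduce)

private theorem ud_cc : UD.{u} fun M _ v => CCI (v 0) := by
  unfold CCI
  repeat' first
    | exact UT.var _
    | apply UT.pr
    | apply UD.sub2 ud_seq
    | apply UD.mem
    | apply UD.eq
    | apply UD.natU
    | apply UD.and
    | apply UD.or
    | apply UD.imp
    | (apply UD.all; beta_reduce)
    | (apply UD.ex; beta_reduce)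

private theorem ud_ii : UD.{u} fun M _ v => III (v 0) := by
  unfold III
  repeat' first
    | exact UT.var _
    | apply UT.pr
    | apply UD.sub2 ud_seq
    | apply UD.mem
    | apply UD.eq
    | apply UD.natU
    | apply UD.and
    | apply UD.not
    | apply UD.imp
    | (apply UD.all; beta_reduce)
    | (apply UD.ex; beta_reduce)

private theorem ud_inc : UD.{u} fun M _ v => Inc (v 0) (v 1) (v 2) := by
  unfold Inc ExistsUnique
  repeat' first
    | exact UT.var _
    | apply UT.pr
    | apply UD.mem
    | apply UD.eq
    | apply UD.and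
    | apply UD.imp
    | (apply UD.all; beta_reduce)
    | (apply UD.ex; beta_reduce)

private theorem ud_jj : UD.{u} fun M _ v => JJI (v 0) (v 1) := by
  unfold JJI
  repeat' first
    | exact UT.var _
    | apply UT.pr
    | apply UD.sub3 ud_fin
    | apply UD.sub3 ud_inc
    | apply UD.mem
    | apply UD.eq
    | apply UD.natU
    | apply UD.and
    | apply UD.not
    | apply UD.imp
    | (apply UD.all; beta_reduce)
    | (apply UD.ex; beta_reduce)

/-- the sentence is a formula, the same in all models -/
theorem exists_phi : ∃ φ : Fm, ∀ (M : Type u) [WZ M] (v : ℕ → M), Sat φ v ↔ PHI M := by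
  have h : UD.{u} fun M _ v => ∃ ν θ : M,
      IsOrd ν ∧ IsOrd θ ∧ ¬ CCI ν ∧ III θ ∧ ¬ JJI ν θ := by
    repeat' first
      | exact UT.var _
      | apply UD.isOrd
      | apply UD.sub1 ud_cc
      | apply UD.sub1 ud_ii
      | apply UD.sub2 ud_jj
      | apply UD.and
      | apply UD.not
      | (apply UD.ex; beta_reduce)
  obtain ⟨φ, hφ⟩ := h
  exact ⟨φ, fun M _ v => by rw [hφ M v, phiI_iff]⟩

end Pool.Agent.CVH
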