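import Pool.Agent.CVH.JHold
import Pool.Agent.CVH.Chain
import Pool.Agent.CVH.HechC
import Pool.Agent.CVH.Phi

/-! # Cohen and Hechler extensions are not elementarily equivalent -/

namespace Pool.Agent.CVH

open ZFM (Fm Sat push Dfn DT IsZF IsPair IsSub Rel IsFun)

universe u

theorem phi_cohen (V : Type u) [WZ V] : ∃ μ : V, IsOrd μ ∧ ∀ κ : V, IsOrd κ → IsSub μ κ →
    ∀ (W : Type u) [WZ W] (j : V → W) (P L : V) (G : W), IsCohen κ P L → GenExt j P L G → PHI W := by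
  obtain ⟨h, hh, hp⟩ := exists_pigeon (pd (pw (TX V)) (pw (TX V)))
  obtain ⟨θ, hθ, hf⟩ := exists_fibre (X := pd (pd om om) h) hh
  refine ⟨θ, hθ, fun κ hκ hθκ W _ j P L G hC hG => ?_⟩
  exact ⟨j h, j θ, hG.j_isOrd.2 hh, hG.j_isOrd.2 hθ, cohen_not_cc hG hC hκ hh hp, cohen_ii hG hC hθκ,
    cohen_not_jj hG hC hh hf⟩

theorem not_phi_hechler (V : Type u) [WZ V] : ∃ μ : V, IsOrd μ ∧ ∀ l : V, IsOrd l → IsSub μ l →
    ∀ (W : Type u) [WZ W] (j : V → W) (P L : V → V) (G : W), IsHechler l P L →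
      GenExt j (P l) (L l) G → ¬ PHI W := by
  obtain ⟨h, hh, hp⟩ := exists_pigeon (pd (pd om om) (Fn (pd om om) (Stems V)))
  obtain ⟨Cl, hCl⟩ := exists_filt_stems (V := V)
  refine ⟨h, hh, fun l hl hhl W _ j P L G hH hG => ?_⟩
  rintro ⟨ν', θ', hν', hθ', h1, h2, h3⟩
  obtain ⟨ν, rfl⟩ := hG.ord ν' hν'
  obtain ⟨θ, rfl⟩ := hG.ord θ' hθ'
  rw [hG.j_isOrd] at hν' hθ'
  have hlν : l ∈ ν := by
    rcases hν'.tri hl with h | h | h
    · exact absurd (hech_cc hl hH hG hν' ((hν'.sub_iff hl).2 (Or.inl h))) h1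
    · exact absurd (hech_cc hl hH hG hν' ((hν'.sub_iff hl).2 (Or.inr h))) h1
    · exact h
  have hsub : IsSub h ν := fun z hz => hν'.tr hlν (hhl z hz)
  exact h3 (jj_of_ii hG (hech_po hl hH (mem_sc.2 (Or.inl rfl))) hCl (hech_idx hl hH) hl hν' hθ' hsub
    hlν hp h2)

/-- there is one sentence which is true in all large Cohen extensions and false in all large Hechler
extensions of each well-founded model of `ZF` -/
theorem main : ∃ φ : Fm, ∀ (V : Type u) [WZ V], ∃ μ : V, IsOrd μ ∧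
    (∀ κ : V, IsOrd κ → IsSub μ κ → ∀ (W : Type u) [WZ W] (j : V → W) (P L : V) (G : W),
      IsCohen κ P L → GenExt j P L G → ∀ v : ℕ → W, Sat φ v) ∧
    ∀ l : V, IsOrd l → IsSub μ l → ∀ (W : Type u) [WZ W] (j : V → W) (P L : V → V) (G : W),
      IsHechler l P L → GenExt j (P l) (L l) G → ∀ v : ℕ → W, ¬ Sat φ v := by
  obtain ⟨φ, hφ⟩ := exists_phi.{u}
  refine ⟨φ, fun V _ => ?_⟩
  obtain ⟨μ₁, h1, h2⟩ := phi_cohen V
  obtain ⟨μ₂, h3, h4⟩ := not_phi_hechler V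
  have key : ∃ μ : V, IsOrd μ ∧ IsSub μ₁ μ ∧ IsSub μ₂ μ := by
    rcases h1.tri h3 with h | h | h
    · exact ⟨μ₂, h3, (h1.sub_iff h3).2 (Or.inl h), fun z hz => hz⟩
    · exact ⟨μ₂, h3, (h1.sub_iff h3).2 (Or.inr h), fun z hz => hz⟩
    · exact ⟨μ₁, h1, fun z hz => hz, (h3.sub_iff h1).2 (Or.inl h)⟩
  obtain ⟨μ, hμ, h5, h6⟩ := key
  refine ⟨μ, hμ, fun κ hκ hμκ W _ j P L G hC hG v => ?_, fun l hl hμl W _ j P L G hH hG v => ?_⟩
  · exact (hφ W v).2 (h2 κ hκ (fun z hz => hμκ z (h5 z hz)) W j P L G hC hG)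
  · exact fun h => h4 l hl (fun z hz => hμl z (h6 z hz)) W j P L G hH hG ((hφ W v).1 h)

end Pool.Agent.CVH
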