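import Pool.Agent.CVH.Defs2

/-! # Ordinals and natural numbers in a well-founded model -/

namespace Pool.Agent.CVH

open ZFM (Fm Sat push Dfn DT IsZF IsPair IsSub Rel IsFun)

universe u

variable {M : Type u} [WZ M]

theorem mem_asymm {x y : M} (h : x ∈ y) : y ∉ x := WZ.wf.asymmetric x y h

theorem mem_irrefl (x : M) : x ∉ x := fun h => mem_asymm h h

/-- induction on `∈` -/
theorem mem_ind {P : M → Prop} (h : ∀ a, (∀ b, b ∈ a → P b) → P a) (a : M) : P a :=
  WZ.wf.induction a h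

@[is_poly] theorem Df.isOrd {t : (ℕ → M) → M} (ht : Tm t) : Df (fun v => IsOrd (t v)) := by
  refine Df.sub1 (R := fun x => IsOrd x) ?_ ht
  unfold IsOrd
  refine Df.and ?_ ?_
  · exact Df.all (Df.imp (Df.mem (Tm.var 0) (Tm.var 1)) (Df.all (Df.imp (Df.mem (Tm.var 0) (Tm.var 1))
      (Df.mem (Tm.var 0) (Tm.var 2)))))
  · exact Df.all (Df.imp (Df.mem (Tm.var 0) (Tm.var 1)) (Df.all (Df.imp (Df.mem (Tm.var 0) (Tm.var 1))
      (Df.all (Df.imp (Df.mem (Tm.var 0) (Tm.var 1)) (Df.mem (Tm.var 0) (Tm.var 2)))))))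

theorem IsOrd.mem {a x : M} (ha : IsOrd a) (hx : x ∈ a) : IsOrd x :=
  ⟨fun y hy z hz => ha.2 x hx y hy z hz, fun y hy => ha.2 y (ha.1 x hx y hy)⟩

theorem IsOrd.tr {a x y : M} (ha : IsOrd a) (hx : x ∈ a) (hy : y ∈ x) : y ∈ a := ha.1 x hx y hy

theorem IsOrd.tri {a b : M} (ha : IsOrd a) (hb : IsOrd b) : a ∈ b ∨ a = b ∨ b ∈ a := by
  induction a using mem_ind generalizing b with
  | h a iha =>
    induction b using mem_ind with
    | h b ihb =>
      by_contra hc
      push Not at hc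
      obtain ⟨h1, h2, h3⟩ := hc
      refine h2 (WZ.ext fun z => ⟨fun hz => ?_, fun hz => ?_⟩)
      · rcases iha z hz (ha.mem hz) hb with h | h | h
        · exact h
        · exact absurd (h ▸ hz) h3
        · exact absurd (ha.tr hz h) h3
      · rcases ihb z hz (hb.mem hz) with h | h | h
        · exact absurd (hb.tr hz h) h1
        · exact absurd (h ▸ hz) h1
        · exact h

theorem IsOrd.sub_iff {a b : M} (ha : IsOrd a) (hb : IsOrd b) : IsSub a b ↔ a ∈ b ∨ a = b := by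
  constructor
  · intro h
    rcases ha.tri hb with h1 | h1 | h1
    · exact Or.inl h1
    · exact Or.inr h1
    · exact absurd (h b h1) (mem_irrefl b)
  · rintro (h | rfl) z hz
    · exact hb.tr h hz
    · exact hz

theorem isOrd_of {x : M} (h1 : ∀ y ∈ x, IsOrd y) (h2 : ∀ y ∈ x, ∀ z ∈ y, z ∈ x) : IsOrd x :=
  ⟨h2, fun y hy z hz w hw => (h1 y hy).1 z hz w hw⟩

theorem IsOrd.sc {a : M} (ha : IsOrd a) : IsOrd (sc a) := by
  refine isOrd_of (fun y hy => ?_) fun y hy z hz => ?_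
  · rcases mem_sc.1 hy with rfl | h
    · exact ha
    · exact ha.mem h
  · rcases mem_sc.1 hy with rfl | h
    · exact mem_sc.2 (Or.inr hz)
    · exact mem_sc.2 (Or.inr (ha.tr h hz))

theorem isOrd_emp : IsOrd (emp : M) :=
  ⟨fun y hy => absurd hy (notMem_emp y), fun y hy => absurd hy (notMem_emp y)⟩

theorem isOrd_num (n : ℕ) : IsOrd (num n : M) := by
  induction n with
  | zero => exact isOrd_emp
  | succ n ih => exact ih.sc

theorem num_zero : (num 0 : M) = emp := rfl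

theorem num_succ (n : ℕ) : (num (n + 1) : M) = sc (num n) := rfl

theorem mem_num {x : M} {n : ℕ} : x ∈ (num n : M) ↔ ∃ m < n, x = num m := by
  induction n with
  | zero => exact iff_of_false (notMem_emp x) (by rintro ⟨m, hm, -⟩; omega)
  | succ n ih =>
    rw [num_succ, mem_sc, ih]
    constructor
    · rintro (h | ⟨m, hm, h⟩)
      · exact ⟨n, by omega, h⟩
      · exact ⟨m, by omega, h⟩
    · rintro ⟨m, hm, h⟩
      rcases Nat.lt_succ_iff_lt_or_eq.1 hm with h' | h'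
      · exact Or.inr ⟨m, h', h⟩
      · exact Or.inl (h' ▸ h)

@[simp] theorem num_inj {m n : ℕ} : (num m : M) = num n ↔ m = n := by
  constructor
  · intro h
    rcases lt_trichotomy m n with h1 | h1 | h1
    · have h2 : (num m : M) ∈ (num n : M) := mem_num.2 ⟨m, h1, rfl⟩
      rw [h] at h2
      exact absurd h2 (mem_irrefl _)
    · exact h1
    · have h2 : (num n : M) ∈ (num m : M) := mem_num.2 ⟨n, h1, rfl⟩
      rw [h] at h2
      exact absurd h2 (mem_irrefl _)
  · rintro rfl; rfl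

@[simp] theorem num_mem {m n : ℕ} : (num m : M) ∈ (num n : M) ↔ m < n := by
  rw [mem_num]
  constructor
  · rintro ⟨k, hk, h⟩
    rw [num_inj.1 h]; exact hk
  · exact fun h => ⟨m, h, rfl⟩

/-- least element of a class of ordinals -/
theorem exists_least {P : M → Prop} {a : M} (ha : IsOrd a) (h : P a) :
    ∃ b, IsOrd b ∧ P b ∧ ∀ c, IsOrd c → P c → b ∈ c ∨ b = c := by
  obtain ⟨b, ⟨hb1, hb2⟩, hb3⟩ := WZ.wf.has_min {b : M | IsOrd b ∧ P b} ⟨a, ha, h⟩
  refine ⟨b, hb1, hb2, fun c hc1 hc2 => ?_⟩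
  rcases hb1.tri hc1 with h1 | h1 | h1
  · exact Or.inl h1
  · exact Or.inr h1
  · exact absurd h1 (hb3 c ⟨hc1, hc2⟩)

/-- induction on ordinals -/
theorem ord_induction {P : M → Prop} (h : ∀ a, IsOrd a → (∀ b ∈ a, P b) → P a) {a : M}
    (ha : IsOrd a) : P a := by
  induction a using mem_ind with
  | h a ih => exact h a ha fun b hb => ih b hb (ha.mem hb)

theorem exists_om : ∃ w : M, IsOm w := by
  obtain ⟨w, ⟨e, he, he'⟩, hw⟩ := (WZ.zf (M := M)).infinity
  obtain ⟨y, hy⟩ := exists_sep w (P := fun x : M => IsOrd x ∧ ∀ y, y ∈ sc x → (y = emp ∨ ∃ z, y = sc z)) (by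
    refine Df.and (Df.isOrd (Tm.var 0)) (Df.all (Df.imp (Df.mem (Tm.var 0) (Tm.sc (Tm.var 1)))
      (Df.or (Df.eq (Tm.var 0) (Tm.const emp)) (Df.ex (Df.eq (Tm.var 1) (Tm.sc (Tm.var 0))))))))
  refine ⟨y, fun x => ?_⟩
  rw [hy]
  constructor
  · rintro ⟨-, h1, h2⟩
    induction x using mem_ind with
    | h x ih =>
      rcases h2 x (mem_sc.2 (Or.inl rfl)) with rfl | ⟨z, rfl⟩
      · exact ⟨0, rfl⟩
      · have hz : z ∈ sc z := mem_sc.2 (Or.inl rfl)
        obtain ⟨n, rfl⟩ := ih z hz (h1.mem hz) fun y hy => h2 y (mem_sc.2 (Or.inr hy))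
        exact ⟨n + 1, rfl⟩
  · rintro ⟨n, rfl⟩
    refine ⟨?_, isOrd_num n, fun y hy => ?_⟩
    · induction n with
      | zero => rw [num_zero, ← eq_emp.2 he']; exact he
      | succ n ih =>
        obtain ⟨s, hs, hs'⟩ := hw _ ih
        have : s = sc (num n) := WZ.ext fun z => by rw [hs', mem_sc, or_comm]
        rw [num_succ, ← this]; exact hs
    · rw [← num_succ, mem_num] at hy
      obtain ⟨m, -, rfl⟩ := hy
      cases m with
      | zero => exact Or.inl rfl
      | succ m => exact Or.inr ⟨num m, rfl⟩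

/-- the set of natural numbers -/
noncomputable def om : M := exists_om.choose

theorem mem_om {x : M} : x ∈ (om : M) ↔ ∃ n, x = num n := exists_om.choose_spec x

theorem isOm_iff {w : M} : IsOm w ↔ w = om :=
  ⟨fun h => WZ.ext fun z => by rw [h z, mem_om], fun h x => by rw [h, mem_om]⟩

@[simp] theorem num_mem_om (n : ℕ) : (num n : M) ∈ (om : M) := mem_om.2 ⟨n, rfl⟩

theorem isOrd_om : IsOrd (om : M) := by
  refine isOrd_of (fun y hy => ?_) fun y hy z hz => ?_
  · obtain ⟨n, rfl⟩ := mem_om.1 hy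
    exact isOrd_num n
  · obtain ⟨n, rfl⟩ := mem_om.1 hy
    obtain ⟨m, -, rfl⟩ := mem_num.1 hz
    exact num_mem_om m

/-- the ordinals do not form a set -/
theorem no_all_ord (x : M) : ∃ y, IsOrd y ∧ y ∉ x := by
  by_contra hc
  push Not at hc
  obtain ⟨y, hy⟩ := exists_sep x (P := fun z : M => IsOrd z) (Df.isOrd (Tm.var 0))
  have h : IsOrd y := isOrd_of (fun z hz => ((hy z).1 hz).2) fun z hz w hw => by
    have hw' := ((hy z).1 hz).2.mem hw
    exact (hy w).2 ⟨hc w hw', hw'⟩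
  exact mem_irrefl y ((hy y).2 ⟨hc y h, h⟩)

/-- definability of quantifiers over the natural numbers -/
theorem Df.allN {Q : (ℕ → M) → ℕ → Prop} {Q' : (ℕ → M) → M → Prop}
    (h : Df (fun v => Q' (fun n => v (n+1)) (v 0))) (hQ : ∀ v n, Q' v (num n) ↔ Q v n) :
    Df (fun v => ∀ n : ℕ, Q v n) := by
  refine Df.congr (P := fun v => ∀ x, x ∈ (om : M) → Q' v x)
    (Df.all (Df.imp (Df.mem (Tm.var 0) (Tm.const om)) h)) fun v => ?_
  constructor
  · exact fun h n => (hQ v n).1 (h _ (num_mem_om n))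
  · intro h x hx
    obtain ⟨n, rfl⟩ := mem_om.1 hx
    exact (hQ v n).2 (h n)

theorem Df.exN {Q : (ℕ → M) → ℕ → Prop} {Q' : (ℕ → M) → M → Prop}
    (h : Df (fun v => Q' (fun n => v (n+1)) (v 0))) (hQ : ∀ v n, Q' v (num n) ↔ Q v n) :
    Df (fun v => ∃ n : ℕ, Q v n) := by
  refine Df.congr (P := fun v => ∃ x, x ∈ (om : M) ∧ Q' v x)
    (Df.ex (Df.and (Df.mem (Tm.var 0) (Tm.const om)) h)) fun v => ?_
  constructor
  · rintro ⟨x, hx, h⟩
    obtain ⟨n, rfl⟩ := mem_om.1 hx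
    exact ⟨n, (hQ v n).1 h⟩
  · rintro ⟨n, h⟩
    exact ⟨num n, num_mem_om n, (hQ v n).2 h⟩

/-- an increasing function on ordinals satisfies `i ≤ g(i)` -/
theorem Inc.le {g ν θ i a : M} (hg : Inc g ν θ) (hν : IsOrd ν) (hθ : IsOrd θ) (hi : i ∈ ν)
    (ha : pr i a ∈ g) : i ∈ a ∨ i = a := by
  induction i using mem_ind generalizing a with
  | h i ih =>
    rcases (hν.mem hi).tri (hθ.mem (hg.2.1 i hi a ha)) with h | h | h
    · exact Or.inl h
    · exact Or.inr h
    · have ha' : a ∈ ν := hν.tr hi h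
      obtain ⟨b, hb, -⟩ := hg.1 a ha'
      have h1 : b ∈ a := hg.2.2 a ha' i hi h b a hb ha
      rcases ih a h ha' hb with h2 | h2
      · exact absurd h1 (mem_asymm h2)
      · rw [← h2] at h1
        exact absurd h1 (mem_irrefl a)

end Pool.Agent.CVH
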