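import Pool.Agent.CVH.Fin

/-! # Uniformly definable predicates: one formula for all models -/

namespace Pool.Agent.CVH

open ZFM (Fm Sat push Dfn DT IsZF IsPair IsSub Rel IsFun)

universe u

/-- definable by one formula in all models, no parameters -/
def UD (P : ∀ (M : Type u) [WZ M], (ℕ → M) → Prop) : Prop :=
  ∃ φ : Fm, ∀ (M : Type u) [WZ M] (v : ℕ → M), Sat φ v ↔ P M v

/-- uniform terms -/
def UT (t : ∀ (M : Type u) [WZ M], (ℕ → M) → M) : Prop :=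
  UD fun M _ v => v 0 = t M (fun n => v (n+1))

variable {P Q : ∀ (M : Type u) [WZ M], (ℕ → M) → Prop} {s t r : ∀ (M : Type u) [WZ M], (ℕ → M) → M}

theorem UD.congr (hP : UD P) (h : ∀ (M : Type u) [WZ M] (v : ℕ → M), P M v ↔ Q M v) : UD Q := by
  obtain ⟨φ, hφ⟩ := hP
  exact ⟨φ, fun M _ v => (hφ M v).trans (h M v)⟩

theorem UD.perm (hP : UD P) (f : ℕ → ℕ) : UD fun M _ v => P M (fun i => v (f i)) := by
  obtain ⟨φ, hφ⟩ := hP
  refine ⟨φ.rename f, fun M _ v => ?_⟩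
  rw [Fm.sat_rename, hφ]
  rfl

theorem UD.fls : UD fun (M : Type u) [WZ M] (_ : ℕ → M) => False := ⟨.fls, fun _ _ _ => Iff.rfl⟩

theorem UD.imp (hP : UD P) (hQ : UD Q) : UD fun M _ v => P M v → Q M v := by
  obtain ⟨φ, hφ⟩ := hP
  obtain ⟨ψ, hψ⟩ := hQ
  exact ⟨.imp φ ψ, fun M _ v => by simp only [Sat, hφ, hψ]⟩

theorem UD.not (hP : UD P) : UD fun M _ v => ¬ P M v := UD.imp hP UD.fls

theorem UD.and (hP : UD P) (hQ : UD Q) : UD fun M _ v => P M v ∧ Q M v :=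
  (UD.not (UD.imp hP (UD.not hQ))).congr fun M _ v => by tauto

theorem UD.or (hP : UD P) (hQ : UD Q) : UD fun M _ v => P M v ∨ Q M v :=
  (UD.imp (UD.not hP) hQ).congr fun M _ v => by tauto

theorem UD.iff (hP : UD P) (hQ : UD Q) : UD fun M _ v => (P M v ↔ Q M v) :=
  (UD.and (UD.imp hP hQ) (UD.imp hQ hP)).congr fun M _ v => by tauto

theorem UD.all {Q : ∀ (M : Type u) [WZ M], (ℕ → M) → M → Prop}
    (h : UD fun M _ v => Q M (fun n => v (n+1)) (v 0)) : UD fun M _ v => ∀ x, Q M v x := by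
  obtain ⟨φ, hφ⟩ := h
  exact ⟨.all φ, fun M _ v => by
    simp only [Sat, hφ]
    rfl⟩

theorem UD.ex {Q : ∀ (M : Type u) [WZ M], (ℕ → M) → M → Prop}
    (h : UD fun M _ v => Q M (fun n => v (n+1)) (v 0)) : UD fun M _ v => ∃ x, Q M v x :=
  (UD.not (UD.all (Q := fun M _ v x => ¬ Q M v x) (UD.not h))).congr fun M _ v => by
    rw [not_forall_not]

theorem UD.memv (i j : ℕ) : UD fun (M : Type u) [WZ M] (v : ℕ → M) => v i ∈ v j :=
  ⟨.mem i j, fun _ _ _ => Iff.rfl⟩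

theorem UD.eqv (i j : ℕ) : UD fun (M : Type u) [WZ M] (v : ℕ → M) => v i = v j :=
  ⟨.eq i j, fun _ _ _ => Iff.rfl⟩

theorem UT.var (i : ℕ) : UT fun (M : Type u) [WZ M] (v : ℕ → M) => v i := UD.eqv 0 (i+1)

theorem UT.tail (ht : UT t) : UT fun M _ v => t M (fun n => v (n+1)) :=
  UD.perm ht fun i => match i with
    | 0 => 0
    | i+1 => i+2

theorem UD.sub1 {R : ∀ (M : Type u) [WZ M], M → Prop} (hR : UD fun M _ v => R M (v 0)) (hs : UT s) :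
    UD fun M _ v => R M (s M v) :=
  (UD.ex (Q := fun M _ v x => x = s M v ∧ R M x) (UD.and hs hR)).congr fun M _ v =>
    ⟨fun ⟨x, h1, h2⟩ => h1 ▸ h2, fun h => ⟨_, rfl, h⟩⟩

theorem UD.sub2 {R : ∀ (M : Type u) [WZ M], M → M → Prop} (hR : UD fun M _ v => R M (v 0) (v 1))
    (hs : UT s) (ht : UT t) : UD fun M _ v => R M (s M v) (t M v) := by
  refine (UD.ex (Q := fun M _ v x => x = s M v ∧ ∃ y, y = t M v ∧ R M x y)
    (UD.and hs (UD.ex (Q := fun M _ v y => y = t M (fun n => v (n+1)) ∧ R M (v 0) y)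
      (UD.and (UT.tail ht) ?_)))).congr fun M _ v =>
    ⟨fun ⟨x, h1, y, h2, h3⟩ => h1 ▸ h2 ▸ h3, fun h => ⟨_, rfl, _, rfl, h⟩⟩
  exact UD.perm hR fun i => match i with
    | 0 => 1
    | _ => 0

theorem UD.sub3 {R : ∀ (M : Type u) [WZ M], M → M → M → Prop}
    (hR : UD fun M _ v => R M (v 0) (v 1) (v 2))
    (hs : UT s) (ht : UT t) (hr : UT r) : UD fun M _ v => R M (s M v) (t M v) (r M v) := by
  refine (UD.ex (Q := fun M _ v x => x = s M v ∧ ∃ y, y = t M v ∧ ∃ z, z = r M v ∧ R M x y z)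
    (UD.and hs (UD.ex (Q := fun M _ v y => y = t M (fun n => v (n+1)) ∧
        ∃ z, z = r M (fun n => v (n+1)) ∧ R M (v 0) y z)
      (UD.and (UT.tail ht) (UD.ex (Q := fun M _ v z => z = r M (fun n => v (n+2)) ∧
        R M (v 1) (v 0) z) (UD.and (UT.tail (UT.tail hr)) ?_)))))).congr fun M _ v =>
    ⟨fun ⟨x, h1, y, h2, z, h3, h4⟩ => h1 ▸ h2 ▸ h3 ▸ h4, fun h => ⟨_, rfl, _, rfl, _, rfl, h⟩⟩
  exact UD.perm hR fun i => match i with
    | 0 => 2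
    | 1 => 1
    | _ => 0

theorem UD.mem (hs : UT s) (ht : UT t) : UD fun M _ v => s M v ∈ t M v :=
  UD.sub2 (R := fun M _ x y => x ∈ y) (UD.memv 0 1) hs ht

theorem UD.eq (hs : UT s) (ht : UT t) : UD fun M _ v => s M v = t M v :=
  UD.sub2 (R := fun M _ x y => x = y) (UD.eqv 0 1) hs ht

theorem UD.isPair (hr : UT r) (hs : UT s) (ht : UT t) :
    UD fun M _ v => IsPair (r M v) (s M v) (t M v) := by
  refine UD.sub3 (R := fun M _ p x y => IsPair p x y) ?_ hr hs ht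
  unfold IsPair
  refine UD.all (Q := fun M _ v w => w ∈ v 0 ↔ (∀ u : M, u ∈ w ↔ u = v 1) ∨
    (∀ u : M, u ∈ w ↔ u = v 1 ∨ u = v 2)) (UD.iff (UD.memv 0 1) (UD.or ?_ ?_))
  · exact UD.all (Q := fun M _ v u => u ∈ v 0 ↔ u = v 2) (UD.iff (UD.memv 0 1) (UD.eqv 0 3))
  · exact UD.all (Q := fun M _ v u => u ∈ v 0 ↔ u = v 2 ∨ u = v 3)
      (UD.iff (UD.memv 0 1) (UD.or (UD.eqv 0 3) (UD.eqv 0 4)))

theorem UT.pr (hs : UT s) (ht : UT t) : UT fun M _ v => CVH.pr (s M v) (t M v) :=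
  (UD.isPair (UT.var 0) (UT.tail hs) (UT.tail ht)).congr fun M _ v => isPair_iff

theorem UD.isOrd (ht : UT t) : UD fun M _ v => IsOrd (t M v) := by
  refine UD.sub1 (R := fun M _ x => IsOrd x) ?_ ht
  unfold IsOrd
  refine UD.and ?_ ?_
  · refine UD.all (Q := fun M _ v y => y ∈ v 0 → ∀ z ∈ y, z ∈ v 0) (UD.imp (UD.memv 0 1) ?_)
    exact UD.all (Q := fun M _ v z => z ∈ v 0 → z ∈ v 1) (UD.imp (UD.memv 0 1) (UD.memv 0 2))
  · refine UD.all (Q := fun M _ v y => y ∈ v 0 → ∀ z ∈ y, ∀ w ∈ z, w ∈ y) (UD.imp (UD.memv 0 1) ?_)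
    refine UD.all (Q := fun M _ v z => z ∈ v 0 → ∀ w ∈ z, w ∈ v 0) (UD.imp (UD.memv 0 1) ?_)
    exact UD.all (Q := fun M _ v w => w ∈ v 0 → w ∈ v 1) (UD.imp (UD.memv 0 1) (UD.memv 0 2))

/-- `x` is a numeral, as a formula -/
def NatU {M : Type u} [WZ M] (x : M) : Prop :=
  IsOrd x ∧ ∀ y, (y = x ∨ y ∈ x) → ((∀ w, w ∉ y) ∨ ∃ z, ∀ w, w ∈ y ↔ w = z ∨ w ∈ z)

theorem natU_iff {M : Type u} [WZ M] {x : M} : NatU x ↔ ∃ n : ℕ, x = num n := by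
  have key : ∀ y : M, ((∀ w, w ∉ y) ∨ ∃ z, ∀ w, w ∈ y ↔ w = z ∨ w ∈ z) ↔ (y = emp ∨ ∃ z, y = sc z) := by
    intro y
    refine or_congr eq_emp.symm (exists_congr fun z => ?_)
    exact ⟨fun h => WZ.ext fun w => by rw [h, mem_sc], fun h w => by rw [h, mem_sc]⟩
  constructor
  · rintro ⟨h1, h2⟩
    induction x using mem_ind with
    | h x ih =>
      rcases (key x).1 (h2 x (Or.inl rfl)) with rfl | ⟨z, rfl⟩
      · exact ⟨0, rfl⟩
      · have hz : z ∈ sc z := mem_sc.2 (Or.inl rfl)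
        obtain ⟨n, hn⟩ := ih z hz (h1.mem hz) fun y hy => h2 y (by
          rcases hy with rfl | hy
          · exact Or.inr hz
          · exact Or.inr (mem_sc.2 (Or.inr hy)))
        exact ⟨n + 1, by rw [hn]; rfl⟩
  · rintro ⟨n, rfl⟩
    refine ⟨isOrd_num n, fun y hy => (key y).2 ?_⟩
    have : ∃ m, y = num m := by
      rcases hy with rfl | hy
      · exact ⟨n, rfl⟩
      · obtain ⟨m, -, h⟩ := mem_num.1 hy
        exact ⟨m, h⟩
    obtain ⟨m, rfl⟩ := this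
    rcases m with _ | m
    · exact Or.inl rfl
    · exact Or.inr ⟨num m, rfl⟩

theorem UD.natU (ht : UT t) : UD fun M _ v => NatU (t M v) := by
  refine UD.sub1 (R := fun M _ x => NatU x) ?_ ht
  unfold NatU
  refine UD.and (UD.isOrd (UT.var 0)) ?_
  refine UD.all (Q := fun M _ v y => (y = v 0 ∨ y ∈ v 0) → ((∀ w, w ∉ y) ∨
    ∃ z, ∀ w, w ∈ y ↔ w = z ∨ w ∈ z)) (UD.imp (UD.or (UD.eqv 0 1) (UD.memv 0 1)) (UD.or ?_ ?_))
  · exact UD.all (Q := fun M _ v w => w ∉ v 0) (UD.not (UD.memv 0 1))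
  · refine UD.ex (Q := fun M _ v z => ∀ w, w ∈ v 0 ↔ w = z ∨ w ∈ z) ?_
    exact UD.all (Q := fun M _ v w => w ∈ v 1 ↔ w = v 0 ∨ w ∈ v 0)
      (UD.iff (UD.memv 0 2) (UD.or (UD.eqv 0 1) (UD.memv 0 1)))

theorem UD.allN {Q : ∀ (M : Type u) [WZ M], (ℕ → M) → ℕ → Prop}
    {Q' : ∀ (M : Type u) [WZ M], (ℕ → M) → M → Prop}
    (h : UD fun M _ v => Q' M (fun n => v (n+1)) (v 0))
    (hQ : ∀ (M : Type u) [WZ M] (v : ℕ → M) (n : ℕ), Q' M v (num n) ↔ Q M v n) :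
    UD fun M _ v => ∀ n : ℕ, Q M v n :=
  (UD.all (Q := fun M _ v x => NatU x → Q' M v x) (UD.imp (UD.natU (UT.var 0)) h)).congr
    fun M _ v => ⟨fun h n => (hQ M v n).1 (h _ (natU_iff.2 ⟨n, rfl⟩)), fun h x hx => by
      obtain ⟨n, rfl⟩ := natU_iff.1 hx
      exact (hQ M v n).2 (h n)⟩

theorem UD.exN {Q : ∀ (M : Type u) [WZ M], (ℕ → M) → ℕ → Prop}
    {Q' : ∀ (M : Type u) [WZ M], (ℕ → M) → M → Prop}
    (h : UD fun M _ v => Q' M (fun n => v (n+1)) (v 0))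
    (hQ : ∀ (M : Type u) [WZ M] (v : ℕ → M) (n : ℕ), Q' M v (num n) ↔ Q M v n) :
    UD fun M _ v => ∃ n : ℕ, Q M v n :=
  (UD.ex (Q := fun M _ v x => NatU x ∧ Q' M v x) (UD.and (UD.natU (UT.var 0)) h)).congr
    fun M _ v => ⟨fun ⟨x, hx, h⟩ => by
      obtain ⟨n, rfl⟩ := natU_iff.1 hx
      exact ⟨n, (hQ M v n).1 h⟩, fun ⟨n, h⟩ => ⟨_, natU_iff.2 ⟨n, rfl⟩, (hQ M v n).2 h⟩⟩

theorem UD.cle (hs : UT s) (ht : UT t) : UD fun M _ v => Cle (s M v) (t M v) := by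
  refine UD.sub2 (R := fun M _ x n => Cle x n) ?_ hs ht
  unfold Cle
  refine UD.ex (Q := fun M _ v f => (∀ y ∈ v 0, ∃ i ∈ v 1, CVH.pr y i ∈ f) ∧
    ∀ y ∈ v 0, ∀ y' ∈ v 0, ∀ i, CVH.pr y i ∈ f → CVH.pr y' i ∈ f → y = y') (UD.and ?_ ?_)
  · refine UD.all (Q := fun M _ v y => y ∈ v 1 → ∃ i ∈ v 2, CVH.pr y i ∈ v 0) (UD.imp (UD.memv 0 2) ?_)
    exact UD.ex (Q := fun M _ v i => i ∈ v 3 ∧ CVH.pr (v 0) i ∈ v 1)
      (UD.and (UD.memv 0 4) (UD.mem (UT.pr (UT.var 1) (UT.var 0)) (UT.var 2)))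
  · refine UD.all (Q := fun M _ v y => y ∈ v 1 → ∀ y' ∈ v 1, ∀ i, CVH.pr y i ∈ v 0 →
      CVH.pr y' i ∈ v 0 → y = y') (UD.imp (UD.memv 0 2) ?_)
    refine UD.all (Q := fun M _ v y' => y' ∈ v 2 → ∀ i, CVH.pr (v 0) i ∈ v 1 →
      CVH.pr y' i ∈ v 1 → v 0 = y') (UD.imp (UD.memv 0 3) ?_)
    exact UD.all (Q := fun M _ v i => CVH.pr (v 1) i ∈ v 2 → CVH.pr (v 0) i ∈ v 2 → v 1 = v 0)
      (UD.imp (UD.mem (UT.pr (UT.var 2) (UT.var 0)) (UT.var 3))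
        (UD.imp (UD.mem (UT.pr (UT.var 1) (UT.var 0)) (UT.var 3)) (UD.eqv 2 1)))

theorem UD.finite {R : ∀ (M : Type u) [WZ M], (ℕ → M) → M → Prop}
    (h : UD fun M _ v => R M (fun n => v (n+1)) (v 0)) : UD fun M _ v => {x | R M v x}.Finite := by
  refine (UD.ex (Q := fun M _ v z => (∀ x, x ∈ z ↔ R M v x) ∧ ∃ n, NatU n ∧ Cle z n)
    (UD.and ?_ ?_)).congr fun M _ v => ?_
  · refine UD.all (Q := fun M _ v x => x ∈ v 0 ↔ R M (fun n => v (n+1)) x)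
      (UD.iff (UD.memv 0 1) ?_)
    exact UD.perm h fun i => match i with
      | 0 => 0
      | i+1 => i+2
  · exact UD.ex (Q := fun M _ v n => NatU n ∧ Cle (v 0) n)
      (UD.and (UD.natU (UT.var 0)) (UD.cle (UT.var 1) (UT.var 0)))
  · constructor
    · rintro ⟨z, hz, n, hn, hc⟩
      have : Fi z := fi_iff.2 ⟨n, mem_om.2 (natU_iff.1 hn), hc⟩
      exact Set.Finite.subset this fun x hx => (hz x).2 hx
    · intro hf
      obtain ⟨z, hz⟩ := exists_fin hf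
      have hfz : Fi z := Set.Finite.subset hf fun x hx => (hz x).1 hx
      obtain ⟨n, hn, hc⟩ := fi_iff.1 hfz
      exact ⟨z, hz, n, natU_iff.2 (mem_om.1 hn), hc⟩

end Pool.Agent.CVH
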