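import Pool.Agent.CVH.PhiA

/-! # The sentence without natural numbers of the metatheory -/

namespace Pool.Agent.CVH

open ZFM (Fm Sat push Dfn DT IsZF IsPair IsSub Rel IsFun)

universe u

variable {M : Type u} [WZ M]

theorem natU_num (n : ℕ) : NatU (num n : M) := natU_iff.2 ⟨n, rfl⟩

theorem allNU {Q : ℕ → Prop} {Q' : M → Prop} (h : ∀ n, Q' (num n) ↔ Q n) :
    (∀ n : ℕ, Q n) ↔ ∀ x : M, NatU x → Q' x :=
  ⟨fun h1 x hx => by obtain ⟨n, rfl⟩ := natU_iff.1 hx; exact (h n).2 (h1 n),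
    fun h1 n => (h n).1 (h1 _ (natU_num n))⟩

theorem exNU {Q : ℕ → Prop} {Q' : M → Prop} (h : ∀ n, Q' (num n) ↔ Q n) :
    (∃ n : ℕ, Q n) ↔ ∃ x : M, NatU x ∧ Q' x :=
  ⟨fun ⟨n, h1⟩ => ⟨_, natU_num n, (h n).2 h1⟩,
    fun ⟨x, hx, h1⟩ => by obtain ⟨n, rfl⟩ := natU_iff.1 hx; exact ⟨n, (h n).1 h1⟩⟩

/-- `Seq` -/
def SeqI (x ν : M) : Prop := ∀ i, i ∈ ν → ∀ n, NatU n →
  ∃ m, (NatU m ∧ pr (pr i n) m ∈ x) ∧ ∀ m', NatU m' → pr (pr i n) m' ∈ x → m' = m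

theorem seqI_iff {x ν : M} : Seq x ν ↔ SeqI x ν := by
  refine forall₂_congr fun i _ => ?_
  refine allNU fun n => ?_
  constructor
  · rintro ⟨m, ⟨hm, h1⟩, h2⟩
    obtain ⟨m, rfl⟩ := natU_iff.1 hm
    exact ⟨m, h1, fun m' h3 => num_inj.1 (h2 _ (natU_num m') h3)⟩
  · rintro ⟨m, h1, h2⟩
    refine ⟨num m, ⟨natU_num m, h1⟩, fun m' hm' h3 => ?_⟩
    obtain ⟨m', rfl⟩ := natU_iff.1 hm'
    exact congrArg _ (h2 m' h3)

/-- `CC` -/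
def CCI (ν : M) : Prop := ∃ x, SeqI x ν ∧ ∀ i, i ∈ ν → ∀ i', i' ∈ ν → i ∈ i' →
  ∃ N, NatU N ∧ ∀ n, NatU n → (N ∈ n ∨ N = n) → ∀ m, NatU m → ∀ m', NatU m' →
    pr (pr i n) m ∈ x → pr (pr i' n) m' ∈ x → m ∈ m'

theorem ccI_iff {ν : M} : CC ν ↔ CCI ν := by
  refine exists_congr fun x => and_congr seqI_iff ?_
  refine forall₂_congr fun i _ => forall₂_congr fun i' _ => forall_congr' fun _ => ?_
  refine exNU fun N => (allNU fun n => ?_).symm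
  have h1 : ((num N : M) ∈ (num n : M) ∨ (num N : M) = num n) ↔ N ≤ n := by
    rw [num_mem, num_inj, Nat.le_iff_lt_or_eq]
  rw [h1]
  refine forall_congr' fun _ => (allNU fun m => (allNU fun m' => ?_).symm).symm
  rw [num_mem]

/-- `II` -/
def III (θ : M) : Prop := ∃ x, SeqI x θ ∧ ∀ i, i ∈ θ → ∀ i', i' ∈ θ → i ≠ i' →
  ∃ n, NatU n ∧ ∃ m, NatU m ∧ pr (pr i n) m ∈ x ∧ pr (pr i' n) m ∉ x

theorem iiI_iff {θ : M} : II θ ↔ III θ := by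
  refine exists_congr fun x => and_congr seqI_iff ?_
  refine forall₂_congr fun i _ => forall₂_congr fun i' _ => forall_congr' fun _ => ?_
  exact exNU fun n => (exNU fun m => Iff.rfl).symm

/-- the elements of `ν` with `pr a ξ ∈ E` form a finite set -/
def FinI (ν E a : M) : Prop := ∃ s : M, (∀ ξ : M, ξ ∈ s ↔ ξ ∈ ν ∧ pr a ξ ∈ E) ∧ ∃ n, NatU n ∧ Cle s n

theorem finI_iff {ν E a : M} : {ξ : M | ξ ∈ ν ∧ pr a ξ ∈ E}.Finite ↔ FinI ν E a := by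
  constructor
  · intro h
    obtain ⟨s, hs⟩ := exists_fin h
    have h1 : Fi s := h.subset fun ξ hξ => (hs ξ).1 hξ
    obtain ⟨n, hn, h2⟩ := fi_iff.1 h1
    exact ⟨s, hs, n, natU_iff.2 (mem_om.1 hn), h2⟩
  · rintro ⟨s, hs, n, hn, h2⟩
    have h1 : Fi s := fi_iff.2 ⟨n, mem_om.2 (natU_iff.1 hn), h2⟩
    exact h1.subset fun ξ hξ => (hs ξ).2 hξ

/-- `JJ` -/
def JJI (ν θ : M) : Prop := ∃ E, (∀ a, a ∈ θ → ∀ n, NatU n → FinI ν E (pr a n)) ∧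
  ∀ b, (∀ n, NatU n → FinI ν b n) → ¬ ∃ g, Inc g ν θ ∧
    ∀ i, i ∈ ν → ∀ a, pr i a ∈ g → ∀ n, NatU n → ∀ ξ, ξ ∈ ν → pr (pr a n) ξ ∈ E →
      ∃ k, NatU k ∧ pr k ξ ∈ b

theorem jjI_iff {ν θ : M} : JJ ν θ ↔ JJI ν θ := by
  refine exists_congr fun E => and_congr ?_ ?_
  · refine forall₂_congr fun a _ => allNU fun n => ?_
    exact finI_iff.symm
  · refine forall_congr' fun b => ?_
    have h1 : (∀ n : ℕ, {ξ : M | ξ ∈ ν ∧ pr (num n) ξ ∈ b}.Finite) ↔ ∀ n, NatU n → FinI ν b n :=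
      allNU fun n => finI_iff.symm
    rw [h1]
    refine forall_congr' fun _ => not_congr (exists_congr fun g => and_congr Iff.rfl ?_)
    refine forall₂_congr fun i _ => forall₂_congr fun a _ => allNU fun n => ?_
    refine forall₂_congr fun ξ _ => forall_congr' fun _ => ?_
    exact (exNU fun k => Iff.rfl).symm

/-- the sentence -/
theorem phiI_iff : PHI M ↔ ∃ ν θ : M, IsOrd ν ∧ IsOrd θ ∧ ¬ CCI ν ∧ III θ ∧ ¬ JJI ν θ := by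
  unfold PHI
  simp only [ccI_iff, iiI_iff, jjI_iff]

end Pool.Agent.CVH
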